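import Pool.Agent.Q246.NR2.Trans
import Pool.Agent.Q246.NR.Len

/-!
# Clearing denominators and interpolation, with bounds
-/

set_option autoImplicit false

open Pool.Agent.Q246.NR Pool.Agent.Q246.NR2

namespace Pool.Agent.Q189.JM

section clear
variable {β τ ρ : Type} [Fintype β] [Fintype τ] [DecidableEq β] [DecidableEq τ]

/-- the terms -/
noncomputable def tm (δ : ℕ) (N M : β → MvPolynomial (ρ ⊕ τ) ℤ) (e : β → Fin (δ + 1)) (w : τ → Fin (δ + 1)) :
    MvPolynomial (ρ ⊕ τ) ℤ :=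
  (∏ b, (N b ^ (e b : ℕ) * M b ^ (δ - (e b : ℕ)))) * ∏ t, MvPolynomial.X (Sum.inr t) ^ (w t : ℕ)

/-- substitution of fractions -/
noncomputable def clz (δ : ℕ) (N M : β → MvPolynomial (ρ ⊕ τ) ℤ) (P : MvPolynomial (β ⊕ τ) ℤ) : MvPolynomial (ρ ⊕ τ) ℤ :=
  ∑ e : β → Fin (δ + 1), ∑ w : τ → Fin (δ + 1), MvPolynomial.C (P.coeff (tB (Sum.elim e w))) * tm δ N M e w

theorem clz_eval {δ : ℕ} {N M : β → MvPolynomial (ρ ⊕ τ) ℤ} {P : MvPolynomial (β ⊕ τ) ℤ} (hP : P.totalDegree ≤ δ)
    (y : ρ → ℂ) (u : τ → ℂ) (x : β → ℂ)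
    (hM : ∀ b, MvPolynomial.aeval (Sum.elim y u) (M b) * x b = MvPolynomial.aeval (Sum.elim y u) (N b)) :
    MvPolynomial.aeval (Sum.elim y u) (clz δ N M P) = (∏ b, MvPolynomial.aeval (Sum.elim y u) (M b) ^ δ) *
      MvPolynomial.aeval (Sum.elim x u) P := by
  rw [eval_two P hP x u, clz, map_sum, Finset.mul_sum]
  refine Finset.sum_congr rfl fun e _ => ?_
  rw [map_sum, Finset.mul_sum]
  refine Finset.sum_congr rfl fun w _ => ?_
  rw [map_mul, MvPolynomial.aeval_C, tm, map_mul, map_prod, map_prod]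
  simp only [map_mul, map_pow, MvPolynomial.aeval_X, Sum.elim_inr, eq_intCast]
  have h1 : ∏ b, (MvPolynomial.aeval (Sum.elim y u) (N b) ^ (e b : ℕ) * MvPolynomial.aeval (Sum.elim y u) (M b) ^ (δ - (e b : ℕ))) =
      (∏ b, MvPolynomial.aeval (Sum.elim y u) (M b) ^ δ) * ∏ b, x b ^ (e b : ℕ) := by
    rw [← Finset.prod_mul_distrib]
    refine Finset.prod_congr rfl fun b _ => ?_
    have h2 : (e b : ℕ) ≤ δ := by have := (e b).2; omega
    rw [← hM b, mul_pow]
    have h3 : MvPolynomial.aeval (Sum.elim y u) (M b) ^ δ = MvPolynomial.aeval (Sum.elim y u) (M b) ^ (e b : ℕ) *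
        MvPolynomial.aeval (Sum.elim y u) (M b) ^ (δ - (e b : ℕ)) := by
      rw [← pow_add, Nat.add_sub_cancel' h2]
    rw [h3]
    ring
  rw [h1]
  ring

theorem clz_deg {δ D : ℕ} {N M : β → MvPolynomial (ρ ⊕ τ) ℤ} {P : MvPolynomial (β ⊕ τ) ℤ}
    (hN : ∀ b, (N b).totalDegree ≤ D) (hM : ∀ b, (M b).totalDegree ≤ D) :
    (clz δ N M P).totalDegree ≤ Fintype.card β * (δ * D) + Fintype.card τ * δ := by
  refine MvPolynomial.totalDegree_finsetSum_le fun e _ => MvPolynomial.totalDegree_finsetSum_le fun w _ => ?_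
  refine (MvPolynomial.totalDegree_mul _ _).trans ?_
  rw [MvPolynomial.totalDegree_C, zero_add]
  refine (MvPolynomial.totalDegree_mul _ _).trans (Nat.add_le_add ?_ ?_)
  · refine (MvPolynomial.totalDegree_finsetProd _ _).trans ?_
    rw [← smul_eq_mul, ← Finset.card_univ, ← Finset.sum_const]
    refine Finset.sum_le_sum fun b _ => (MvPolynomial.totalDegree_mul _ _).trans ?_
    have h1 := (MvPolynomial.totalDegree_pow (N b) (e b : ℕ)).trans (Nat.mul_le_mul_left _ (hN b))
    have h2 := (MvPolynomial.totalDegree_pow (M b) (δ - (e b : ℕ))).trans (Nat.mul_le_mul_left _ (hM b))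
    have h3 : (e b : ℕ) ≤ δ := by have := (e b).2; omega
    have h4 : (e b : ℕ) * D + (δ - (e b : ℕ)) * D = δ * D := by
      rw [← add_mul, Nat.add_sub_cancel' h3]
    omega
  · refine (MvPolynomial.totalDegree_finsetProd _ _).trans ?_
    rw [← smul_eq_mul, ← Finset.card_univ, ← Finset.sum_const]
    refine Finset.sum_le_sum fun t _ => (MvPolynomial.totalDegree_pow _ _).trans ?_
    rw [MvPolynomial.totalDegree_X, mul_one]
    have := (w t).2
    omega

theorem clz_len {δ : ℕ} {N M : β → MvPolynomial (ρ ⊕ τ) ℤ} {P : MvPolynomial (β ⊕ τ) ℤ} {Λ H : ℝ} (hΛ : 1 ≤ Λ)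
    (hN : ∀ b, len (N b) ≤ Λ) (hM : ∀ b, len (M b) ≤ Λ) (hH : ∀ e, |((P.coeff e : ℤ) : ℝ)| ≤ H) :
    len (clz δ N M P) ≤ ((δ : ℝ) + 1) ^ (Fintype.card β + Fintype.card τ) * (H * Λ ^ (δ * Fintype.card β)) := by
  have hH0 : 0 ≤ H := (abs_nonneg _).trans (hH 0)
  have hterm : ∀ (e : β → Fin (δ + 1)) (w : τ → Fin (δ + 1)), len (MvPolynomial.C (P.coeff (tB (Sum.elim e w))) * tm δ N M e w) ≤
      H * Λ ^ (δ * Fintype.card β) := by
    intro e w
    refine (len_mul _ _).trans ?_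
    rw [len_C, Int.norm_eq_abs]
    refine mul_le_mul (hH _) ?_ (len_nonneg _) hH0
    refine (len_mul _ _).trans ?_
    have h1 : len (∏ t, (MvPolynomial.X (Sum.inr t) : MvPolynomial (ρ ⊕ τ) ℤ) ^ (w t : ℕ)) ≤ 1 := by
      refine (len_prod _ _).trans ?_
      refine Finset.prod_le_one (fun _ _ => len_nonneg _) fun t _ => (len_pow _ _).trans ?_
      rw [len_X, one_pow]
    have h2 : len (∏ b, (N b ^ (e b : ℕ) * M b ^ (δ - (e b : ℕ)))) ≤ Λ ^ (δ * Fintype.card β) := by
      refine (len_prod _ _).trans ?_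
      rw [pow_mul, ← Finset.card_univ, ← Finset.prod_const]
      refine Finset.prod_le_prod (fun _ _ => len_nonneg _) fun b _ => (len_mul _ _).trans ?_
      have h3 : (e b : ℕ) ≤ δ := by have := (e b).2; omega
      calc len (N b ^ (e b : ℕ)) * len (M b ^ (δ - (e b : ℕ))) ≤ Λ ^ (e b : ℕ) * Λ ^ (δ - (e b : ℕ)) :=
            mul_le_mul ((len_pow _ _).trans (pow_le_pow_left₀ (len_nonneg _) (hN b) _))
              ((len_pow _ _).trans (pow_le_pow_left₀ (len_nonneg _) (hM b) _)) (len_nonneg _) (by positivity)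
        _ = Λ ^ δ := by rw [← pow_add, Nat.add_sub_cancel' h3]
    calc _ ≤ Λ ^ (δ * Fintype.card β) * 1 := mul_le_mul h2 h1 (len_nonneg _) (by positivity)
      _ = _ := mul_one _
  refine (len_sum _ _).trans ((Finset.sum_le_sum fun e _ => (len_sum _ _).trans (Finset.sum_le_sum fun w _ => hterm e w)).trans
    (le_of_eq ?_))
  simp only [Finset.sum_const, Finset.card_univ, nsmul_eq_mul, Fintype.card_pi, Fintype.card_fin, Finset.prod_const]
  push_cast
  rw [pow_add]
  ring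

end clear

section interp

lemma basis_norm {n : ℕ} (v : Fin n → ℤ) (hv : Function.Injective v) (X : ℝ) (hX : ∀ i, |(v i : ℝ)| ≤ X) (i : Fin n) (z : ℂ) :
    ‖(Lagrange.basis Finset.univ (fun i => (v i : ℂ)) i).eval z‖ ≤ (max 1 ‖z‖ + X) ^ n := by
  classical
  have hX0 : 0 ≤ X := (abs_nonneg _).trans (hX i)
  have h1 : 1 ≤ max 1 ‖z‖ + X := by
    have := le_max_left 1 ‖z‖
    linarith
  unfold Lagrange.basis
  rw [Polynomial.eval_prod, norm_prod]
  calc _ ≤ ∏ _j ∈ Finset.univ.erase i, (max 1 ‖z‖ + X) := by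
        refine Finset.prod_le_prod (fun _ _ => norm_nonneg _) fun j hj => ?_
        unfold Lagrange.basisDivisor
        rw [Polynomial.eval_mul, Polynomial.eval_C, Polynomial.eval_sub, Polynomial.eval_X, Polynomial.eval_C, norm_mul, norm_inv]
        have h2 : v i ≠ v j := fun h => (Finset.ne_of_mem_erase hj) (hv h).symm
        have h3 : 1 ≤ ‖((v i : ℂ) - (v j : ℂ))‖ := by
          rw [← Int.cast_sub, Complex.norm_intCast]
          exact_mod_cast Int.one_le_abs (sub_ne_zero.2 h2)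
        have h4 : ‖z - (v j : ℂ)‖ ≤ max 1 ‖z‖ + X := by
          refine (norm_sub_le _ _).trans (add_le_add (le_max_right _ _) ?_)
          rw [Complex.norm_intCast]
          exact hX j
        calc _ ≤ 1 * (max 1 ‖z‖ + X) := mul_le_mul (inv_le_one_of_one_le₀ h3) h4 (norm_nonneg _) zero_le_one
          _ = _ := one_mul _
    _ = (max 1 ‖z‖ + X) ^ (n - 1) := by
        rw [Finset.prod_const, Finset.card_erase_of_mem (Finset.mem_univ _), Finset.card_univ, Fintype.card_fin]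
    _ ≤ _ := pow_le_pow_right₀ h1 (by omega)

lemma basis_pow {n : ℕ} (v : Fin n → ℤ) (hv : Function.Injective v) (m : ℕ) (hm : m < n) (z : ℂ) :
    ∑ i, (v i : ℂ) ^ m * (Lagrange.basis Finset.univ (fun i => (v i : ℂ)) i).eval z = z ^ m := by
  classical
  have hinj : Set.InjOn (fun i => (v i : ℂ)) ((Finset.univ : Finset (Fin n)) : Set (Fin n)) := by
    intro i _ j _ hij
    have h2 : (v i : ℂ) = (v j : ℂ) := hij
    exact hv (by exact_mod_cast h2)
  have h1 := Lagrange.eq_interpolate (s := Finset.univ) (v := fun i => (v i : ℂ)) (f := (Polynomial.X ^ m : Polynomial ℂ)) hinj (by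
    rw [Polynomial.degree_X_pow, Finset.card_univ, Fintype.card_fin]
    exact_mod_cast hm)
  have h2 := congrArg (Polynomial.eval z) h1
  rw [Polynomial.eval_pow, Polynomial.eval_X, Lagrange.interpolate_apply, Polynomial.eval_finsetSum] at h2
  rw [h2]
  refine Finset.sum_congr rfl fun i _ => ?_
  rw [Polynomial.eval_mul, Polynomial.eval_C, Polynomial.eval_pow, Polynomial.eval_X]

variable {β τ : Type} [Fintype β] [Fintype τ] [DecidableEq β] [DecidableEq τ]

/-- bounds at all points from bounds on a grid -/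
theorem interp {d : ℕ} (x : β → Fin (d + 1) → ℤ) (hx : ∀ b, Function.Injective (x b)) (X : ℝ) (hX : ∀ b i, |(x b i : ℝ)| ≤ X)
    (hX0 : 0 ≤ X) (P : MvPolynomial (β ⊕ τ) ℤ) (hP : P.totalDegree ≤ d) (u : τ → ℂ) (M : ℝ)
    (hM : ∀ g : β → Fin (d + 1), ‖MvPolynomial.aeval (Sum.elim (fun b => (x b (g b) : ℂ)) u) P‖ ≤ M) (w : β → ℂ) :
    ‖MvPolynomial.aeval (Sum.elim w u) P‖ ≤ (((d : ℝ) + 1) * (max 1 ‖w‖ + X) ^ (d + 1)) ^ Fintype.card β * M := by
  have hM0 : 0 ≤ M := (norm_nonneg _).trans (hM fun _ => 0)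
  set L : β → Fin (d + 1) → ℂ := fun b i => (Lagrange.basis Finset.univ (fun i => (x b i : ℂ)) i).eval (w b) with hL
  have hLn : ∀ b i, ‖L b i‖ ≤ (max 1 ‖w‖ + X) ^ (d + 1) := by
    intro b i
    refine (basis_norm (x b) (hx b) X (hX b) i (w b)).trans (pow_le_pow_left₀ ?_ ?_ _)
    · have := le_max_left 1 ‖w b‖
      linarith
    · have := norm_le_pi_norm w b
      linarith [max_le_max_left 1 this]
  have hF : MvPolynomial.aeval (Sum.elim w u) P = ∑ g : β → Fin (d + 1), (∏ b, L b (g b)) *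
      MvPolynomial.aeval (Sum.elim (fun b => (x b (g b) : ℂ)) u) P := by
    simp only [eval_two P hP, Finset.mul_sum]
    symm
    rw [Finset.sum_comm]
    refine Finset.sum_congr rfl fun e _ => ?_
    rw [Finset.sum_comm]
    refine Finset.sum_congr rfl fun f _ => ?_
    symm
    have h1 : ∏ b, w b ^ (e b : ℕ) = ∑ g : β → Fin (d + 1), ∏ b, ((x b (g b) : ℂ) ^ (e b : ℕ) * L b (g b)) := by
      have h2 : ∀ b, w b ^ (e b : ℕ) = ∑ i, (x b i : ℂ) ^ (e b : ℕ) * L b i := fun b =>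
        (basis_pow (x b) (hx b) _ (e b).2 (w b)).symm
      simp only [h2]
      rw [Finset.prod_univ_sum, Fintype.piFinset_univ]
    rw [h1, Finset.sum_mul, Finset.mul_sum]
    refine Finset.sum_congr rfl fun g _ => ?_
    rw [Finset.prod_mul_distrib]
    ring
  rw [hF]
  refine (norm_sum_le _ _).trans ?_
  calc _ ≤ ∑ _g : β → Fin (d + 1), ((max 1 ‖w‖ + X) ^ (d + 1)) ^ Fintype.card β * M := by
        refine Finset.sum_le_sum fun g _ => ?_
        rw [norm_mul]
        refine mul_le_mul ?_ (hM g) (norm_nonneg _) ?_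
        · rw [norm_prod, ← Finset.card_univ, ← Finset.prod_const]
          exact Finset.prod_le_prod (fun _ _ => norm_nonneg _) fun b _ => hLn b _
        · have := le_max_left 1 ‖w‖
          positivity
    _ = _ := by
        rw [Finset.sum_const, Finset.card_univ, nsmul_eq_mul, Fintype.card_pi, Finset.prod_const, Fintype.card_fin,
          Finset.card_univ, mul_pow]
        push_cast
        ring

end interp

end Pool.Agent.Q189.JM
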