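import Pool.Agent.Q189.JM.Jet
import Pool.Agent.Q189.HC.Liou
import Pool.Agent.Q189.HC.Msr

/-!
# Near relations between the jets of the modular invariant at almost all algebraic invariants
-/

set_option autoImplicit false

open PowerSeries Pool.Agent.Y120.J Pool.Agent.Y120.K Pool.Agent.Y120.A
open Pool.Agent.Q246.NR Pool.Agent.Q246.NR2 Pool.Agent.Q189.MF Pool.Agent.Y916.Sl
open Pool.Agent.TH21.MS (jj)
open Pool.Agent.Q189.HC (op liouT)

namespace Pool.Agent.Q189.JM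

variable {k : ℕ}

lemma aint_norm {m : ℕ} {T : ℝ} {x : ℂ} (h : AInt m T x) : ‖x‖ ≤ T := by
  obtain ⟨f, -, -, h3, h4⟩ := h
  exact h4 x h3

lemma NJ.mono {g d B B' : ℕ} {ζ : Fin g → ℂ} {α : Fin k → ℂ} {H H' : ℝ} (h1 : 1 ≤ H) (h2 : H ≤ H') (h3 : H' ≤ H ^ 2)
    (hB : 2 * B ≤ B') (hg : NJ d B ζ α H') : NJ d B' ζ α H := by
  intro z hz hjz hzH hzi G hG hdet lam hlam hlamH x hx0 hx1 hx2 hx3 P hPd hPH w
  refine (hg z hz hjz (fun j => (hzH j).trans h2) (fun j => (hzi j).trans (mul_le_mul_of_nonneg_right h2 (hz j).le)) G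
    (fun j i => (hG j i).trans h2) hdet lam hlam (fun j => (hlamH j).trans h2) x hx0 hx1 hx2 hx3 P hPd
    (fun e => (hPH e).trans h2) w).trans ?_
  refine mul_le_mul_of_nonneg_right ?_ (norm_nonneg _)
  have h4 : 1 ≤ max 1 ‖w‖ := le_max_left _ _
  have h5 : 1 ≤ H * max 1 ‖w‖ := by nlinarith
  refine le_trans ?_ (pow_le_pow_right₀ h5 hB)
  rw [pow_mul]
  refine pow_le_pow_left₀ (mul_nonneg (by linarith) (by positivity)) ?_ _
  calc H' * max 1 ‖w‖ ≤ H ^ 2 * max 1 ‖w‖ := mul_le_mul_of_nonneg_right h3 (by positivity)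
    _ ≤ H ^ 2 * max 1 ‖w‖ ^ 2 := mul_le_mul_of_nonneg_left (le_self_pow₀ h4 (by norm_num)) (by positivity)
    _ = _ := by ring

/-- the theorem on almost all tuples, for properties which follow from `NJ` -/
theorem mainJ (k g mm d : ℕ) (hm : 1 ≤ mm) : ∃ R : ℕ, 1 ≤ R ∧
    ∀ (Z : Type) (ζf : Z → Fin g → ℂ) (Gd : ℕ → Z → (Fin k → ℂ) → ℝ → Prop),
    (∀ B₀ : ℕ, ∃ B : ℕ, ∀ T : ℕ, 1 ≤ T → ∃ H₀ : ℝ, ∀ z x H, H₀ ≤ H → (∀ j, AInt mm T (x j)) →
      (∀ j, (R : ℝ) < ‖x j‖) → NJ d B₀ (ζf z) x H → Gd B z x H) →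
    (∀ B z x H H', 1 ≤ H → H ≤ H' → H' ≤ H ^ 2 → Gd B z x H' → Gd (2 * B) z x H) →
    ∃ (B : ℕ) (C c : ℝ), 0 < c ∧ ∀ T : ℕ, 1 ≤ T →
    (∃ H₀ : ℝ, ∀ H₁ : ℝ, H₀ ≤ H₁ → ∀ z : Z,
      (({x : Fin k → ℂ | (∀ j, SInt mm T (x j)) ∧ ¬ ∀ H : ℝ, H₁ ≤ H → H ≤ H₁ ^ Real.exp ((T : ℝ) ^ c) →
        Gd B z x H}.ncard : ℕ) : ℝ) ≤ C * (T : ℝ) ^ (-c) * (({ξ : ℂ | SInt mm T ξ}.ncard : ℕ) : ℝ) ^ k) ∧
    ∀ z : Z, (({x : Fin k → ℂ | (∀ j, SInt mm T (x j)) ∧ ¬ ∀ N₀ : ℕ, ∃ N, N₀ ≤ N ∧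
      (({j : ℕ | j < N ∧ ¬ ∀ H : ℝ, 2 ^ (2 ^ j) ≤ H → H ≤ 2 ^ (2 ^ (j + 1)) → Gd B z x H}.ncard : ℕ) : ℝ) ≤
          (T : ℝ) ^ (-c) * N}.ncard : ℕ) : ℝ) ≤ C * (T : ℝ) ^ (-c) * (({ξ : ℂ | SInt mm T ξ}.ncard : ℕ) : ℝ) ^ k := by
  classical
  obtain ⟨R₁, hR₁, htr⟩ := trans (k := k) g d
  obtain ⟨R₂, hR₂, hjet⟩ := jet (k := k)
  refine ⟨max R₁ R₂, hR₁.trans (le_max_left _ _), fun Z ζf Gd hGd hmono => ?_⟩
  refine torD (r := rr k) (h := hh k) (fun _ => famJ) (fun _ => sizeJ) (fun _ => connJ) (g + 1) mm (DD g k d) (ee k d)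
    (max R₁ R₂) hm (by unfold ee; omega) (fun z : Z => (Fin.cons tpi (ζf z) : Fin (g + 1) → ℂ)) Gd (fun B₀ => ?_) hmono
  obtain ⟨B₁, hB₁⟩ := htr B₀
  obtain ⟨B₂, hB₂⟩ := hGd B₁
  refine ⟨B₂, fun T hT => ?_⟩
  obtain ⟨H₁, hH₁⟩ := hB₁ T hT
  obtain ⟨H₂, hH₂⟩ := hB₂ T hT
  obtain ⟨H₃, hH₃⟩ := hjet T hT
  refine ⟨max H₁ (max H₂ H₃), fun z x H hH hx hxR hg => ?_⟩
  have hxT : ∀ j, ‖x j‖ ≤ T := fun j => aint_norm (hx j)
  have hx1 : ∀ j, (R₁ : ℝ) < ‖x j‖ := fun j => lt_of_le_of_lt (by exact_mod_cast le_max_left _ _) (hxR j)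
  have hx2 : ∀ j, (R₂ : ℝ) < ‖x j‖ := fun j => lt_of_le_of_lt (by exact_mod_cast le_max_right _ _) (hxR j)
  have h1 := hH₁ (ζf z) x H ((le_max_left _ _).trans hH) hxT hx1 hg
  have h2 := hH₃ x H ((le_max_right _ _).trans ((le_max_right _ _).trans hH)) hxT hx2 g d B₁ (ζf z) h1
  exact hH₂ z x H ((le_max_left _ _).trans ((le_max_right _ _).trans hH)) hx hxR h2

section meas

/-- polynomials in polynomials: the length -/
lemma len_aeval {V W : Type} [Fintype V] [DecidableEq V] (S : V → MvPolynomial W ℤ) (M : ℝ) (hM : 1 ≤ M)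
    (hS : ∀ v, len (S v) ≤ M) (P : MvPolynomial V ℤ) {d : ℕ} (hP : P.totalDegree ≤ d) (H : ℝ)
    (hH : ∀ e, |((P.coeff e : ℤ) : ℝ)| ≤ H) :
    len (MvPolynomial.aeval S P) ≤ ((d : ℝ) + 1) ^ Fintype.card V * (H * (M ^ d) ^ Fintype.card V) := by
  have hH0 : 0 ≤ H := (abs_nonneg _).trans (hH 0)
  rw [MvPolynomial.aeval_def, eval_tB _ P hP]
  refine (len_sum _ _).trans ?_
  calc _ ≤ ∑ _e : V → Fin (d + 1), H * (M ^ d) ^ Fintype.card V := by
        refine Finset.sum_le_sum fun e _ => (len_mul _ _).trans ?_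
        refine mul_le_mul ?_ ?_ (len_nonneg _) hH0
        · have h1 : (algebraMap ℤ (MvPolynomial W ℤ)) (P.coeff (tB e)) = MvPolynomial.C (P.coeff (tB e)) := rfl
          rw [h1, len_C, Int.norm_eq_abs]
          exact hH _
        · refine (len_prod _ _).trans ?_
          rw [← Finset.card_univ, ← Finset.prod_const]
          refine Finset.prod_le_prod (fun _ _ => len_nonneg _) fun v _ => (len_pow _ _).trans ?_
          refine (pow_le_pow_left₀ (len_nonneg _) (hS v) _).trans (pow_le_pow_right₀ hM ?_)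
          have := (e v).2
          omega
    _ = _ := by
        rw [Finset.sum_const, Finset.card_univ, nsmul_eq_mul, Fintype.card_pi, Finset.prod_const, Fintype.card_fin,
          Finset.card_univ]
        push_cast
        ring

lemma deg_aeval {V W : Type} (S : V → MvPolynomial W ℤ) (hS : ∀ v, (S v).totalDegree ≤ 1) (P : MvPolynomial V ℤ)
    {d : ℕ} (hP : P.totalDegree ≤ d) : (MvPolynomial.aeval S P).totalDegree ≤ d := by
  rw [MvPolynomial.aeval_def, MvPolynomial.eval₂_eq]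
  refine MvPolynomial.totalDegree_finsetSum_le fun m hm => ?_
  refine (MvPolynomial.totalDegree_mul _ _).trans ?_
  have h1 : ((algebraMap ℤ (MvPolynomial W ℤ)) (P.coeff m)).totalDegree = 0 := MvPolynomial.totalDegree_C _
  rw [h1, zero_add]
  refine (MvPolynomial.totalDegree_finsetProd _ _).trans ?_
  refine (Finset.sum_le_sum fun i _ => (MvPolynomial.totalDegree_pow _ _).trans (Nat.mul_le_mul_left _ (hS i))).trans ?_
  simp only [mul_one]
  exact (MvPolynomial.le_totalDegree hm).trans hP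

/-- the measure of algebraic independence, with the number `2 π i` and the invariants -/
def MJ (d B : ℕ) (α : Fin k → ℂ) (H : ℝ) : Prop :=
  ∀ z : Fin k → ℂ, (∀ j, 0 < (z j).im) → (∀ j, jj (z j) = α j) → (∀ j, ‖z j‖ ≤ H) → (∀ j, 1 ≤ H * (z j).im) →
    ∀ G : Fin k → Fin 4 → ℤ, (∀ j i, |((G j i : ℤ) : ℝ)| ≤ H) → (∀ j, G j 0 * G j 3 - G j 1 * G j 2 ≠ 0) →
    ∀ lam : Fin k → ℂ, (∀ j, Complex.exp (lam j) = α j) → (∀ j, ‖lam j‖ ≤ H) →
    ∀ x : Fin k × Fin 4 → ℂ, (∀ j, ((G j 2 : ℂ) * z j + G j 3) * x (j, 0) = G j 0 * z j + G j 1) →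
    (∀ j, x (j, 1) = deriv jj (z j)) → (∀ j, x (j, 2) = deriv (deriv jj) (z j)) → (∀ j, x (j, 3) = lam j) →
    ∀ P : MvPolynomial ((Fin k × Fin 4) ⊕ Cs 0 k) ℤ, P.totalDegree ≤ d → (∀ e, |((P.coeff e : ℤ) : ℝ)| ≤ H) →
    (∃ (w : Fin k × Fin 4 → ℂ) (θ : ℂ), MvPolynomial.aeval (Sum.elim w (Sum.elim (fun _ : Fin 1 => θ) α)) P ≠ 0) →
      1 ≤ H ^ B * ‖MvPolynomial.aeval (Sum.elim x (cv (fun i => i.elim0) α)) P‖

lemma MJ.mono {d B B' : ℕ} {α : Fin k → ℂ} {H H' : ℝ} (h1 : 1 ≤ H) (h2 : H ≤ H') (h3 : H' ≤ H ^ 2)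
    (hB : 2 * B ≤ B') (hg : MJ d B α H') : MJ d B' α H := by
  intro z hz hjz hzH hzi G hG hdet lam hlam hlamH x hx0 hx1 hx2 hx3 P hPd hPH hw
  refine (hg z hz hjz (fun j => (hzH j).trans h2) (fun j => (hzi j).trans (mul_le_mul_of_nonneg_right h2 (hz j).le)) G
    (fun j i => (hG j i).trans h2) hdet lam hlam (fun j => (hlamH j).trans h2) x hx0 hx1 hx2 hx3 P hPd
    (fun e => (hPH e).trans h2) hw).trans ?_
  refine mul_le_mul_of_nonneg_right ?_ (norm_nonneg _)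
  refine le_trans ?_ (pow_le_pow_right₀ h1 hB)
  rw [pow_mul]
  exact pow_le_pow_left₀ (by linarith) h3 _

theorem measT_tpi : Pool.Agent.TH456.TM.MeasT tpi := by
  have h2 := Pool.Agent.Q189.HC.measT_mul (Pool.Agent.Q189.HC.measT_sq Pool.Agent.TH456.TM.measT_pi) (c := -4) (by norm_num)
  refine Pool.Agent.Q189.HC.measT_sqrt h2 ?_
  have h3 : tpi = 2 * (Real.pi : ℂ) * Complex.I := rfl
  rw [h3]
  have := Complex.I_sq
  push_cast
  linear_combination (4 * (Real.pi : ℂ) ^ 2) * this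

/-- the measure from the transfer -/
theorem measJ (d mm B₀ : ℕ) : ∃ B : ℕ, ∀ T : ℕ, 1 ≤ T → ∃ H₀ : ℝ, ∀ (ζ : Fin 0 → ℂ) (α : Fin k → ℂ) (H : ℝ), H₀ ≤ H →
    (∀ j, AInt mm T (α j)) → NJ d B₀ ζ α H → MJ d B α H := by
  classical
  obtain ⟨κ, c, hc, hli⟩ := liouT measT_tpi mm k d
  set V : ℕ := Fintype.card ((Fin k × Fin 4) ⊕ Cs 0 k) with hV
  set A : ℝ := ((d : ℝ) + 1) ^ V * (((d : ℝ) + 1) ^ d) ^ V with hA
  have hd0 : (0 : ℝ) ≤ d := Nat.cast_nonneg _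
  have hA1 : 1 ≤ A := by
    have h1 : (1 : ℝ) ≤ ((d : ℝ) + 1) ^ V := one_le_pow₀ (by linarith)
    have h2 : (1 : ℝ) ≤ (((d : ℝ) + 1) ^ d) ^ V := one_le_pow₀ (one_le_pow₀ (by linarith))
    rw [hA]
    nlinarith
  refine ⟨2 * B₀ + (2 * κ + 1), fun T hT => ?_⟩
  have hTR : (1 : ℝ) ≤ T := by exact_mod_cast hT
  refine ⟨max (max (A * (T : ℝ) ^ d) (1 / c)) (max 1 ((d : ℝ) + 1)), fun ζ α H hH hα hnj => ?_⟩
  have hHA : A * (T : ℝ) ^ d ≤ H := (le_max_left _ _).trans ((le_max_left _ _).trans hH)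
  have hHc : 1 / c ≤ H := (le_max_right _ _).trans ((le_max_left _ _).trans hH)
  have hH1 : 1 ≤ H := (le_max_left _ _).trans ((le_max_right _ _).trans hH)
  have hHd : (d : ℝ) + 1 ≤ H := (le_max_right _ _).trans ((le_max_right _ _).trans hH)
  have hH0 : 0 < H := by linarith
  have hζ : ζ = fun i => i.elim0 := by funext i; exact i.elim0
  intro z hz hjz hzH hzi G hG hdet lam hlam hlamH x hx0 hx1 hx2 hx3 P hPd hPH hw
  obtain ⟨w₀, θ, hwθ⟩ := hw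
  have hPH0 : 0 ≤ H := hH0.le
  -- a grid point
  obtain ⟨w, hw⟩ : ∃ w : Fin k × Fin 4 → Fin (d + 1),
      MvPolynomial.aeval (Sum.elim (fun b => (((w b : ℕ) : ℤ) : ℂ)) (Sum.elim (fun _ : Fin 1 => θ) α)) P ≠ 0 := by
    by_contra hcon
    push Not at hcon
    have h1 := interp (fun (_ : Fin k × Fin 4) (i : Fin (d + 1)) => ((i : ℕ) : ℤ)) (fun _ a b hab => Fin.ext (by
      have h2 : ((a : ℕ) : ℤ) = ((b : ℕ) : ℤ) := hab
      omega)) ((d : ℝ) + 1) (fun b i => by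
      have h2 := i.2
      rw [abs_of_nonneg (by positivity)]
      push_cast
      have h3 : ((i : ℕ) : ℝ) ≤ ((d + 1 : ℕ) : ℝ) := by exact_mod_cast h2.le
      push_cast at h3
      linarith) (by linarith) P hPd (Sum.elim (fun _ : Fin 1 => θ) α) 0 (fun g => by rw [hcon g, norm_zero]) w₀
    rw [mul_zero] at h1
    exact hwθ (norm_eq_zero.1 (le_antisymm h1 (norm_nonneg _)))
  have hwn : ∀ b, |((((w b : ℕ) : ℤ)) : ℝ)| ≤ (d : ℝ) + 1 := by
    intro b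
    have h2 := (w b).2
    rw [abs_of_nonneg (by positivity)]
    push_cast
    have h3 : (((w b : ℕ)) : ℝ) ≤ ((d + 1 : ℕ) : ℝ) := by exact_mod_cast h2.le
    push_cast at h3
    linarith
  -- the polynomial in the constants
  set S : (Fin k × Fin 4) ⊕ Cs 0 k → MvPolynomial (Option (Fin k)) ℤ :=
    Sum.elim (fun b => MvPolynomial.C ((w b : ℕ) : ℤ)) (Sum.elim (fun _ => MvPolynomial.X none) fun j => MvPolynomial.X (some j)) with hS
  have hSd : ∀ v, (S v).totalDegree ≤ 1 := by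
    rintro (b | i | j)
    · show (MvPolynomial.C ((w b : ℕ) : ℤ) : MvPolynomial (Option (Fin k)) ℤ).totalDegree ≤ 1
      rw [MvPolynomial.totalDegree_C]
      omega
    · exact dX' _
    · exact dX' _
  have hSl : ∀ v, len (S v) ≤ (d : ℝ) + 1 := by
    rintro (b | i | j)
    · show len (MvPolynomial.C ((w b : ℕ) : ℤ) : MvPolynomial (Option (Fin k)) ℤ) ≤ _
      rw [len_C, Int.norm_eq_abs]
      exact hwn b
    · show len (MvPolynomial.X none : MvPolynomial (Option (Fin k)) ℤ) ≤ _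
      rw [len_X]
      linarith
    · show len (MvPolynomial.X (some j) : MvPolynomial (Option (Fin k)) ℤ) ≤ _
      rw [len_X]
      linarith
  have hSe : ∀ t : ℂ, MvPolynomial.aeval (op t α) (MvPolynomial.aeval S P) =
      MvPolynomial.aeval (Sum.elim (fun b => (((w b : ℕ) : ℤ) : ℂ)) (Sum.elim (fun _ : Fin 1 => t) α)) P := by
    intro t
    have h1 : (fun v => MvPolynomial.aeval (op t α) (S v)) =
        Sum.elim (fun b => (((w b : ℕ) : ℤ) : ℂ)) (Sum.elim (fun _ : Fin 1 => t) α) := by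
      funext v
      rcases v with b | i | j
      · show MvPolynomial.aeval (op t α) (MvPolynomial.C ((w b : ℕ) : ℤ)) = _
        rw [MvPolynomial.aeval_C]
        rfl
      · show MvPolynomial.aeval (op t α) (MvPolynomial.X none) = _
        rw [MvPolynomial.aeval_X]
        rfl
      · show MvPolynomial.aeval (op t α) (MvPolynomial.X (some j)) = _
        rw [MvPolynomial.aeval_X]
        rfl
    rw [← h1]
    exact MvPolynomial.comp_aeval_apply S (MvPolynomial.aeval (op t α)) P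
  have hlen := len_aeval S ((d : ℝ) + 1) (by linarith) hSl P hPd H hPH
  have hcv : (Sum.elim (fun _ : Fin 1 => tpi) α : Cs 0 k → ℂ) = cv (fun i => i.elim0) α := by
    funext v
    rcases v with i | j
    · have : i = 0 := Fin.ext (by have := i.2; simp only [Fin.val_zero]; omega)
      rw [this]
      rfl
    · rfl
  have h2 := hli α T hTR hα (MvPolynomial.aeval S P) (deg_aeval S hSd P hPd) (A * H) (by nlinarith) (hlen.trans (le_of_eq (by
    rw [hA, hV]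
    ring))) ⟨θ, by rw [hSe]; exact hw⟩
  rw [hSe, hcv] at h2
  have h3 := hnj z hz hjz hzH hzi G hG hdet lam hlam hlamH x hx0 hx1 hx2 hx3 P hPd hPH fun b => (((w b : ℕ) : ℤ) : ℂ)
  rw [hζ] at h3
  set X := ‖MvPolynomial.aeval (Sum.elim x (cv (fun i => i.elim0) α)) P‖ with hX
  set Y := ‖MvPolynomial.aeval (Sum.elim (fun b => (((w b : ℕ) : ℤ) : ℂ)) (cv (fun i => i.elim0) α)) P‖ with hY
  have hwm : max 1 ‖fun b => (((w b : ℕ) : ℤ) : ℂ)‖ ≤ H := by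
    refine max_le hH1 ((pi_norm_le_iff_of_nonneg hH0.le).2 fun b => ?_)
    rw [Complex.norm_intCast]
    exact (hwn b).trans hHd
  have h4 : Y ≤ (H ^ 2) ^ B₀ * X := by
    refine h3.trans (mul_le_mul_of_nonneg_right (pow_le_pow_left₀ (by positivity) ?_ _) (norm_nonneg _))
    rw [pow_two]
    exact mul_le_mul_of_nonneg_left hwm hH0.le
  have h5 : (A * H * (T : ℝ) ^ d) ^ κ ≤ (H ^ 2) ^ κ := by
    refine pow_le_pow_left₀ (by positivity) ?_ _
    calc A * H * (T : ℝ) ^ d = H * (A * (T : ℝ) ^ d) := by ring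
      _ ≤ H * H := mul_le_mul_of_nonneg_left hHA hH0.le
      _ = _ := by ring
  have h6 : c ≤ (H ^ 2) ^ κ * ((H ^ 2) ^ B₀ * X) :=
    h2.trans (mul_le_mul h5 h4 (norm_nonneg _) (by positivity))
  have h7 : 1 ≤ H * c := by
    rw [div_le_iff₀ hc] at hHc
    exact hHc
  calc (1 : ℝ) ≤ H * c := h7
    _ ≤ H * ((H ^ 2) ^ κ * ((H ^ 2) ^ B₀ * X)) := mul_le_mul_of_nonneg_left h6 hH0.le
    _ = H ^ (2 * B₀ + (2 * κ + 1)) * X := by
        rw [← pow_mul, ← pow_mul, pow_add, pow_succ]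
        ring

end meas

end Pool.Agent.Q189.JM
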