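import Pool.Agent.Q246.NR2.Trans
import Pool.Agent.Q246.NR.Len

/-!
# The norm of a polynomial with integral coefficients in a number field
-/

set_option autoImplicit false

open NumberField Module Pool.Agent.Q246.NR Pool.Agent.Q246.NR2

namespace Pool.Agent.Q189.JM

/-- the norm of a polynomial with coefficients in the ring of integers -/
theorem normPoly {V : Type} (K : IntermediateField ℚ ℂ) [FiniteDimensional ℚ K] (P : MvPolynomial V K)
    (hP : ∀ e, IsIntegral ℤ (P.coeff e)) : ∃ R : MvPolynomial V ℤ,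
      MvPolynomial.map (Int.castRingHom ℂ) R = ∏ σ : K →ₐ[ℚ] ℂ, MvPolynomial.map (σ : K →+* ℂ) P := by
  classical
  have : NumberField K := { to_charZero := inferInstance, to_finiteDimensional := inferInstance }
  set ι := Free.ChooseBasisIndex ℤ (𝓞 K) with hι
  set b := RingOfIntegers.basis K with hb
  have hcard : Fintype.card ι = Fintype.card (K →ₐ[ℚ] ℂ) := by
    rw [AlgHom.card, ← finrank_eq_card_basis (integralBasis K)]
  let ε : ι ≃ (K →ₐ[ℚ] ℂ) := Fintype.equivOfCardEq hcard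
  let p : (V →₀ ℕ) → 𝓞 K := fun e => ⟨P.coeff e, hP e⟩
  have hp : ∀ e, algebraMap (𝓞 K) K (p e) = P.coeff e := fun e => rfl
  -- the matrices
  let M : Matrix ι ι (MvPolynomial V ℤ) := Matrix.of fun i j => ∑ e ∈ P.support, MvPolynomial.monomial e (b.repr (p e * b j) i)
  let F : Matrix ι ι ℂ := Matrix.of fun i j => (ε i) (algebraMap (𝓞 K) K (b j))
  let φ : MvPolynomial V ℤ →+* MvPolynomial V ℂ := MvPolynomial.map (Int.castRingHom ℂ)
  have hmul : F.map MvPolynomial.C * M.map φ =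
      Matrix.diagonal (fun i => MvPolynomial.map ((ε i : K →ₐ[ℚ] ℂ) : K →+* ℂ) P) * F.map MvPolynomial.C := by
    ext1 i j
    rw [Matrix.mul_apply, Matrix.diagonal_mul]
    simp only [Matrix.map_apply]
    have hPs : MvPolynomial.map ((ε i : K →ₐ[ℚ] ℂ) : K →+* ℂ) P = ∑ e ∈ P.support, MvPolynomial.monomial e ((ε i) (P.coeff e)) := by
      conv_lhs => rw [P.as_sum, map_sum]
      refine Finset.sum_congr rfl fun e _ => ?_
      rw [MvPolynomial.map_monomial]
      rfl
    rw [hPs, Finset.sum_mul]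
    have hM : ∀ l, φ (M l j) = ∑ e ∈ P.support, MvPolynomial.monomial e (((b.repr (p e * b j) l : ℤ)) : ℂ) := by
      intro l
      show φ (∑ e ∈ P.support, MvPolynomial.monomial e (b.repr (p e * b j) l)) = _
      rw [map_sum]
      refine Finset.sum_congr rfl fun e _ => ?_
      show MvPolynomial.map (Int.castRingHom ℂ) _ = _
      rw [MvPolynomial.map_monomial]
      rfl
    simp only [hM, Finset.mul_sum]
    rw [Finset.sum_comm]
    refine Finset.sum_congr rfl fun e _ => ?_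
    have h1 : ∀ l, MvPolynomial.C (F i l) * MvPolynomial.monomial e (((b.repr (p e * b j) l : ℤ)) : ℂ) =
        MvPolynomial.monomial e (F i l * ((b.repr (p e * b j) l : ℤ) : ℂ)) := fun l => MvPolynomial.C_mul_monomial
    simp only [h1]
    rw [← map_sum, mul_comm (MvPolynomial.monomial e ((ε i) (P.coeff e))), MvPolynomial.C_mul_monomial]
    congr 1
    have h2 : p e * b j = ∑ l, b.repr (p e * b j) l • b l := (b.sum_repr _).symm
    have h3 := congrArg (fun x : 𝓞 K => (ε i) (algebraMap (𝓞 K) K x)) h2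
    simp only [map_mul, map_sum, zsmul_eq_mul, map_intCast] at h3
    rw [hp] at h3
    show ∑ l, (ε i) (algebraMap (𝓞 K) K (b l)) * ((b.repr (p e * b j) l : ℤ) : ℂ) =
      (ε i) (algebraMap (𝓞 K) K (b j)) * (ε i) (P.coeff e)
    rw [mul_comm ((ε i) (algebraMap (𝓞 K) K (b j))), h3]
    exact Finset.sum_congr rfl fun l _ => mul_comm _ _
  -- the determinant of the embeddings
  have hF : F.det ≠ 0 := by
    intro h0
    have h1 := Algebra.discr_eq_det_embeddingsMatrixReindex_pow_two ℚ ℂ (integralBasis K) ε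
    have h2 : Algebra.embeddingsMatrixReindex ℚ ℂ (integralBasis K) ε = F.transpose := by
      ext i j
      show (ε j) (integralBasis K i) = (ε j) (algebraMap (𝓞 K) K (b i))
      rw [integralBasis_apply]
    rw [h2, Matrix.det_transpose, h0, zero_pow (by norm_num)] at h1
    exact (Algebra.discr_not_zero_of_basis ℚ (integralBasis K)) ((map_eq_zero _).1 h1)
  have hFC : (F.map (MvPolynomial.C : ℂ → MvPolynomial V ℂ)).det ≠ 0 := by
    have h1 : (F.map (MvPolynomial.C : ℂ → MvPolynomial V ℂ)).det = MvPolynomial.C F.det := by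
      have := (MvPolynomial.C : ℂ →+* MvPolynomial V ℂ).map_det F
      rw [this]
      rfl
    rw [h1]
    intro h2
    exact hF (MvPolynomial.C_injective _ _ (h2.trans (map_zero _).symm))
  refine ⟨M.det, ?_⟩
  have h4 := congrArg Matrix.det hmul
  rw [Matrix.det_mul, Matrix.det_mul, Matrix.det_diagonal, mul_comm (∏ i, _)] at h4
  have h5 := mul_left_cancel₀ hFC h4
  have h6 : (M.map φ).det = φ M.det := (φ.map_det M).symm
  rw [h6] at h5
  rw [← Equiv.prod_comp ε]
  exact h5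

/-- polynomials with coefficients of bounded house -/
def House (K : IntermediateField ℚ ℂ) (H : ℝ) {V : Type} (P : MvPolynomial V K) : Prop :=
  ∀ e, IsIntegral ℤ (P.coeff e) ∧ ∀ σ : K →ₐ[ℚ] ℂ, ‖σ (P.coeff e)‖ ≤ H

/-- the length of a polynomial of bounded degree -/
lemma len_le_card {V : Type} [Fintype V] [DecidableEq V] (P : MvPolynomial V ℂ) {d : ℕ} (hP : P.totalDegree ≤ d) (H : ℝ)
    (hH : ∀ e, ‖P.coeff e‖ ≤ H) : len P ≤ ((d : ℝ) + 1) ^ Fintype.card V * H := by
  have hH0 : 0 ≤ H := (norm_nonneg _).trans (hH 0)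
  have h1 : P.support ⊆ Finset.univ.image (fun e : V → Fin (d + 1) => tB e) := by
    intro e he
    obtain ⟨e', he'⟩ := tB_surj P hP e he
    exact Finset.mem_image.2 ⟨e', Finset.mem_univ _, he'⟩
  rw [len_eq P h1]
  calc _ ≤ ∑ _e ∈ Finset.univ.image (fun e : V → Fin (d + 1) => tB e), H := Finset.sum_le_sum fun e _ => hH e
    _ = ((Finset.univ.image (fun e : V → Fin (d + 1) => tB e)).card : ℝ) * H := by rw [Finset.sum_const, nsmul_eq_mul]
    _ ≤ _ := by
        refine mul_le_mul_of_nonneg_right ?_ hH0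
        have h2 : (Finset.univ.image (fun e : V → Fin (d + 1) => tB e)).card ≤ (d + 1) ^ Fintype.card V := by
          refine Finset.card_image_le.trans (le_of_eq ?_)
          rw [Finset.card_univ, Fintype.card_fun, Fintype.card_fin]
        exact_mod_cast h2

/-- values of polynomials -/
lemma val_le {V : Type} [Fintype V] [DecidableEq V] (P : MvPolynomial V ℂ) {d : ℕ} (hP : P.totalDegree ≤ d) (H : ℝ)
    (hH : ∀ e, ‖P.coeff e‖ ≤ H) (x : V → ℂ) (X : ℝ) (hX : 1 ≤ X) (hx : ∀ v, ‖x v‖ ≤ X) :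
    ‖MvPolynomial.eval x P‖ ≤ ((d : ℝ) + 1) ^ Fintype.card V * (H * X ^ (d * Fintype.card V)) := by
  have hH0 : 0 ≤ H := (norm_nonneg _).trans (hH 0)
  have h0 : MvPolynomial.eval x P = MvPolynomial.eval₂ (RingHom.id ℂ) x P := rfl
  rw [h0, eval_tB _ P hP]
  refine (norm_sum_le _ _).trans ?_
  calc _ ≤ ∑ _e : V → Fin (d + 1), H * X ^ (d * Fintype.card V) := by
        refine Finset.sum_le_sum fun e _ => ?_
        rw [norm_mul]
        refine mul_le_mul (hH _) ?_ (norm_nonneg _) hH0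
        rw [norm_prod, pow_mul, ← Finset.card_univ, ← Finset.prod_const]
        refine Finset.prod_le_prod (fun _ _ => norm_nonneg _) fun v _ => ?_
        rw [norm_pow]
        refine (pow_le_pow_left₀ (norm_nonneg _) (hx v) _).trans (pow_le_pow_right₀ hX ?_)
        have := (e v).2
        omega
    _ = _ := by
        rw [Finset.sum_const, Finset.card_univ, nsmul_eq_mul, Fintype.card_pi, Finset.prod_const, Fintype.card_fin,
          Finset.card_univ]
        push_cast
        ring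

/-- **from integer coefficients to number fields** -/
theorem toField {V : Type} [Fintype V] [DecidableEq V] (d D : ℕ) : ∃ (d' : ℕ) (E : ℕ) (A : ℝ), 1 ≤ A ∧
    ∀ (K : IntermediateField ℚ ℂ) [FiniteDimensional ℚ K], finrank ℚ K ≤ D → ∀ (P : MvPolynomial V K) (H : ℝ), 1 ≤ H →
      P.totalDegree ≤ d → House K H P → ∃ R : MvPolynomial V ℤ, R.totalDegree ≤ d' ∧
        (∀ e, |((R.coeff e : ℤ) : ℝ)| ≤ A * H ^ E) ∧
        MvPolynomial.map (Int.castRingHom ℂ) R = ∏ σ : K →ₐ[ℚ] ℂ, MvPolynomial.map (σ : K →+* ℂ) P ∧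
        ∀ (x : V → ℂ) (X : ℝ), 1 ≤ X → (∀ v, ‖x v‖ ≤ X) →
          ‖MvPolynomial.aeval x R‖ ≤ A * (H * X) ^ E * ‖MvPolynomial.aeval x P‖ := by
  classical
  set N : ℝ := ((d : ℝ) + 1) ^ Fintype.card V with hN
  have hN1 : 1 ≤ N := one_le_pow₀ (by
    have : (0 : ℝ) ≤ d := Nat.cast_nonneg _
    linarith)
  refine ⟨D * d, D + D * (d * Fintype.card V), N ^ D, one_le_pow₀ hN1, fun K _ hKD P H hH hPd hPH => ?_⟩
  obtain ⟨R, hR⟩ := normPoly K P fun e => (hPH e).1
  have hcard : Fintype.card (K →ₐ[ℚ] ℂ) ≤ D := by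
    rw [AlgHom.card]
    exact hKD
  have hcoe : ∀ (σ : K →ₐ[ℚ] ℂ) e, (MvPolynomial.map (σ : K →+* ℂ) P).coeff e = σ (P.coeff e) := fun σ e => by
    rw [MvPolynomial.coeff_map]
    rfl
  have hdeg : ∀ σ : K →ₐ[ℚ] ℂ, (MvPolynomial.map (σ : K →+* ℂ) P).totalDegree ≤ d := fun σ =>
    (Finset.sup_mono (MvPolynomial.support_map_subset _ _)).trans hPd
  have hco : ∀ (σ : K →ₐ[ℚ] ℂ) e, ‖(MvPolynomial.map (σ : K →+* ℂ) P).coeff e‖ ≤ H := fun σ e => by
    rw [hcoe]
    exact (hPH e).2 σ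
  have hinj : Function.Injective (Int.castRingHom ℂ) := RingHom.injective_int _
  refine ⟨R, ?_, ?_, hR, ?_⟩
  · have h1 : (MvPolynomial.map (Int.castRingHom ℂ) R).totalDegree = R.totalDegree := by
      rw [MvPolynomial.totalDegree, MvPolynomial.totalDegree, MvPolynomial.support_map_of_injective _ hinj]
    rw [← h1, hR]
    refine (MvPolynomial.totalDegree_finsetProd _ _).trans ?_
    calc _ ≤ ∑ _σ : K →ₐ[ℚ] ℂ, d := Finset.sum_le_sum fun σ _ => hdeg σ
      _ = Fintype.card (K →ₐ[ℚ] ℂ) * d := by rw [Finset.sum_const, Finset.card_univ, smul_eq_mul]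
      _ ≤ _ := Nat.mul_le_mul_right _ hcard
  · intro e
    have h1 : |((R.coeff e : ℤ) : ℝ)| = ‖(MvPolynomial.map (Int.castRingHom ℂ) R).coeff e‖ := by
      rw [MvPolynomial.coeff_map]
      show _ = ‖((R.coeff e : ℤ) : ℂ)‖
      rw [Complex.norm_intCast]
    rw [h1, hR]
    refine (norm_coeff_le_len _ _).trans ((len_prod _ _).trans ?_)
    calc _ ≤ ∏ _σ : K →ₐ[ℚ] ℂ, N * H := Finset.prod_le_prod (fun _ _ => len_nonneg _) fun σ _ =>
          len_le_card _ (hdeg σ) H (hco σ)
      _ = (N * H) ^ Fintype.card (K →ₐ[ℚ] ℂ) := by rw [Finset.prod_const, Finset.card_univ]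
      _ ≤ (N * H) ^ D := pow_le_pow_right₀ (by nlinarith) hcard
      _ = N ^ D * H ^ D := mul_pow _ _ _
      _ ≤ _ := mul_le_mul_of_nonneg_left (pow_le_pow_right₀ hH (by omega)) (by positivity)
  · intro x X hX hx
    have h1 : MvPolynomial.aeval x R = ∏ σ : K →ₐ[ℚ] ℂ, MvPolynomial.eval x (MvPolynomial.map (σ : K →+* ℂ) P) := by
      rw [← map_prod, ← hR, MvPolynomial.eval_map, MvPolynomial.aeval_def]
      rfl
    obtain ⟨σ₀, hσ₀⟩ : ∃ σ : K →ₐ[ℚ] ℂ, (σ : K →+* ℂ) = algebraMap K ℂ := ⟨(algebraMap K ℂ).toRatAlgHom, RingHom.ext fun _ => rfl⟩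
    have h2 : MvPolynomial.eval x (MvPolynomial.map ((σ₀ : K →ₐ[ℚ] ℂ) : K →+* ℂ) P) = MvPolynomial.aeval x P := by
      rw [MvPolynomial.eval_map, MvPolynomial.aeval_def, hσ₀]
    have h5 := Finset.mul_prod_erase Finset.univ (fun σ : K →ₐ[ℚ] ℂ => MvPolynomial.eval x (MvPolynomial.map (σ : K →+* ℂ) P))
      (Finset.mem_univ (σ₀ : K →ₐ[ℚ] ℂ))
    rw [h1, ← h5, norm_mul, h2, norm_prod, mul_comm]
    refine mul_le_mul_of_nonneg_right ?_ (norm_nonneg _)
    have hHX : 1 ≤ H * X := by nlinarith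
    have hval : ∀ σ : K →ₐ[ℚ] ℂ, ‖MvPolynomial.eval x (MvPolynomial.map (σ : K →+* ℂ) P)‖ ≤ N * (H * X) ^ (1 + d * Fintype.card V) := by
      intro σ
      refine (val_le _ (hdeg σ) H (hco σ) x X hX hx).trans ?_
      refine mul_le_mul_of_nonneg_left ?_ (by positivity)
      rw [pow_add, pow_one, mul_pow]
      have h3 : (1 : ℝ) ≤ H ^ (d * Fintype.card V) := one_le_pow₀ hH
      have h4 : 0 ≤ X ^ (d * Fintype.card V) := by positivity
      calc H * X ^ (d * Fintype.card V) ≤ (H * X) * X ^ (d * Fintype.card V) :=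
            mul_le_mul_of_nonneg_right (le_mul_of_one_le_right (by linarith) hX) h4
        _ = (H * X) * (1 * X ^ (d * Fintype.card V)) := by ring
        _ ≤ _ := mul_le_mul_of_nonneg_left (mul_le_mul_of_nonneg_right h3 h4) (by positivity)
    calc _ ≤ ∏ _σ ∈ Finset.univ.erase (σ₀ : K →ₐ[ℚ] ℂ), N * (H * X) ^ (1 + d * Fintype.card V) :=
          Finset.prod_le_prod (fun _ _ => norm_nonneg _) fun σ _ => hval σ
      _ = (N * (H * X) ^ (1 + d * Fintype.card V)) ^ (Finset.univ.erase (σ₀ : K →ₐ[ℚ] ℂ)).card := by rw [Finset.prod_const]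
      _ ≤ (N * (H * X) ^ (1 + d * Fintype.card V)) ^ D := by
          refine pow_le_pow_right₀ ?_ ((Finset.card_le_univ _).trans hcard)
          have : (1 : ℝ) ≤ (H * X) ^ (1 + d * Fintype.card V) := one_le_pow₀ hHX
          nlinarith
      _ = _ := by
          rw [mul_pow, ← pow_mul (H * X) (1 + d * Fintype.card V) D,
            show (1 + d * Fintype.card V) * D = D + D * (d * Fintype.card V) by ring]

end Pool.Agent.Q189.JM
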