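import Pool.Agent.Q189.JM.Fin
import Pool.Agent.Q189.JM.Nrm
import Pool.Agent.Q189.HC.Mes

/-!
# Bounds for the jets, and the measure over number fields
-/

set_option autoImplicit false

open PowerSeries Pool.Agent.Y120.J Pool.Agent.Y120.K Pool.Agent.Y120.A
open Pool.Agent.Q246.NR Pool.Agent.Q246.NR2 Pool.Agent.Q189.MF Pool.Agent.Y916.Sl
open Pool.Agent.TH21.MS (jj)
open Pool.Agent.Q189.HC (coeff_rename_le)
open NumberField Module

namespace Pool.Agent.Q189.JM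

variable {k : ℕ}

/-- bounds for the derivatives -/
theorem one_bd : ∃ R : ℕ, 1 ≤ R ∧ ∀ T : ℕ, 1 ≤ T → ∃ H₀ : ℝ, ∀ (α : ℂ) (H : ℝ), H₀ ≤ H → ‖α‖ ≤ T → (R : ℝ) < ‖α‖ →
    ∀ z : ℂ, 0 < z.im → jj z = α → ‖z‖ ≤ H → 1 ≤ H * z.im → ‖deriv jj z‖ ≤ H ^ 8 ∧ ‖deriv (deriv jj) z‖ ≤ H ^ 8 := by
  obtain ⟨Y, hY1, hY⟩ := hanc
  obtain ⟨B₀, hB₀⟩ := fdz Y
  obtain ⟨R₁, C₀, hC₀, hR₁, hval⟩ := evc_bd
  obtain ⟨R₂, hF⟩ := evc_F
  obtain ⟨R₃, hR₃⟩ := exists_nat_ge B₀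
  refine ⟨max (max R₁ R₂) R₃, hR₁.trans ((le_max_left _ _).trans (le_max_left _ _)), fun T hT => ?_⟩
  have hTR : (1 : ℝ) ≤ T := by exact_mod_cast hT
  have hlT : 0 ≤ Real.log T := Real.log_nonneg hTR
  obtain ⟨CT, hCT⟩ : ∃ CT : ℝ, CT = Real.log T + 2 * C₀ + 1 := ⟨_, rfl⟩
  have hCT1 : 1 ≤ CT := by rw [hCT]; linarith
  refine ⟨max (10 * CT + 10) (max T (max (10 * C₀ ^ 2) 20)), fun α H hH' hαT hαR z hz hjz hzH hzi => ?_⟩
  have hH : 10 * CT + 10 ≤ H := (le_max_left _ _).trans hH'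
  have hTH : (T : ℝ) ≤ H := (le_max_left _ _).trans ((le_max_right _ _).trans hH')
  have hCH : 10 * C₀ ^ 2 ≤ H := (le_max_left _ _).trans ((le_max_right _ _).trans ((le_max_right _ _).trans hH'))
  have hα1 : (R₁ : ℝ) < ‖α‖ := lt_of_le_of_lt (by exact_mod_cast (le_max_left _ _).trans (le_max_left _ _)) hαR
  have hα2 : (R₂ : ℝ) < ‖α‖ := lt_of_le_of_lt (by exact_mod_cast (le_max_right _ _).trans (le_max_left _ _)) hαR
  have hα3 : B₀ ≤ ‖α‖ := hR₃.trans ((by exact_mod_cast le_max_right _ _ : (R₃ : ℝ) ≤ ((max (max R₁ R₂) R₃ : ℕ) : ℝ)).trans hαR.le)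
  have hH20 : 20 ≤ H := by linarith
  have hH1 : 1 ≤ H := by linarith
  have hH0 : 0 < H := by linarith
  have hCTH : 10 * CT ≤ H := by linarith
  obtain ⟨γ, w, hwY, hwre, hzw, hjw⟩ := hB₀ ⟨z, hz⟩ (by
    show B₀ ≤ ‖jj z‖
    rw [hjz]
    exact hα3)
  have hjw' : jj w = α := by
    rw [hjw]
    exact hjz
  obtain ⟨-, -, hF0, hd1, hd2, hexp⟩ := hY w hwY
  rw [hjw'] at hF0 hd1 hd2 hexp
  -- the values
  obtain ⟨F, hFd⟩ : ∃ F : ℂ, F = evc FF (1 / α) := ⟨_, rfl⟩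
  obtain ⟨Gv, hGd⟩ : ∃ Gv : ℂ, Gv = evc GG (1 / α) := ⟨_, rfl⟩
  obtain ⟨F', hF'd⟩ : ∃ F' : ℂ, F' = evc F1 (1 / α) := ⟨_, rfl⟩
  rw [← hFd] at hF0 hd1 hd2 hexp
  rw [← hGd] at hexp
  rw [← hF'd] at hd2
  have hFn : 1 / 2 ≤ ‖F‖ := by rw [hFd]; exact hF α hα2
  have hGn : ‖Gv‖ ≤ C₀ := by rw [hGd]; exact hval α hα1 1
  have hGF : ‖Gv / F‖ ≤ 2 * C₀ := by
    rw [norm_div, div_le_iff₀ (by linarith)]
    nlinarith
  obtain ⟨ℓ, hℓ⟩ : ∃ ℓ : ℂ, ℓ = Gv / F - tpi * (w : ℂ) := ⟨_, rfl⟩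
  have hexpℓ : Complex.exp ℓ = α := by
    have h2 : ℓ = -(tpi * (w : ℂ) - Gv / F) := by
      rw [hℓ]
      ring
    rw [h2, Complex.exp_neg, hexp, one_div, inv_inv]
  -- the imaginary part of `w`
  have hw0 := w.im_pos
  have hwim : (w : ℂ).im = w.im := rfl
  have hwre' : (w : ℂ).re = w.re := rfl
  have hre : ℓ.re = (Gv / F).re + 2 * Real.pi * w.im := by
    have h3 : (tpi * (w : ℂ)).re = -(2 * Real.pi * w.im) := by
      have h4 : tpi = 2 * (Real.pi : ℂ) * Complex.I := rfl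
      rw [h4]
      simp
    rw [hℓ, Complex.sub_re, h3]
    ring
  have hlog : ℓ.re = Real.log ‖α‖ := by
    rw [← hexpℓ, Complex.norm_exp, Real.log_exp]
  have hαp : 0 < ‖α‖ := by
    have : (1 : ℝ) ≤ R₁ := by exact_mod_cast hR₁
    linarith
  have hlogT : Real.log ‖α‖ ≤ Real.log T := Real.log_le_log hαp hαT
  have hreGF : |(Gv / F).re| ≤ 2 * C₀ := (Complex.abs_re_le_norm _).trans hGF
  have hpi := Real.pi_gt_three
  have hwCT : w.im ≤ CT := by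
    have h5 : 2 * Real.pi * w.im ≤ Real.log T + 2 * C₀ := by
      have := neg_abs_le (Gv / F).re
      linarith
    have h6 : w.im ≤ 2 * Real.pi * w.im := by nlinarith
    rw [hCT]
    linarith
  have hwn : ‖(w : ℂ)‖ ≤ CT + 1 := by
    refine (Complex.norm_le_abs_re_add_abs_im _).trans ?_
    rw [hwre', hwim, abs_of_pos hw0]
    linarith
  have hℓH : ‖ℓ‖ ≤ H := by
    rw [hℓ]
    refine (norm_sub_le _ _).trans ?_
    have h7 : ‖tpi * (w : ℂ)‖ ≤ 7 * (CT + 1) := by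
      rw [norm_mul]
      exact mul_le_mul tpi_le hwn (norm_nonneg _) (by norm_num)
    have h8 : 2 * C₀ ≤ CT := by rw [hCT]; linarith
    linarith
  -- the matrix
  obtain ⟨ga, hga⟩ : ∃ a : ℤ, a = γ 0 0 := ⟨_, rfl⟩
  obtain ⟨gb, hgb⟩ : ∃ a : ℤ, a = γ 0 1 := ⟨_, rfl⟩
  obtain ⟨gc, hgc⟩ : ∃ a : ℤ, a = γ 1 0 := ⟨_, rfl⟩
  obtain ⟨gd, hgd⟩ : ∃ a : ℤ, a = γ 1 1 := ⟨_, rfl⟩
  have hγdet : ga * gd - gb * gc = 1 := by
    have h1 := γ.det_coe
    rw [Matrix.det_fin_two] at h1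
    rw [hga, hgb, hgc, hgd]
    exact h1
  have hzc := Pool.Agent.Y508.J.coe_smul_eq γ w
  have hne := Pool.Agent.Y508.J.den_ne γ w
  rw [← hzw, ← hga, ← hgb, ← hgc, ← hgd] at hzc
  rw [← hgc, ← hgd] at hne
  have hzc' : z = ((ga : ℂ) * w + gb) / ((gc : ℂ) * w + gd) := hzc
  have himz : z.im = w.im / Complex.normSq ((gc : ℂ) * w + gd) := by
    have h1 := ModularGroup.im_smul_eq_div_normSq γ w
    rw [← hzw, ModularGroup.denom_apply, ← hgc, ← hgd] at h1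
    exact h1
  obtain ⟨U, hU⟩ : ∃ U : ℂ, U = (gc : ℂ) * w + gd := ⟨_, rfl⟩
  rw [← hU] at hzc' himz hne
  have hUn0 : 0 < ‖U‖ := norm_pos_iff.2 hne
  have hUn : ‖U‖ ≤ H := by
    have h1 : ‖U‖ ^ 2 ≤ H ^ 2 := by
      rw [Complex.normSq_eq_norm_sq] at himz
      have h2 : z.im * ‖U‖ ^ 2 = w.im := by
        rw [himz]
        field_simp
      have h3 : ‖U‖ ^ 2 ≤ H * (z.im * ‖U‖ ^ 2) := by
        have : 0 ≤ ‖U‖ ^ 2 := by positivity
        nlinarith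
      rw [h2] at h3
      nlinarith
    exact (pow_le_pow_iff_left₀ (norm_nonneg _) hH0.le (by norm_num)).1 h1
  obtain ⟨V, hV⟩ : ∃ V : ℂ, V = (ga : ℂ) * w + gb := ⟨_, rfl⟩
  rw [← hV] at hzc'
  have hVn : ‖V‖ ≤ H ^ 2 := by
    have h1 : V = z * U := by
      rw [hzc']
      field_simp
    rw [h1, norm_mul, pow_two]
    exact mul_le_mul hzH hUn (norm_nonneg _) hH0.le
  have hw1 : 1 ≤ w.im := hY1.trans hwY
  have himU : U.im = gc * w.im := by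
    rw [hU]
    simp
  have himV : V.im = ga * w.im := by
    rw [hV]
    simp
  have hgcH : |((gc : ℤ) : ℝ)| ≤ H := by
    have h1 : |(gc : ℝ)| * w.im ≤ H := by
      rw [← abs_of_pos hw0, ← abs_mul, ← himU]
      exact (Complex.abs_im_le_norm _).trans hUn
    have := abs_nonneg (gc : ℝ)
    nlinarith
  -- the period functions
  set v : Option (Fin 4) → ℂ := fun o => o.elim ℓ fun i => Pool.Agent.Y916.Al.evc (1 / α) (hJ i) with hv
  have hZ : Zw v = ![tpi * F ^ 2, F * (Gv - ℓ * F), tpi * (F * F')] := by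
    funext i
    rw [hFd, hGd, hF'd]
    fin_cases i <;> rfl
  have hZ0 : Zw v 0 ≠ 0 := by
    rw [hZ]
    exact mul_ne_zero Pool.Agent.Y120.K.tpi_ne (pow_ne_zero 2 hF0)
  have hwZ : (w : ℂ) * Zw v 0 = Zw v 1 := by
    rw [hZ]
    show (w : ℂ) * (tpi * F ^ 2) = F * (Gv - ℓ * F)
    rw [hℓ]
    field_simp
    ring
  obtain ⟨hM, hpts⟩ := ptsC (Z := Zw v) (w := w) (t := α) hZ0 hwZ (by
    rw [hZ]
    show deriv jj w = -α * (tpi * F ^ 2)
    rw [hd1]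
    ring) (by
    rw [hZ]
    show deriv (deriv jj) w = α * ((tpi * F ^ 2) ^ 2 - 2 * (tpi * F ^ 2) * (tpi * (F * F')))
    rw [hd2]
    ring) γ hzw
  rw [← hgc, ← hgd] at hM
  rw [← hga, ← hgb, ← hgc, ← hgd] at hpts
  have hHp := pow_pos hH0
  have hFb : ‖F‖ ≤ C₀ := by rw [hFd]; exact hval α hα1 0
  have hF'b : ‖F'‖ ≤ C₀ := by rw [hF'd]; exact hval α hα1 2
  have hC0 : 0 ≤ C₀ := by linarith
  have hZ0n : ‖Zw v 0‖ ≤ H := by
    rw [hZ]
    show ‖tpi * F ^ 2‖ ≤ H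
    rw [norm_mul, norm_pow]
    calc _ ≤ 7 * C₀ ^ 2 := mul_le_mul tpi_le (pow_le_pow_left₀ (norm_nonneg _) hFb 2) (by positivity) (by norm_num)
      _ ≤ _ := by nlinarith
  have hZ2n : ‖Zw v 2‖ ≤ H := by
    rw [hZ]
    show ‖tpi * (F * F')‖ ≤ H
    rw [norm_mul, norm_mul]
    calc _ ≤ 7 * (C₀ * C₀) := mul_le_mul tpi_le (mul_le_mul hFb hF'b (norm_nonneg _) hC0) (by positivity) (by norm_num)
      _ ≤ _ := by nlinarith
  have hS : (gc : ℂ) * Zw v 1 + gd * Zw v 0 = U * Zw v 0 := by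
    rw [← hwZ, hU]
    ring
  have h1 := hpts 1
  have h2 := hpts 2
  rw [eq_div_iff (hM 1)] at h1
  rw [eq_div_iff (hM 2)] at h2
  have e1 : deriv jj z * Zw v 0 = -α * (U * Zw v 0) ^ 2 := by
    rw [← hS]
    exact h1
  have e2 : deriv (deriv jj) z * Zw v 0 ^ 3 = α * (U * Zw v 0) ^ 3 * ((U * Zw v 0) *
        (Zw v 0 - 2 * Zw v 2) - 2 * (gc : ℂ) * Zw v 0) := by
    rw [← hS]
    exact h2
  have e1' : deriv jj z = -α * (U ^ 2 * Zw v 0) := by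
    apply mul_right_cancel₀ hZ0
    rw [e1]
    ring
  have e2' : deriv (deriv jj) z = α * U ^ 3 * (U * Zw v 0 * (Zw v 0 - 2 * Zw v 2) - 2 * (gc : ℂ) * Zw v 0) := by
    apply mul_right_cancel₀ (pow_ne_zero 3 hZ0)
    rw [e2]
    ring
  have hαH : ‖α‖ ≤ H := hαT.trans hTH
  constructor
  · rw [e1', norm_mul, norm_neg, norm_mul, norm_pow]
    calc _ ≤ H * (H ^ 2 * H) := mul_le_mul hαH (mul_le_mul (pow_le_pow_left₀ hUn0.le hUn 2) hZ0n (norm_nonneg _) (by positivity))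
          (by positivity) hH0.le
      _ = H ^ 4 := by ring
      _ ≤ _ := pow_le_pow_right₀ hH1 (by norm_num)
  · rw [e2', norm_mul, norm_mul, norm_pow]
    have e3 : ‖U * Zw v 0 * (Zw v 0 - 2 * Zw v 2) - 2 * (gc : ℂ) * Zw v 0‖ ≤ 5 * (H * H * H) := by
      refine (norm_sub_le _ _).trans ?_
      have e4 : ‖U * Zw v 0 * (Zw v 0 - 2 * Zw v 2)‖ ≤ H * H * (3 * H) := by
        rw [norm_mul, norm_mul]
        refine mul_le_mul (mul_le_mul hUn hZ0n (norm_nonneg _) hH0.le) ((norm_sub_le _ _).trans ?_) (norm_nonneg _) (by positivity)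
        rw [norm_mul, Complex.norm_ofNat]
        linarith
      have e5 : ‖2 * (gc : ℂ) * Zw v 0‖ ≤ 2 * H * H := by
        rw [norm_mul, norm_mul, Complex.norm_ofNat, Complex.norm_intCast]
        exact mul_le_mul (mul_le_mul_of_nonneg_left hgcH (by norm_num)) hZ0n (norm_nonneg _) (by positivity)
      have e6 : H * H ≤ H * H * H := le_mul_of_one_le_right (by positivity) hH1
      linarith
    calc _ ≤ H * H ^ 3 * (5 * (H * H * H)) := mul_le_mul (mul_le_mul hαH (pow_le_pow_left₀ hUn0.le hUn 3) (by positivity) hH0.le)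
          e3 (norm_nonneg _) (by positivity)
      _ ≤ H * H ^ 3 * (H * (H * H * H)) := by
          refine mul_le_mul_of_nonneg_left (mul_le_mul_of_nonneg_right (by linarith) (by positivity)) (by positivity)
      _ = H ^ 8 := by ring

end Pool.Agent.Q189.JM
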