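import Pool.Agent.Q246.NR2.Trans
import Pool.Agent.Q246.NR.Len

/-!
# Substitution of fractions in polynomials over rings
-/

set_option autoImplicit false

open Pool.Agent.Q246.NR Pool.Agent.Q246.NR2

namespace Pool.Agent.Q189.JM

section clear
variable {β τ ρ : Type} [Fintype β] [Fintype τ] [DecidableEq β] [DecidableEq τ] {S S' : Type} [CommRing S] [CommRing S']

/-- the terms -/
noncomputable def tmr (δ : ℕ) (N M : β → MvPolynomial (ρ ⊕ τ) S) (e : β → Fin (δ + 1)) (w : τ → Fin (δ + 1)) :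
    MvPolynomial (ρ ⊕ τ) S :=
  (∏ b, (N b ^ (e b : ℕ) * M b ^ (δ - (e b : ℕ)))) * ∏ t, MvPolynomial.X (Sum.inr t) ^ (w t : ℕ)

/-- substitution of fractions -/
noncomputable def clr (δ : ℕ) (N M : β → MvPolynomial (ρ ⊕ τ) S) (P : MvPolynomial (β ⊕ τ) S) : MvPolynomial (ρ ⊕ τ) S :=
  ∑ e : β → Fin (δ + 1), ∑ w : τ → Fin (δ + 1), MvPolynomial.C (P.coeff (tB (Sum.elim e w))) * tmr δ N M e w

theorem clr_map (f : S →+* S') (δ : ℕ) (N M : β → MvPolynomial (ρ ⊕ τ) S) (P : MvPolynomial (β ⊕ τ) S) :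
    MvPolynomial.map f (clr δ N M P) = clr δ (fun b => MvPolynomial.map f (N b)) (fun b => MvPolynomial.map f (M b))
      (MvPolynomial.map f P) := by
  unfold clr tmr
  simp only [map_sum, map_mul, map_prod, map_pow, MvPolynomial.map_C, MvPolynomial.map_X, MvPolynomial.coeff_map]

/-- the two groups of variables -/
lemma eval_two' {D : ℕ} (f : S →+* S') (P : MvPolynomial (β ⊕ τ) S) (hP : P.totalDegree ≤ D) (y : β → S')
    (u : τ → S') : MvPolynomial.eval₂ f (Sum.elim y u) P = ∑ e : β → Fin (D + 1), ∑ w : τ → Fin (D + 1),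
      f (P.coeff (tB (Sum.elim e w))) * ((∏ k, y k ^ (e k : ℕ)) * ∏ j, u j ^ (w j : ℕ)) := by
  rw [eval_tB _ P hP, ← (Equiv.sumArrowEquivProdArrow β τ (Fin (D + 1))).symm.sum_comp,
    Fintype.sum_prod_type]
  refine Finset.sum_congr rfl fun e _ => Finset.sum_congr rfl fun w _ => ?_
  rw [Fintype.prod_sum_type]
  rfl

theorem clr_eval (f : S →+* S') {δ : ℕ} {N M : β → MvPolynomial (ρ ⊕ τ) S} {P : MvPolynomial (β ⊕ τ) S} (hP : P.totalDegree ≤ δ)
    (y : ρ → S') (u : τ → S') (x : β → S')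
    (hM : ∀ b, MvPolynomial.eval₂ f (Sum.elim y u) (M b) * x b = MvPolynomial.eval₂ f (Sum.elim y u) (N b)) :
    MvPolynomial.eval₂ f (Sum.elim y u) (clr δ N M P) = (∏ b, MvPolynomial.eval₂ f (Sum.elim y u) (M b) ^ δ) *
      MvPolynomial.eval₂ f (Sum.elim x u) P := by
  have hcoe : ∀ Q : MvPolynomial (ρ ⊕ τ) S, MvPolynomial.eval₂ f (Sum.elim y u) Q = MvPolynomial.eval₂Hom f (Sum.elim y u) Q :=
    fun _ => rfl
  rw [eval_two' f P hP x u, clr, hcoe, map_sum, Finset.mul_sum]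
  refine Finset.sum_congr rfl fun e _ => ?_
  rw [map_sum, Finset.mul_sum]
  refine Finset.sum_congr rfl fun w _ => ?_
  rw [map_mul, tmr, map_mul, map_prod, map_prod]
  simp only [map_mul, map_pow, MvPolynomial.eval₂Hom_C, MvPolynomial.eval₂Hom_X', Sum.elim_inr]
  simp only [hcoe] at hM ⊢
  have h1 : ∏ b, (MvPolynomial.eval₂Hom f (Sum.elim y u) (N b) ^ (e b : ℕ) *
      MvPolynomial.eval₂Hom f (Sum.elim y u) (M b) ^ (δ - (e b : ℕ))) =
      (∏ b, MvPolynomial.eval₂Hom f (Sum.elim y u) (M b) ^ δ) * ∏ b, x b ^ (e b : ℕ) := by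
    rw [← Finset.prod_mul_distrib]
    refine Finset.prod_congr rfl fun b _ => ?_
    have h2 : (e b : ℕ) ≤ δ := by have := (e b).2; omega
    rw [← hM b, mul_pow]
    have h3 : MvPolynomial.eval₂Hom f (Sum.elim y u) (M b) ^ δ = MvPolynomial.eval₂Hom f (Sum.elim y u) (M b) ^ (e b : ℕ) *
        MvPolynomial.eval₂Hom f (Sum.elim y u) (M b) ^ (δ - (e b : ℕ)) := by
      rw [← pow_add, Nat.add_sub_cancel' h2]
    rw [h3]
    ring
  rw [h1]
  ring

theorem clr_deg {δ D : ℕ} {N M : β → MvPolynomial (ρ ⊕ τ) S} {P : MvPolynomial (β ⊕ τ) S} [Nontrivial S]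
    (hN : ∀ b, (N b).totalDegree ≤ D) (hM : ∀ b, (M b).totalDegree ≤ D) :
    (clr δ N M P).totalDegree ≤ Fintype.card β * (δ * D) + Fintype.card τ * δ := by
  refine MvPolynomial.totalDegree_finsetSum_le fun e _ => MvPolynomial.totalDegree_finsetSum_le fun w _ => ?_
  refine (MvPolynomial.totalDegree_mul _ _).trans ?_
  rw [MvPolynomial.totalDegree_C, zero_add]
  refine (MvPolynomial.totalDegree_mul _ _).trans (Nat.add_le_add ?_ ?_)
  · refine (MvPolynomial.totalDegree_finsetProd _ _).trans ?_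
    rw [← smul_eq_mul, ← Finset.card_univ, ← Finset.sum_const]
    refine Finset.sum_le_sum fun b _ => (MvPolynomial.totalDegree_mul _ _).trans ?_
    have h1 := (MvPolynomial.totalDegree_pow (N b) (e b : ℕ)).trans (Nat.mul_le_mul_left _ (hN b))
    have h2 := (MvPolynomial.totalDegree_pow (M b) (δ - (e b : ℕ))).trans (Nat.mul_le_mul_left _ (hM b))
    have h3 : (e b : ℕ) ≤ δ := by have := (e b).2; omega
    have h4 : (e b : ℕ) * D + (δ - (e b : ℕ)) * D = δ * D := by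
      rw [← add_mul, Nat.add_sub_cancel' h3]
    omega
  · refine (MvPolynomial.totalDegree_finsetProd _ _).trans ?_
    rw [← smul_eq_mul, ← Finset.card_univ, ← Finset.sum_const]
    refine Finset.sum_le_sum fun t _ => (MvPolynomial.totalDegree_pow _ _).trans ?_
    rw [MvPolynomial.totalDegree_X, mul_one]
    have := (w t).2
    omega

theorem clr_len {δ : ℕ} {N M : β → MvPolynomial (ρ ⊕ τ) ℂ} {P : MvPolynomial (β ⊕ τ) ℂ} {Λ H : ℝ} (hΛ : 1 ≤ Λ)
    (hN : ∀ b, len (N b) ≤ Λ) (hM : ∀ b, len (M b) ≤ Λ) (hH : ∀ e, ‖P.coeff e‖ ≤ H) :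
    len (clr δ N M P) ≤ ((δ : ℝ) + 1) ^ (Fintype.card β + Fintype.card τ) * (H * Λ ^ (δ * Fintype.card β)) := by
  have hH0 : 0 ≤ H := (norm_nonneg _).trans (hH 0)
  have hterm : ∀ (e : β → Fin (δ + 1)) (w : τ → Fin (δ + 1)), len (MvPolynomial.C (P.coeff (tB (Sum.elim e w))) * tmr δ N M e w) ≤
      H * Λ ^ (δ * Fintype.card β) := by
    intro e w
    refine (len_mul _ _).trans ?_
    rw [len_C]
    refine mul_le_mul (hH _) ?_ (len_nonneg _) hH0
    refine (len_mul _ _).trans ?_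
    have h1 : len (∏ t, (MvPolynomial.X (Sum.inr t) : MvPolynomial (ρ ⊕ τ) ℂ) ^ (w t : ℕ)) ≤ 1 := by
      refine (len_prod _ _).trans ?_
      refine Finset.prod_le_one (fun _ _ => len_nonneg _) fun t _ => (len_pow _ _).trans ?_
      rw [len_X, one_pow]
    have h2 : len (∏ b, (N b ^ (e b : ℕ) * M b ^ (δ - (e b : ℕ)))) ≤ Λ ^ (δ * Fintype.card β) := by
      refine (len_prod _ _).trans ?_
      rw [pow_mul, ← Finset.card_univ, ← Finset.prod_const]
      refine Finset.prod_le_prod (fun _ _ => len_nonneg _) fun b _ => (len_mul _ _).trans ?_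
      have h3 : (e b : ℕ) ≤ δ := by have := (e b).2; omega
      calc len (N b ^ (e b : ℕ)) * len (M b ^ (δ - (e b : ℕ))) ≤ Λ ^ (e b : ℕ) * Λ ^ (δ - (e b : ℕ)) :=
            mul_le_mul ((len_pow _ _).trans (pow_le_pow_left₀ (len_nonneg _) (hN b) _))
              ((len_pow _ _).trans (pow_le_pow_left₀ (len_nonneg _) (hM b) _)) (len_nonneg _) (by positivity)
        _ = Λ ^ δ := by rw [← pow_add, Nat.add_sub_cancel' h3]
    calc _ ≤ Λ ^ (δ * Fintype.card β) * 1 := mul_le_mul h2 h1 (len_nonneg _) (by positivity)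
      _ = _ := mul_one _
  refine (len_sum _ _).trans ((Finset.sum_le_sum fun e _ => (len_sum _ _).trans (Finset.sum_le_sum fun w _ => hterm e w)).trans
    (le_of_eq ?_))
  simp only [Finset.sum_const, Finset.card_univ, nsmul_eq_mul, Fintype.card_pi, Fintype.card_fin, Finset.prod_const]
  push_cast
  rw [pow_add]
  ring

end clear

end Pool.Agent.Q189.JM
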