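import Pool.Agent.Q189.HC.Cng
import Pool.Agent.Q189.HG.Conn
import Pool.Agent.Y120.A.All
import Pool.Agent.Q246.AF.FamN

/-!
# The family of the modular invariant: near relations, connectedness
-/

set_option autoImplicit false

open PowerSeries Pool.Agent.Y120.J Pool.Agent.Y120.K Pool.Agent.Y120.A
open Pool.Agent.Y120.GH (cx ou)

namespace Pool.Agent.Q189.JM

theorem famJ : Pool.Agent.Q246.AF.FAMN hJ := by
  obtain ⟨T, A, h⟩ := Pool.Agent.Y120.J.A.gfs_true
  exact Pool.Agent.Q246.AF.t_famN h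

theorem sizeJ : ∃ C : ℝ, ∀ i m, |((coeff m (hJ i) : ℚ) : ℝ)| ≤ C ^ (m + 1) := by
  obtain ⟨T, A, h⟩ := Pool.Agent.Y120.J.A.gfs_true
  exact h.hsize

theorem sizeJ1 : ∃ C : ℝ, 1 ≤ C ∧ ∀ i m, |((coeff m (hJ i) : ℚ) : ℝ)| ≤ C ^ (m + 1) := by
  obtain ⟨C, hC⟩ := sizeJ
  refine ⟨max C 1, le_max_right _ _, fun i m => (hC i m).trans ?_⟩
  have h0 : 0 ≤ C ∨ C < 0 := le_or_gt 0 C
  rcases h0 with h0 | h0
  · exact pow_le_pow_left₀ h0 (le_max_left _ _) _
  · have h1 : |((coeff 0 (hJ i) : ℚ) : ℝ)| ≤ C ^ (0 + 1) := hC i 0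
    have h2 : 0 ≤ |((coeff 0 (hJ i) : ℚ) : ℝ)| := abs_nonneg _
    rw [zero_add, pow_one] at h1
    linarith

/-- the group of determinant one in coordinates -/
def S2 : Set (Fin 4 → ℂ) := {y | y 0 * y 3 - y 2 * y 1 = 1}

theorem S2_sub {y : Fin 4 → ℂ} (hy : y ∈ S2) (x : ℂ) : y ∈ Pool.Agent.Y916.Af.Vc hJ x := by
  by_cases h0 : y 0 = 0
  · intro R hR
    have h1 : y 0 * y 3 - y 2 * y 1 = 1 := hy
    have h10 : y 1 ≠ 0 := by
      intro h2
      rw [h0, h2] at h1
      norm_num at h1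
    set Γ : Fin 4 → Polynomial ℂ := ![Polynomial.C (y 0) + Polynomial.X * Polynomial.C (y 1), Polynomial.C (y 1),
      Polynomial.C (y 2) + Polynomial.X * Polynomial.C (y 3), Polynomial.C (y 3)] with hΓ
    have hΓe : ∀ s : ℂ, (fun a => (Γ a).eval s) = ![y 0 + s * y 1, y 1, y 2 + s * y 3, y 3] := by
      intro s
      funext a
      fin_cases a <;> simp [hΓ] <;> ring
    set p : Polynomial ℂ := Pool.Agent.Q189.HC.vc R x Γ with hp
    have h2 : ∀ s : ℂ, s ≠ 0 → p.eval s = 0 := by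
      intro s hs
      rw [hp, Pool.Agent.Q189.HC.eval_vc, Pool.Agent.Q189.HC.eval_vp, hΓe]
      refine hvcj x _ ⟨?_, ?_⟩ R hR
      · show y 0 + s * y 1 ≠ 0
        rw [h0, zero_add]
        exact mul_ne_zero hs h10
      · show (y 0 + s * y 1) * y 3 - (y 2 + s * y 3) * y 1 = 1
        linear_combination h1
    have hp0 : p = 0 := by
      refine Polynomial.eq_zero_of_infinite_isRoot p (Set.Infinite.mono (s := {0}ᶜ) ?_ ?_)
      · intro s hs
        exact h2 s hs
      · exact (Set.finite_singleton (0 : ℂ)).infinite_compl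
    have h3 : p.eval 0 = 0 := by rw [hp0, Polynomial.eval_zero]
    rw [hp, Pool.Agent.Q189.HC.eval_vc, Pool.Agent.Q189.HC.eval_vp, hΓe] at h3
    have h4 : (![y 0 + 0 * y 1, y 1, y 2 + 0 * y 3, y 3] : Fin 4 → ℂ) = y := by
      funext a
      fin_cases a <;> simp
    rw [h4] at h3
    exact h3
  · exact hvcj x y ⟨h0, hy⟩

/-- the family is connected -/
theorem connJ : Pool.Agent.Y118.UL.Conn hJ := by
  obtain ⟨K, hK, hs⟩ := sizeJ1
  obtain ⟨-, -, h3⟩ := hode
  refine Pool.Agent.Q189.HC.conn_gen hK hs S2 (fun t ht => ?_) (fun X hX x => S2_sub hX x) ?_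
  · -- the values are in the group
    set R : MvPolynomial (Fin 4) (Polynomial ℚ) := MvPolynomial.X 0 * MvPolynomial.X 3 - MvPolynomial.X 2 * MvPolynomial.X 1 - 1 with hR
    have hR0 : MvPolynomial.aeval hJ R = 0 := by
      rw [hR, map_sub, map_sub, map_mul, map_mul, MvPolynomial.aeval_X, MvPolynomial.aeval_X, MvPolynomial.aeval_X,
        MvPolynomial.aeval_X, map_one]
      show FF * G1 - F1 * GG - 1 = 0
      linear_combination h3
    have h1 := (Pool.Agent.Q189.HC.ou_aeval' hK hs R).2 t ht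
    rw [hR0, map_zero, Pool.Agent.Y120.GH.ou_zero, hR, MvPolynomial.eval₂_sub, MvPolynomial.eval₂_sub, MvPolynomial.eval₂_mul,
      MvPolynomial.eval₂_mul, MvPolynomial.eval₂_X, MvPolynomial.eval₂_X, MvPolynomial.eval₂_X, MvPolynomial.eval₂_X,
      MvPolynomial.eval₂_one] at h1
    exact (sub_eq_zero.1 h1.symm)
  · intro X hX Y hY
    set J : Matrix (Fin 2) (Fin 2) ℂ := !![0, 1; -1, 0] with hJd
    have hJt : J.transpose = -J := by
      rw [hJd]
      ext i j
      fin_cases i <;> fin_cases j <;> simp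
    have hJdet : J.det ≠ 0 := by
      rw [hJd, Matrix.det_fin_two_of]
      norm_num
    have hX1 : X 0 * X 3 - X 2 * X 1 = 1 := hX
    have hY1 : Y 0 * Y 3 - Y 2 * Y 1 = 1 := hY
    -- `X⁻¹ Y`
    set g : Matrix (Fin 2) (Fin 2) ℂ := !![X 3 * Y 0 - X 1 * Y 2, X 3 * Y 1 - X 1 * Y 3;
      X 0 * Y 2 - X 2 * Y 0, X 0 * Y 3 - X 2 * Y 1] with hg
    have hgJ : g.transpose * J * g = J := by
      rw [hg, hJd]
      ext i j
      fin_cases i <;> fin_cases j
      · simp [Matrix.mul_apply, Fin.sum_univ_two]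
        ring
      · simp [Matrix.mul_apply, Fin.sum_univ_two]
        linear_combination (Y 0 * Y 3 - Y 2 * Y 1) * hX1 + hY1
      · simp [Matrix.mul_apply, Fin.sum_univ_two]
        linear_combination -(Y 0 * Y 3 - Y 2 * Y 1) * hX1 - hY1
      · simp [Matrix.mul_apply, Fin.sum_univ_two]
        ring
    obtain ⟨Γ, hΓ0, hΓ1, hΓ⟩ := Pool.Agent.Q189.HG.path hJt hJdet g hgJ
    have hdet : ∀ s : ℂ, (Γ 0 0).eval s * (Γ 1 1).eval s - (Γ 1 0).eval s * (Γ 0 1).eval s = 1 := by
      intro s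
      have h1 := congrFun (congrFun (hΓ s) 0) 1
      rw [hJd] at h1
      simp [Matrix.mul_apply, Fin.sum_univ_two] at h1
      linear_combination h1
    refine ⟨![Polynomial.C (X 0) * Γ 0 0 + Polynomial.C (X 1) * Γ 1 0, Polynomial.C (X 0) * Γ 0 1 + Polynomial.C (X 1) * Γ 1 1,
      Polynomial.C (X 2) * Γ 0 0 + Polynomial.C (X 3) * Γ 1 0, Polynomial.C (X 2) * Γ 0 1 + Polynomial.C (X 3) * Γ 1 1], ?_, ?_, ?_⟩
    · have e : ∀ i j, (Γ i j).eval 0 = (1 : Matrix (Fin 2) (Fin 2) ℂ) i j := by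
        intro i j
        rw [← hΓ0]
        rfl
      funext a
      fin_cases a <;> simp [e]
    · have e : ∀ i j, (Γ i j).eval 1 = g i j := by
        intro i j
        rw [← hΓ1]
        rfl
      funext a
      fin_cases a
      · simp [e, hg]
        linear_combination (Y 0) * hX1
      · simp [e, hg]
        linear_combination (Y 1) * hX1
      · simp [e, hg]
        linear_combination (Y 2) * hX1
      · simp [e, hg]
        linear_combination (Y 3) * hX1
    · intro s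
      show _ * _ - _ * _ = _
      simp only [Matrix.cons_val_zero, Matrix.cons_val_one, Matrix.cons_val, Polynomial.eval_add, Polynomial.eval_mul,
        Polynomial.eval_C]
      linear_combination ((X 0 * X 3 - X 2 * X 1)) * hdet s + hX1

end Pool.Agent.Q189.JM
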