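import Pool.Agent.Q189.JM.Bnd

/-!
# The theorem on almost all tuples with powers of the height, and the measure over number fields
-/

set_option autoImplicit false

open PowerSeries Pool.Agent.Y120.J Pool.Agent.Y120.K Pool.Agent.Y120.A
open Pool.Agent.Q246.NR Pool.Agent.Q246.NR2 Pool.Agent.Q189.MF Pool.Agent.Y916.Sl
open Pool.Agent.TH21.MS (jj)
open Pool.Agent.Q189.HC (coeff_rename_le)
open NumberField Module

namespace Pool.Agent.Q189.JM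

variable {k : ℕ}

/-- the theorem on almost all tuples, for properties which follow from `NJ` at a power of the height -/
theorem mainJe (k g mm d e : ℕ) (hm : 1 ≤ mm) (he : 1 ≤ e) : ∃ R₀ : ℕ, 1 ≤ R₀ ∧
    ∀ R : ℕ, R₀ ≤ R → ∀ (Z : Type) (ζf : Z → Fin g → ℂ) (Gd : ℕ → Z → (Fin k → ℂ) → ℝ → Prop),
    (∀ B₀ : ℕ, ∃ B : ℕ, ∀ T : ℕ, 1 ≤ T → ∃ H₀ : ℝ, ∀ z x H, H₀ ≤ H → (∀ j, AInt mm T (x j)) →
      (∀ j, (R : ℝ) < ‖x j‖) → NJ d B₀ (ζf z) x (H ^ e) → Gd B z x H) →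
    (∀ B z x H H', 1 ≤ H → H ≤ H' → H' ≤ H ^ 2 → Gd B z x H' → Gd (2 * B) z x H) →
    ∃ (B : ℕ) (C c : ℝ), 0 < c ∧ ∀ T : ℕ, 1 ≤ T →
    (∃ H₀ : ℝ, ∀ H₁ : ℝ, H₀ ≤ H₁ → ∀ z : Z,
      (({x : Fin k → ℂ | (∀ j, SInt mm T (x j)) ∧ ¬ ∀ H : ℝ, H₁ ≤ H → H ≤ H₁ ^ Real.exp ((T : ℝ) ^ c) →
        Gd B z x H}.ncard : ℕ) : ℝ) ≤ C * (T : ℝ) ^ (-c) * (({ξ : ℂ | SInt mm T ξ}.ncard : ℕ) : ℝ) ^ k) ∧
    ∀ z : Z, (({x : Fin k → ℂ | (∀ j, SInt mm T (x j)) ∧ ¬ ∀ N₀ : ℕ, ∃ N, N₀ ≤ N ∧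
      (({j : ℕ | j < N ∧ ¬ ∀ H : ℝ, 2 ^ (2 ^ j) ≤ H → H ≤ 2 ^ (2 ^ (j + 1)) → Gd B z x H}.ncard : ℕ) : ℝ) ≤
          (T : ℝ) ^ (-c) * N}.ncard : ℕ) : ℝ) ≤ C * (T : ℝ) ^ (-c) * (({ξ : ℂ | SInt mm T ξ}.ncard : ℕ) : ℝ) ^ k := by
  classical
  obtain ⟨R₁, hR₁, htr⟩ := trans (k := k) g d
  obtain ⟨R₂, hR₂, hjet⟩ := jet (k := k)
  refine ⟨max R₁ R₂, hR₁.trans (le_max_left _ _), fun R hR Z ζf Gd hGd hmono => ?_⟩
  refine torD (r := rr k) (h := hh k) (fun _ => famJ) (fun _ => sizeJ) (fun _ => connJ) (g + 1) mm (DD g k d) (e * ee k d)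
    R hm (Nat.mul_pos he (by unfold ee; omega)) (fun z : Z => (Fin.cons tpi (ζf z) : Fin (g + 1) → ℂ)) Gd (fun B₀ => ?_) hmono
  obtain ⟨B₁, hB₁⟩ := htr B₀
  obtain ⟨B₂, hB₂⟩ := hGd B₁
  refine ⟨B₂, fun T hT => ?_⟩
  obtain ⟨H₁, hH₁⟩ := hB₁ T hT
  obtain ⟨H₂, hH₂⟩ := hB₂ T hT
  obtain ⟨H₃, hH₃⟩ := hjet T hT
  refine ⟨max (max H₁ 1) (max H₂ H₃), fun z x H hH hx hxR hg => ?_⟩
  have hxT : ∀ j, ‖x j‖ ≤ T := fun j => aint_norm (hx j)
  have hx1 : ∀ j, (R₁ : ℝ) < ‖x j‖ := fun j => lt_of_le_of_lt (by exact_mod_cast (le_max_left _ _).trans hR) (hxR j)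
  have hx2 : ∀ j, (R₂ : ℝ) < ‖x j‖ := fun j => lt_of_le_of_lt (by exact_mod_cast (le_max_right _ _).trans hR) (hxR j)
  have hH1 : 1 ≤ H := (le_max_right _ _).trans ((le_max_left _ _).trans hH)
  have hHe : H ≤ H ^ e := le_self_pow₀ hH1 (by omega)
  rw [pow_mul] at hg
  have h1 := hH₁ (ζf z) x (H ^ e) (((le_max_left _ _).trans ((le_max_left _ _).trans hH)).trans hHe) hxT hx1 hg
  have h2 := hH₃ x (H ^ e) (((le_max_right _ _).trans ((le_max_right _ _).trans hH)).trans hHe) hxT hx2 g d B₁ (ζf z) h1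
  exact hH₂ z x H ((le_max_left _ _).trans ((le_max_right _ _).trans hH)) hx hxR h2

/-- bounds for Möbius transforms -/
lemma mob_bd {z y : ℂ} {G : Fin 4 → ℤ} {H : ℝ} (hH : 2 ≤ H) (hz : 0 < z.im) (hzH : ‖z‖ ≤ H) (hzi : 1 ≤ H * z.im)
    (hG : ∀ i, |((G i : ℤ) : ℝ)| ≤ H) (hdet : G 0 * G 3 - G 1 * G 2 ≠ 0) (hy : ((G 2 : ℂ) * z + G 3) * y = G 0 * z + G 1) :
    1 ≤ H * ‖(G 2 : ℂ) * z + G 3‖ ∧ ‖(G 2 : ℂ) * z + G 3‖ ≤ H ^ 3 ∧ ‖y‖ ≤ H ^ 4 := by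
  have hH0 : 0 < H := by linarith
  have h1 : 1 ≤ H * ‖(G 2 : ℂ) * z + G 3‖ := by
    by_cases h0 : G 2 = 0
    · have h3 : G 3 ≠ 0 := by
        rintro h3
        rw [h0, h3] at hdet
        simp at hdet
      rw [h0, Int.cast_zero, zero_mul, zero_add, Complex.norm_intCast]
      have h4 : (1 : ℝ) ≤ |((G 3 : ℤ) : ℝ)| := by exact_mod_cast Int.one_le_abs h3
      nlinarith
    · have h4 : (1 : ℝ) ≤ |((G 2 : ℤ) : ℝ)| := by exact_mod_cast Int.one_le_abs h0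
      have h5 : ((G 2 : ℂ) * z + G 3).im = G 2 * z.im := by simp
      have h6 : |((G 2 : ℤ) : ℝ)| * z.im ≤ ‖(G 2 : ℂ) * z + G 3‖ := by
        rw [← abs_of_pos hz, ← abs_mul, ← h5]
        exact Complex.abs_im_le_norm _
      have h7 : z.im ≤ |((G 2 : ℤ) : ℝ)| * z.im := by nlinarith
      calc (1 : ℝ) ≤ H * z.im := hzi
        _ ≤ _ := mul_le_mul_of_nonneg_left (h7.trans h6) hH0.le
  have hlin : ∀ a b : ℤ, |(a : ℝ)| ≤ H → |(b : ℝ)| ≤ H → ‖(a : ℂ) * z + b‖ ≤ H ^ 3 := by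
    intro a b ha hb
    refine (norm_add_le _ _).trans ?_
    rw [norm_mul, Complex.norm_intCast, Complex.norm_intCast]
    calc _ ≤ H * H + H := add_le_add (mul_le_mul ha hzH (norm_nonneg _) hH0.le) hb
      _ ≤ H * H + H * H := by nlinarith
      _ = 2 * (H * H) := by ring
      _ ≤ H * (H * H) := mul_le_mul_of_nonneg_right hH (by positivity)
      _ = _ := by ring
  refine ⟨h1, hlin _ _ (hG 2) (hG 3), ?_⟩
  have h2 : ‖(G 2 : ℂ) * z + G 3‖ * ‖y‖ ≤ H ^ 3 := by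
    rw [← norm_mul, hy]
    exact hlin _ _ (hG 0) (hG 1)
  calc ‖y‖ = 1 * ‖y‖ := (one_mul _).symm
    _ ≤ (H * ‖(G 2 : ℂ) * z + G 3‖) * ‖y‖ := mul_le_mul_of_nonneg_right h1 (norm_nonneg _)
    _ = H * (‖(G 2 : ℂ) * z + G 3‖ * ‖y‖) := by ring
    _ ≤ H * H ^ 3 := mul_le_mul_of_nonneg_left h2 hH0.le
    _ = _ := by ring

/-- the measure over number fields, with the number `2 π i` -/
def MK (d D B : ℕ) (α : Fin k → ℂ) (H : ℝ) : Prop :=
  ∀ z : Fin k → ℂ, (∀ j, 0 < (z j).im) → (∀ j, jj (z j) = α j) → (∀ j, ‖z j‖ ≤ H) → (∀ j, 1 ≤ H * (z j).im) →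
    ∀ G : Fin k → Fin 4 → ℤ, (∀ j i, |((G j i : ℤ) : ℝ)| ≤ H) → (∀ j, G j 0 * G j 3 - G j 1 * G j 2 ≠ 0) →
    ∀ lam : Fin k → ℂ, (∀ j, Complex.exp (lam j) = α j) → (∀ j, ‖lam j‖ ≤ H) →
    ∀ x : Fin k × Fin 4 → ℂ, (∀ j, ((G j 2 : ℂ) * z j + G j 3) * x (j, 0) = G j 0 * z j + G j 1) →
    (∀ j, x (j, 1) = deriv jj (z j)) → (∀ j, x (j, 2) = deriv (deriv jj) (z j)) → (∀ j, x (j, 3) = lam j) →
    ∀ (K : IntermediateField ℚ ℂ) [FiniteDimensional ℚ K], finrank ℚ K ≤ D →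
    ∀ P : MvPolynomial (Option (Fin k × Fin 4)) K, P ≠ 0 → P.totalDegree ≤ d → House K H P →
      1 ≤ H ^ B * ‖MvPolynomial.aeval (fun o : Option (Fin k × Fin 4) => o.elim tpi x) P‖

/-- the renaming of the variables -/
def rk : Option (Fin k × Fin 4) → (Fin k × Fin 4) ⊕ Cs 0 k :=
  fun o => o.elim (Sum.inr (Sum.inl 0)) Sum.inl

lemma rk_inj : Function.Injective (rk (k := k)) := by
  rintro (_ | v) (_ | w) h
  · rfl
  · simp [rk] at h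
  · simp [rk] at h
  · simp only [rk, Option.elim_some, Sum.inl.injEq] at h
    rw [h]

lemma rk_comp (x : Fin k × Fin 4 → ℂ) (θ : ℂ) (α : Fin k → ℂ) :
    (Sum.elim x (Sum.elim (fun _ : Fin 1 => θ) α)) ∘ rk = fun o : Option (Fin k × Fin 4) => o.elim θ x := by
  funext o
  rcases o with _ | v <;> rfl

lemma cv0 (α : Fin k → ℂ) : (Sum.elim (fun _ : Fin 1 => tpi) α : Cs 0 k → ℂ) = cv (fun i => i.elim0) α := by
  funext v
  rcases v with i | j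
  · have : i = 0 := Fin.ext (by have := i.2; simp only [Fin.val_zero]; omega)
    rw [this]
    rfl
  · rfl

/-- the measure over number fields from the measure over the integers -/
theorem measK (k d D : ℕ) : ∃ (d' e R : ℕ), 1 ≤ e ∧ 1 ≤ R ∧ ∀ B₀ : ℕ, ∃ B : ℕ, ∀ T : ℕ, 1 ≤ T → ∃ H₀ : ℝ, ∀ (α : Fin k → ℂ) (H : ℝ),
    H₀ ≤ H → (∀ j, ‖α j‖ ≤ T) → (∀ j, (R : ℝ) < ‖α j‖) → MJ d' B₀ α (H ^ e) → MK d D B α H := by
  classical
  obtain ⟨R, hR, hbd⟩ := one_bd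
  obtain ⟨d', E, A, hA, hN⟩ := toField (V := Option (Fin k × Fin 4)) d D
  refine ⟨d', E + 1, R, by omega, hR, fun B₀ => ⟨(E + 1) * B₀ + (9 * E + 1), fun T hT => ?_⟩⟩
  obtain ⟨H₁, hH₁⟩ := hbd T hT
  refine ⟨max (max H₁ A) 7, fun α H hH hαT hαR hmj => ?_⟩
  have hH1 : H₁ ≤ H := (le_max_left _ _).trans ((le_max_left _ _).trans hH)
  have hHA : A ≤ H := (le_max_right _ _).trans ((le_max_left _ _).trans hH)
  have hH7 : 7 ≤ H := (le_max_right _ _).trans hH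
  have hone : 1 ≤ H := by linarith
  have hH0 : 0 < H := by linarith
  intro z hz hjz hzH hzi G hG hdet lam hlam hlamH x hx0 hx1 hx2 hx3 K _ hK P hP0 hPd hPH
  have hHe : H ≤ H ^ (E + 1) := le_self_pow₀ hone (by omega)
  obtain ⟨Q, hQd, hQH, hQP, hQv⟩ := hN K hK P H hone hPd hPH
  -- the polynomial is not zero
  have hQ0 : Q ≠ 0 := by
    rintro rfl
    rw [map_zero] at hQP
    obtain ⟨σ, -, hσ⟩ := Finset.prod_eq_zero_iff.1 hQP.symm
    exact hP0 (MvPolynomial.map_injective _ (RingHom.injective (σ : K →+* ℂ)) (hσ.trans (map_zero _).symm))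
  have hQC : MvPolynomial.map (Int.castRingHom ℂ) Q ≠ 0 := by
    intro h
    exact hQ0 (MvPolynomial.map_injective _ (RingHom.injective_int _) (h.trans (map_zero _).symm))
  obtain ⟨u, hu⟩ : ∃ u : Option (Fin k × Fin 4) → ℂ, MvPolynomial.aeval u Q ≠ 0 := by
    by_contra hcon
    push Not at hcon
    apply hQC
    refine MvPolynomial.funext fun u => ?_
    rw [map_zero, MvPolynomial.eval_map]
    exact hcon u
  -- bounds for the numbers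
  have hxb : ∀ o : Option (Fin k × Fin 4), ‖(o.elim tpi x : ℂ)‖ ≤ H ^ 8 := by
    have h8 : H ≤ H ^ 8 := le_self_pow₀ hone (by norm_num)
    rintro (_ | ⟨j, i⟩)
    · show ‖tpi‖ ≤ _
      exact tpi_le.trans (hH7.trans h8)
    · obtain ⟨h1, h2⟩ := hH₁ (α j) H hH1 (hαT j) (hαR j) (z j) (hz j) (hjz j) (hzH j) (hzi j)
      show ‖x (j, i)‖ ≤ _
      fin_cases i
      · have h3 := (mob_bd (by linarith) (hz j) (hzH j) (hzi j) (hG j) (hdet j) (hx0 j)).2.2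
        exact h3.trans (pow_le_pow_right₀ hone (by norm_num))
      · show ‖x (j, 1)‖ ≤ _
        rw [hx1]
        exact h1
      · show ‖x (j, 2)‖ ≤ _
        rw [hx2]
        exact h2
      · show ‖x (j, 3)‖ ≤ _
        rw [hx3]
        exact (hlamH j).trans h8
  have h1 := hmj z hz hjz (fun j => (hzH j).trans hHe) (fun j => (hzi j).trans (mul_le_mul_of_nonneg_right hHe (hz j).le)) G
    (fun j i => (hG j i).trans hHe) hdet lam hlam (fun j => (hlamH j).trans hHe) x hx0 hx1 hx2 hx3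
    (MvPolynomial.rename rk Q) ((MvPolynomial.totalDegree_rename_le _ _).trans hQd)
    (fun e => (coeff_rename_le rk_inj Q hQH e).trans (by
      rw [pow_succ, mul_comm]
      exact mul_le_mul_of_nonneg_left hHA (by positivity)))
    ⟨fun v => u (some v), u none, by
      rw [MvPolynomial.aeval_rename, rk_comp]
      have h2 : (fun o : Option (Fin k × Fin 4) => (o.elim (u none) fun v => u (some v) : ℂ)) = u := by
        funext o
        rcases o with _ | v <;> rfl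
      rw [h2]
      exact hu⟩
  rw [MvPolynomial.aeval_rename, ← cv0, rk_comp] at h1
  have h2 := hQv (fun o => o.elim tpi x) (H ^ 8) (one_le_pow₀ hone) hxb
  have h3 : A * (H * H ^ 8) ^ E ≤ H ^ (9 * E + 1) := by
    rw [show H * H ^ 8 = H ^ 9 by ring, ← pow_mul, pow_succ, mul_comm]
    exact mul_le_mul_of_nonneg_left hHA (by positivity)
  refine h1.trans ?_
  rw [← pow_mul, pow_add, mul_assoc]
  refine mul_le_mul_of_nonneg_left ?_ (by positivity)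
  exact h2.trans (mul_le_mul_of_nonneg_right h3 (norm_nonneg _))

lemma House.mono {K : IntermediateField ℚ ℂ} {V : Type} {H H' : ℝ} (h : H ≤ H') {P : MvPolynomial V K} (hP : House K H P) :
    House K H' P := fun e => ⟨(hP e).1, fun σ => ((hP e).2 σ).trans h⟩

lemma MK.mono {d D B B' : ℕ} {α : Fin k → ℂ} {H H' : ℝ} (h1 : 1 ≤ H) (h2 : H ≤ H') (h3 : H' ≤ H ^ 2)
    (hB : 2 * B ≤ B') (hg : MK d D B α H') : MK d D B' α H := by
  intro z hz hjz hzH hzi G hG hdet lam hlam hlamH x hx0 hx1 hx2 hx3 K _ hK P hP0 hPd hPH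
  refine (hg z hz hjz (fun j => (hzH j).trans h2) (fun j => (hzi j).trans (mul_le_mul_of_nonneg_right h2 (hz j).le)) G
    (fun j i => (hG j i).trans h2) hdet lam hlam (fun j => (hlamH j).trans h2) x hx0 hx1 hx2 hx3 K hK P hP0 hPd
    (hPH.mono h2)).trans ?_
  refine mul_le_mul_of_nonneg_right ?_ (norm_nonneg _)
  refine le_trans ?_ (pow_le_pow_right₀ h1 hB)
  rw [pow_mul]
  exact pow_le_pow_left₀ (by linarith) h3 _

end Pool.Agent.Q189.JM
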