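import Pool.Agent.Q189.JM.Clk
import Pool.Agent.Q189.JM.Nrm

/-!
# Substitution of fractions in polynomials over number fields, with bounds for the conjugates
-/

set_option autoImplicit false

open NumberField Module Pool.Agent.Q246.NR Pool.Agent.Q246.NR2

namespace Pool.Agent.Q189.JM

/-- polynomials with integral coefficients -/
lemma exists_int_poly {V : Type} (K : IntermediateField ℚ ℂ) (P : MvPolynomial V K) (hP : ∀ e, IsIntegral ℤ (P.coeff e)) :
    ∃ P' : MvPolynomial V (𝓞 K), MvPolynomial.map (algebraMap (𝓞 K) K) P' = P := by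
  classical
  refine ⟨∑ e ∈ P.support, MvPolynomial.monomial e (⟨P.coeff e, hP e⟩ : 𝓞 K), ?_⟩
  conv_rhs => rw [P.as_sum]
  rw [map_sum]
  refine Finset.sum_congr rfl fun e _ => ?_
  rw [MvPolynomial.map_monomial]
  rfl

variable {β τ ρ : Type} [Fintype β] [Fintype τ] [DecidableEq β] [DecidableEq τ]

/-- the substitution of fractions with integral coefficients -/
theorem clr_house (K : IntermediateField ℚ ℂ) (δ : ℕ) (N M : β → MvPolynomial (ρ ⊕ τ) K)
    (hNi : ∀ b e, IsIntegral ℤ ((N b).coeff e)) (hMi : ∀ b e, IsIntegral ℤ ((M b).coeff e)) {Λ H : ℝ} (hΛ : 1 ≤ Λ)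
    (hN : ∀ (σ : K →ₐ[ℚ] ℂ) b, len (MvPolynomial.map (σ : K →+* ℂ) (N b)) ≤ Λ)
    (hM : ∀ (σ : K →ₐ[ℚ] ℂ) b, len (MvPolynomial.map (σ : K →+* ℂ) (M b)) ≤ Λ)
    (P : MvPolynomial (β ⊕ τ) K) (hP : House K H P) :
    House K (((δ : ℝ) + 1) ^ (Fintype.card β + Fintype.card τ) * (H * Λ ^ (δ * Fintype.card β))) (clr δ N M P) := by
  obtain ⟨P', hP'⟩ := exists_int_poly K P fun e => (hP e).1
  choose N' hN' using fun b => exists_int_poly K (N b) (hNi b)
  choose M' hM' using fun b => exists_int_poly K (M b) (hMi b)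
  refine fun e => ⟨?_, fun σ => ?_⟩
  · have h1 : clr δ N M P = MvPolynomial.map (algebraMap (𝓞 K) K) (clr δ N' M' P') := by
      rw [clr_map, hP']
      congr 1
      · funext b
        exact (hN' b).symm
      · funext b
        exact (hM' b).symm
    rw [h1, MvPolynomial.coeff_map]
    exact ((clr δ N' M' P').coeff e).2
  · have h1 : σ ((clr δ N M P).coeff e) = (MvPolynomial.map (σ : K →+* ℂ) (clr δ N M P)).coeff e := by
      rw [MvPolynomial.coeff_map]
      rfl
    rw [h1]
    refine (norm_coeff_le_len _ _).trans ?_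
    rw [clr_map]
    refine clr_len hΛ (hN σ) (hM σ) fun e => ?_
    rw [MvPolynomial.coeff_map]
    exact (hP e).2 σ

/-- renaming -/
lemma House.rename {K : IntermediateField ℚ ℂ} {V W : Type} {H : ℝ} {r : V → W} (hr : Function.Injective r)
    {P : MvPolynomial V K} (hP : House K H P) : House K H (MvPolynomial.rename r P) := by
  intro e
  by_cases he : ∃ e' : V →₀ ℕ, e'.mapDomain r = e
  · obtain ⟨e', rfl⟩ := he
    rw [MvPolynomial.coeff_rename_mapDomain r hr]
    exact hP e'
  · push Not at he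
    rw [MvPolynomial.coeff_rename_eq_zero r P e fun u hu => absurd hu (he u)]
    refine ⟨isIntegral_zero, fun σ => ?_⟩
    rw [map_zero, norm_zero]
    exact (norm_nonneg _).trans ((hP 0).2 σ)

end Pool.Agent.Q189.JM
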