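import Pool.Agent.Q189.JM.Num

/-!
# Points of the fibres with given numbers, with bounds
-/

set_option autoImplicit false

open PowerSeries Pool.Agent.Y120.J Pool.Agent.Y120.K Pool.Agent.Y120.A

namespace Pool.Agent.Q189.JM

lemma tpi_norm : ‖(tpi : ℂ)‖ = 2 * Real.pi := by
  have h : tpi = 2 * (Real.pi : ℂ) * Complex.I := rfl
  rw [h, norm_mul, norm_mul, Complex.norm_I, Complex.norm_real, Complex.norm_ofNat, mul_one, Real.norm_of_nonneg Real.pi_pos.le]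

lemma tpi_ge : 1 ≤ ‖(tpi : ℂ)‖ := by
  rw [tpi_norm]
  linarith [Real.pi_gt_three]

lemma tpi_le : ‖(tpi : ℂ)‖ ≤ 7 := by
  rw [tpi_norm]
  linarith [Real.pi_lt_d2]

lemma int_ge {m : ℤ} (h : m ≠ 0) : 1 ≤ ‖(m : ℂ)‖ := by
  rw [Complex.norm_intCast]
  exact_mod_cast Int.one_le_abs h

theorem exists_pt {Γ U T : ℝ} {t : ℂ} {D : Fin 7 → ℤ} {u : Fin 4 → ℤ} (hΓ : 1 ≤ Γ) (hU : 1 ≤ U) (hT : 1 ≤ T)
    (hD : ∀ i, |((D i : ℤ) : ℝ)| ≤ Γ) (hu : ∀ i, |((u i : ℤ) : ℝ)| ≤ U) (ht1 : 1 ≤ ‖t‖) (htT : ‖t‖ ≤ T) (hu1 : u 1 ≠ 0)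
    (hm : D 0 - D 2 * u 0 ≠ 0) (hm2 : (D 4 * D 3 - D 5 * D 2) * u 0 + (D 5 * D 0 - D 4 * D 1) ≠ 0)
    (hdet : D 0 * D 3 - D 1 * D 2 ≠ 0) :
    ∃ v : Option (Fin 4) → ℂ, (fun i => v (some i)) ∈ S2 ∧ (∀ o, ‖v o‖ ≤ (4 * Γ ^ 2 * U * T) ^ 24) ∧
      (∀ i, mvv D (Zw v) i * u i = nvv t D (Zw v) (v none) i) ∧ ∀ i, ((4 * Γ ^ 2 * U * T) ^ 9)⁻¹ ≤ ‖mvv D (Zw v) i‖ := by
  obtain ⟨K, hK⟩ : ∃ K : ℝ, K = 4 * Γ ^ 2 * U * T := ⟨_, rfl⟩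
  rw [← hK]
  have hΓ2 : 1 ≤ Γ ^ 2 := one_le_pow₀ hΓ
  have hΓΓ : Γ ≤ Γ ^ 2 := le_self_pow₀ hΓ (by norm_num)
  have hUT : 1 ≤ U * T := by nlinarith
  have hG2U : Γ ^ 2 * U * T ≥ 1 := by nlinarith
  have hK4 : 4 ≤ K := by rw [hK]; linarith
  have hK1 : 1 ≤ K := by linarith
  have hK0 : 0 < K := by linarith
  have hKm : 4 * Γ ^ 2 * U ≤ K := by
    rw [hK]
    exact le_mul_of_one_le_right (by positivity) hT
  have hKΓ : 4 * Γ ≤ K := by nlinarith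
  have hKU : U ≤ K := by nlinarith
  have hKT : T ≤ K := by
    rw [hK]
    have : 1 ≤ 4 * Γ ^ 2 * U := by nlinarith
    nlinarith
  have hKΓU : 2 * Γ * U ≤ K := by
    have : Γ * U ≤ Γ ^ 2 * U := mul_le_mul_of_nonneg_right hΓΓ (by linarith)
    linarith
  -- powers
  have pw : ∀ {a b : ℕ}, a ≤ b → K ^ a ≤ K ^ b := fun h => pow_le_pow_right₀ hK1 h
  -- the integers
  obtain ⟨m, hmd⟩ : ∃ m : ℂ, m = ((D 0 - D 2 * u 0 : ℤ) : ℂ) := ⟨_, rfl⟩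
  obtain ⟨μ', hμ'd⟩ : ∃ m : ℂ, m = (((D 4 * D 3 - D 5 * D 2) * u 0 + (D 5 * D 0 - D 4 * D 1) : ℤ) : ℂ) := ⟨_, rfl⟩
  obtain ⟨Δ, hΔd⟩ : ∃ m : ℂ, m = ((D 0 * D 3 - D 1 * D 2 : ℤ) : ℂ) := ⟨_, rfl⟩
  have hm1 : 1 ≤ ‖m‖ := by rw [hmd]; exact int_ge hm
  have hμ'1 : 1 ≤ ‖μ'‖ := by rw [hμ'd]; exact int_ge hm2
  have hΔ1 : 1 ≤ ‖Δ‖ := by rw [hΔd]; exact int_ge hdet
  have hm0 : m ≠ 0 := norm_pos_iff.1 (by linarith)
  have hμ'0 : μ' ≠ 0 := norm_pos_iff.1 (by linarith)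
  have hΔ0 : Δ ≠ 0 := norm_pos_iff.1 (by linarith)
  have ht0 : t ≠ 0 := norm_pos_iff.1 (by linarith)
  have hcD : ∀ i, ‖((D i : ℤ) : ℂ)‖ ≤ Γ := fun i => by rw [Complex.norm_intCast]; exact hD i
  have hcu : ∀ i, ‖((u i : ℤ) : ℂ)‖ ≤ U := fun i => by rw [Complex.norm_intCast]; exact hu i
  have hDD : ∀ i j, ‖((D i : ℤ) : ℂ) * ((D j : ℤ) : ℂ)‖ ≤ Γ ^ 2 := fun i j => by
    rw [norm_mul, pow_two]
    exact mul_le_mul (hcD i) (hcD j) (norm_nonneg _) (by linarith)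
  have hDu : ∀ i j, ‖((D i : ℤ) : ℂ) * ((u j : ℤ) : ℂ)‖ ≤ Γ * U := fun i j => by
    rw [norm_mul]
    exact mul_le_mul (hcD i) (hcu j) (norm_nonneg _) (by linarith)
  have hΓU : Γ ≤ Γ * U := le_mul_of_one_le_right (by linarith) hU
  have hmK : ‖m‖ ≤ K := by
    rw [hmd]
    push_cast
    refine (norm_sub_le _ _).trans ?_
    have := hcD 0
    have := hDu 2 0
    linarith
  have hμ'K : ‖μ'‖ ≤ K := by
    rw [hμ'd]
    push_cast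
    refine (norm_add_le _ _).trans ?_
    have h1 : ‖((D 4 : ℂ) * (D 3 : ℂ) - (D 5 : ℂ) * (D 2 : ℂ)) * (u 0 : ℂ)‖ ≤ (Γ ^ 2 + Γ ^ 2) * U := by
      rw [norm_mul]
      exact mul_le_mul ((norm_sub_le _ _).trans (add_le_add (hDD 4 3) (hDD 5 2))) (hcu 0) (norm_nonneg _) (by positivity)
    have h2 : ‖(D 5 : ℂ) * (D 0 : ℂ) - (D 4 : ℂ) * (D 1 : ℂ)‖ ≤ Γ ^ 2 + Γ ^ 2 :=
      (norm_sub_le _ _).trans (add_le_add (hDD 5 0) (hDD 4 1))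
    have h3 : Γ ^ 2 ≤ Γ ^ 2 * U := le_mul_of_one_le_right (by positivity) hU
    linarith
  have htK : ‖t‖ ≤ K := htT.trans hKT
  -- the functions
  obtain ⟨Z0, hZ0⟩ : ∃ Z0 : ℂ, Z0 = -(u 1 : ℂ) * m ^ 2 / (t * μ' ^ 2) := ⟨_, rfl⟩
  have hu1C : (u 1 : ℂ) ≠ 0 := by exact_mod_cast hu1
  have hu11 : 1 ≤ ‖(u 1 : ℂ)‖ := int_ge hu1
  have hZ00 : Z0 ≠ 0 := by
    rw [hZ0]
    exact div_ne_zero (mul_ne_zero (neg_ne_zero.2 hu1C) (pow_ne_zero _ hm0)) (mul_ne_zero ht0 (pow_ne_zero _ hμ'0))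
  have hden : 1 ≤ ‖t * μ' ^ 2‖ := by
    rw [norm_mul, norm_pow]
    have : 1 ≤ ‖μ'‖ ^ 2 := one_le_pow₀ hμ'1
    nlinarith
  have hZ0K : ‖Z0‖ ≤ K ^ 3 := by
    rw [hZ0, norm_div, div_le_iff₀ (by linarith), norm_mul, norm_neg, norm_pow]
    have h1 : ‖(u 1 : ℂ)‖ * ‖m‖ ^ 2 ≤ K * K ^ 2 :=
      mul_le_mul ((hcu 1).trans hKU) (pow_le_pow_left₀ (norm_nonneg _) hmK 2) (by positivity) hK0.le
    calc _ ≤ K * K ^ 2 := h1
      _ = K ^ 3 * 1 := by ring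
      _ ≤ _ := mul_le_mul_of_nonneg_left hden (by positivity)
  have hZ0i : (K ^ 3)⁻¹ ≤ ‖Z0‖ := by
    have hnum : ‖-(u 1 : ℂ) * m ^ 2‖ = ‖(u 1 : ℂ)‖ * ‖m‖ ^ 2 := by rw [norm_mul, norm_neg, norm_pow]
    have hdn : ‖t * μ' ^ 2‖ = ‖t‖ * ‖μ'‖ ^ 2 := by rw [norm_mul, norm_pow]
    rw [hZ0, norm_div, le_div_iff₀ (by linarith), hnum, hdn, inv_mul_le_iff₀ (by positivity)]
    have h1 : ‖t‖ * ‖μ'‖ ^ 2 ≤ K * K ^ 2 :=
      mul_le_mul htK (pow_le_pow_left₀ (norm_nonneg _) hμ'K 2) (by positivity) hK0.le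
    have h2 : 1 ≤ ‖m‖ ^ 2 := one_le_pow₀ hm1
    have h3 : 1 ≤ ‖(u 1 : ℂ)‖ * ‖m‖ ^ 2 := by nlinarith
    calc _ ≤ K * K ^ 2 := h1
      _ = K ^ 3 * 1 := by ring
      _ ≤ _ := mul_le_mul_of_nonneg_left h3 (by positivity)
  obtain ⟨x, hx⟩ : ∃ x : ℂ, x = (D 3 * u 0 - D 1) / m := ⟨_, rfl⟩
  have hxK : ‖x‖ ≤ K := by
    rw [hx, norm_div, div_le_iff₀ (by linarith)]
    have h1 : ‖(D 3 : ℂ) * (u 0 : ℂ) - (D 1 : ℂ)‖ ≤ Γ * U + Γ := (norm_sub_le _ _).trans (add_le_add (hDu 3 0) (hcD 1))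
    calc _ ≤ K * 1 := by linarith
      _ ≤ _ := mul_le_mul_of_nonneg_left hm1 hK0.le
  obtain ⟨Z1, hZ1⟩ : ∃ Z1 : ℂ, Z1 = x * Z0 := ⟨_, rfl⟩
  have hZ1K : ‖Z1‖ ≤ K ^ 4 := by
    rw [hZ1, norm_mul]
    calc _ ≤ K * K ^ 3 := mul_le_mul hxK hZ0K (norm_nonneg _) hK0.le
      _ = _ := by ring
  obtain ⟨μ, hμ⟩ : ∃ μ : ℂ, μ = μ' / m := ⟨_, rfl⟩
  have hμ0 : μ ≠ 0 := by rw [hμ]; exact div_ne_zero hμ'0 hm0
  have hμi : ‖μ⁻¹‖ ≤ K := by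
    rw [hμ, inv_div, norm_div, div_le_iff₀ (by linarith)]
    nlinarith
  have hZi : ‖Z0⁻¹‖ ≤ K ^ 3 := by
    rw [norm_inv]
    exact inv_le_of_inv_le₀ (by positivity) hZ0i
  have hti : ‖t⁻¹‖ ≤ 1 := by
    rw [norm_inv]
    exact inv_le_one_of_one_le₀ ht1
  obtain ⟨A, hA⟩ : ∃ A : ℂ, A = u 2 * (t⁻¹ * μ⁻¹ ^ 3) + 2 * D 4 * Z0 := ⟨_, rfl⟩
  have hAK : ‖A‖ ≤ K ^ 5 := by
    have h1 : ‖(u 2 : ℂ) * (t⁻¹ * μ⁻¹ ^ 3)‖ ≤ K * (1 * K ^ 3) := by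
      rw [norm_mul, norm_mul, norm_pow]
      exact mul_le_mul ((hcu 2).trans hKU) (mul_le_mul hti (pow_le_pow_left₀ (norm_nonneg _) hμi 3) (by positivity) zero_le_one)
        (by positivity) hK0.le
    have h2 : ‖2 * (D 4 : ℂ) * Z0‖ ≤ K * K ^ 3 := by
      rw [norm_mul, norm_mul, Complex.norm_ofNat]
      refine mul_le_mul ?_ hZ0K (norm_nonneg _) hK0.le
      have := hcD 4
      linarith
    calc ‖A‖ ≤ K * (1 * K ^ 3) + K * K ^ 3 := by rw [hA]; exact (norm_add_le _ _).trans (add_le_add h1 h2)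
      _ = 2 * K ^ 4 := by ring
      _ ≤ K * K ^ 4 := mul_le_mul_of_nonneg_right (by linarith) (by positivity)
      _ = _ := by ring
  obtain ⟨Z2, hZ2⟩ : ∃ Z2 : ℂ, Z2 = (Z0 - A * (μ⁻¹ * Z0⁻¹)) / 2 := ⟨_, rfl⟩
  have hZ2K : ‖Z2‖ ≤ K ^ 9 := by
    have h1 : ‖A * (μ⁻¹ * Z0⁻¹)‖ ≤ K ^ 5 * (K * K ^ 3) := by
      rw [norm_mul, norm_mul]
      exact mul_le_mul hAK (mul_le_mul hμi hZi (norm_nonneg _) hK0.le) (by positivity) (by positivity)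
    have h2 : K ^ 3 ≤ K ^ 9 := pw (by norm_num)
    rw [hZ2, norm_div, Complex.norm_ofNat, div_le_iff₀ (by norm_num)]
    refine (norm_sub_le _ _).trans ?_
    have h3 : K ^ 5 * (K * K ^ 3) = K ^ 9 := by ring
    rw [h3] at h1
    linarith
  have ht := Pool.Agent.Y120.K.tpi_ne
  obtain ⟨r, hr⟩ := IsAlgClosed.exists_pow_nat_eq (Z0 / tpi) (show 0 < 2 by norm_num)
  have hr0 : r ≠ 0 := by
    intro h
    rw [h] at hr
    have h1 : Z0 / tpi ≠ 0 := div_ne_zero hZ00 ht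
    exact h1 (by rw [← hr]; ring)
  have hr' : tpi * r ^ 2 = Z0 := by
    rw [hr]
    field_simp
  have hrn : ‖tpi‖ * ‖r‖ ^ 2 = ‖Z0‖ := by rw [← hr', norm_mul, norm_pow]
  have hrK : ‖r‖ ≤ K ^ 2 := by
    have h1 : ‖r‖ ^ 2 ≤ (K ^ 2) ^ 2 := by
      have h2 : ‖r‖ ^ 2 ≤ ‖Z0‖ := by
        rw [← hrn]
        exact le_mul_of_one_le_left (by positivity) tpi_ge
      calc _ ≤ K ^ 3 := h2.trans hZ0K
        _ ≤ K ^ 4 := pw (by norm_num)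
        _ = _ := by ring
    exact (pow_le_pow_iff_left₀ (norm_nonneg _) (by positivity) (by norm_num)).1 h1
  have hri : ‖r⁻¹‖ ≤ K ^ 3 := by
    have h1 : ‖r⁻¹‖ ^ 2 ≤ (K ^ 3) ^ 2 := by
      have h2 : ‖r⁻¹‖ ^ 2 = ‖tpi‖ * ‖Z0⁻¹‖ := by
        rw [norm_inv, norm_inv, ← hrn, mul_inv, inv_pow, ← mul_assoc, mul_inv_cancel₀ (by linarith [tpi_ge]), one_mul]
      rw [h2]
      calc ‖tpi‖ * ‖Z0⁻¹‖ ≤ K ^ 2 * K ^ 3 := by
            refine mul_le_mul ?_ hZi (norm_nonneg _) (by positivity)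
            have := tpi_le
            nlinarith
        _ = K ^ 5 := by ring
        _ ≤ K ^ 6 := pw (by norm_num)
        _ = _ := by ring
    exact (pow_le_pow_iff_left₀ (norm_nonneg _) (by positivity) (by norm_num)).1 h1
  obtain ⟨l, hl⟩ : ∃ l : ℂ, l = u 3 - D 6 * tpi := ⟨_, rfl⟩
  have hlK : ‖l‖ ≤ K ^ 3 := by
    rw [hl]
    have h1 : ‖(D 6 : ℂ) * tpi‖ ≤ Γ * 7 := by
      rw [norm_mul]
      exact mul_le_mul (hcD 6) tpi_le (norm_nonneg _) (by linarith)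
    have h2 := hcu 3
    have h3 : K ^ 3 = K * K * K := by ring
    have h4 : 4 * K ≤ K * K := by nlinarith
    have h5 : 16 * K ≤ K * K * K := by nlinarith
    calc _ ≤ U + Γ * 7 := (norm_sub_le _ _).trans (add_le_add h2 h1)
      _ ≤ _ := by rw [h3]; linarith
  obtain ⟨v1, hv1⟩ : ∃ v1 : ℂ, v1 = Z1 * r⁻¹ + l * r := ⟨_, rfl⟩
  have hv1K : ‖v1‖ ≤ K ^ 8 := by
    have h1 : ‖Z1 * r⁻¹‖ ≤ K ^ 4 * K ^ 3 := by
      rw [norm_mul]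
      exact mul_le_mul hZ1K hri (norm_nonneg _) (by positivity)
    have h2 : ‖l * r‖ ≤ K ^ 3 * K ^ 2 := by
      rw [norm_mul]
      exact mul_le_mul hlK hrK (norm_nonneg _) (by positivity)
    have h3 : K ^ 3 * K ^ 2 ≤ K ^ 4 * K ^ 3 := by
      rw [← pow_add, ← pow_add]
      exact pw (by norm_num)
    calc _ ≤ K ^ 4 * K ^ 3 + K ^ 4 * K ^ 3 := by rw [hv1]; exact (norm_add_le _ _).trans (add_le_add h1 (h2.trans h3))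
      _ = 2 * K ^ 7 := by ring
      _ ≤ K * K ^ 7 := mul_le_mul_of_nonneg_right (by linarith) (by positivity)
      _ = _ := by ring
  obtain ⟨v2, hv2⟩ : ∃ v2 : ℂ, v2 = Z2 * (tpi⁻¹ * r⁻¹) := ⟨_, rfl⟩
  have htpii : ‖(tpi : ℂ)⁻¹‖ ≤ 1 := by
    rw [norm_inv]
    exact inv_le_one_of_one_le₀ tpi_ge
  have hv2K : ‖v2‖ ≤ K ^ 12 := by
    rw [hv2, norm_mul, norm_mul]
    calc _ ≤ K ^ 9 * (1 * K ^ 3) := mul_le_mul hZ2K (mul_le_mul htpii hri (norm_nonneg _) zero_le_one) (by positivity) (by positivity)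
      _ = _ := by ring
  obtain ⟨v3, hv3⟩ : ∃ v3 : ℂ, v3 = (1 + v2 * v1) * r⁻¹ := ⟨_, rfl⟩
  have hv3K : ‖v3‖ ≤ K ^ 24 := by
    rw [hv3, norm_mul]
    have h1 : ‖1 + v2 * v1‖ ≤ 2 * K ^ 20 := by
      refine (norm_add_le _ _).trans ?_
      rw [norm_one, norm_mul]
      have h2 : ‖v2‖ * ‖v1‖ ≤ K ^ 12 * K ^ 8 := mul_le_mul hv2K hv1K (norm_nonneg _) (by positivity)
      have h3 : (1 : ℝ) ≤ K ^ 20 := one_le_pow₀ hK1
      have h4 : K ^ 12 * K ^ 8 = K ^ 20 := by ring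
      linarith
    calc _ ≤ 2 * K ^ 20 * K ^ 3 := mul_le_mul h1 hri (norm_nonneg _) (by positivity)
      _ = 2 * K ^ 23 := by ring
      _ ≤ K * K ^ 23 := mul_le_mul_of_nonneg_right (by linarith) (by positivity)
      _ = _ := by ring
  obtain ⟨v, hv⟩ : ∃ v : Option (Fin 4) → ℂ, v = fun o => o.elim l ![r, v1, v2, v3] := ⟨_, rfl⟩
  have e0 : v none = l := by rw [hv]; rfl
  have e1 : v (some 0) = r := by rw [hv]; rfl
  have e2 : v (some 1) = v1 := by rw [hv]; rfl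
  have e3 : v (some 2) = v2 := by rw [hv]; rfl
  have e4 : v (some 3) = v3 := by rw [hv]; rfl
  have hZw0 : Zw v 0 = Z0 := by
    show tpi * v (some 0) ^ 2 = Z0
    rw [e1, hr']
  have hZw1 : Zw v 1 = Z1 := by
    show v (some 0) * (v (some 1) - v none * v (some 0)) = Z1
    rw [e0, e1, e2, hv1]
    field_simp
    ring
  have hZw2 : Zw v 2 = Z2 := by
    show tpi * (v (some 0) * v (some 2)) = Z2
    rw [e1, e3, hv2]
    field_simp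
  -- the linear forms
  have hL : (D 4 : ℂ) * Z1 + D 5 * Z0 = μ * Z0 := by
    rw [hZ1, hx, hμ, hμ'd]
    push_cast
    field_simp
    rw [hmd]
    push_cast
    ring
  have hL2 : (D 2 : ℂ) * Z1 + D 3 * Z0 = Δ / m * Z0 := by
    rw [hZ1, hx, hΔd]
    push_cast
    field_simp
    rw [hmd]
    push_cast
    ring
  refine ⟨v, ?_, ?_, ?_, ?_⟩
  · show v (some 0) * v (some 3) - v (some 2) * v (some 1) = 1
    rw [e1, e2, e3, e4, hv3]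
    field_simp
    ring
  · intro o
    rcases o with _ | i
    · rw [e0]
      exact hlK.trans (pw (by norm_num))
    · fin_cases i
      · show ‖v (some 0)‖ ≤ _
        rw [e1]
        exact hrK.trans (pw (by norm_num))
      · show ‖v (some 1)‖ ≤ _
        rw [e2]
        exact hv1K.trans (pw (by norm_num))
      · show ‖v (some 2)‖ ≤ _
        rw [e3]
        exact hv2K.trans (pw (by norm_num))
      · show ‖v (some 3)‖ ≤ _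
        rw [e4]
        exact hv3K
  · intro i
    fin_cases i
    · show ((D 2 : ℂ) * Zw v 1 + D 3 * Zw v 0) * u 0 = D 0 * Zw v 1 + D 1 * Zw v 0
      rw [hZw0, hZw1, hL2, hZ1, hx, hΔd]
      push_cast
      field_simp
      rw [hmd]
      push_cast
      ring
    · show Zw v 0 * u 1 = -t * (D 4 * Zw v 1 + D 5 * Zw v 0) ^ 2
      rw [hZw0, hZw1, hL, hμ]
      have h1 : -(u 1 : ℂ) * m ^ 2 = t * μ' ^ 2 * Z0 := by
        rw [hZ0]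
        field_simp
      field_simp
      linear_combination (-1 : ℂ) * h1
    · show Zw v 0 ^ 3 * u 2 = t * (D 4 * Zw v 1 + D 5 * Zw v 0) ^ 3 * ((D 4 * Zw v 1 + D 5 * Zw v 0) * (Zw v 0 - 2 * Zw v 2) -
        2 * D 4 * Zw v 0)
      rw [hZw0, hZw1, hZw2, hL]
      have h2 : μ * Z0 * (Z0 - 2 * Z2) = A := by
        rw [hZ2]
        field_simp
        ring
      have h5 : A - 2 * D 4 * Z0 = u 2 * (t⁻¹ * μ⁻¹ ^ 3) := by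
        rw [hA]
        ring
      rw [h2, h5]
      field_simp
    · show 1 * (u 3 : ℂ) = v none + D 6 * tpi
      rw [e0, hl]
      ring
  · intro i
    have h9 : ∀ {a : ℕ}, a ≤ 9 → (K ^ 9)⁻¹ ≤ (K ^ a)⁻¹ := fun h => inv_anti₀ (by positivity) (pw h)
    fin_cases i
    · show _ ≤ ‖(D 2 : ℂ) * Zw v 1 + D 3 * Zw v 0‖
      rw [hZw0, hZw1, hL2, norm_mul, norm_div]
      refine (h9 (a := 4) (by norm_num)).trans ?_
      have h1 : K⁻¹ ≤ ‖Δ‖ / ‖m‖ := by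
        rw [inv_eq_one_div]
        exact div_le_div₀ (by linarith) hΔ1 (by linarith) hmK
      calc (K ^ 4)⁻¹ = K⁻¹ * (K ^ 3)⁻¹ := by rw [← mul_inv]; congr 1; ring
        _ ≤ _ := mul_le_mul h1 hZ0i (by positivity) (by positivity)
    · show _ ≤ ‖Zw v 0‖
      rw [hZw0]
      exact (h9 (by norm_num)).trans hZ0i
    · show _ ≤ ‖Zw v 0 ^ 3‖
      rw [hZw0, norm_pow]
      calc (K ^ 9)⁻¹ = ((K ^ 3)⁻¹) ^ 3 := by rw [inv_pow]; congr 1; ring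
        _ ≤ _ := pow_le_pow_left₀ (by positivity) hZ0i 3
    · show _ ≤ ‖(1 : ℂ)‖
      rw [norm_one]
      exact inv_le_one_of_one_le₀ (one_le_pow₀ hK1)

end Pool.Agent.Q189.JM
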