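import Pool.Agent.Q189.JM.Fin
import Pool.Agent.Q189.HC.Mes

/-!
# The numbers `z`, `j(z)`, `j'(z)`, `j''(z)`: measure and transfer
-/

set_option autoImplicit false

open PowerSeries Pool.Agent.Y120.J Pool.Agent.Y120.K Pool.Agent.Y120.A
open Pool.Agent.Q246.NR Pool.Agent.Q246.NR2 Pool.Agent.Q189.MF Pool.Agent.Y916.Sl
open Pool.Agent.TH21.MS (jj)
open Pool.Agent.Q189.HC (coeff_rename_le)

namespace Pool.Agent.Q189.JM

variable {k g : ℕ}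

/-- the four numbers -/
noncomputable def n4 (z : ℂ) : Fin 4 → ℂ := ![z, jj z, deriv jj z, deriv (deriv jj) z]

/-- the property -/
def Gd1 (d B : ℕ) (ζ : Fin g → ℂ) (α : Fin k → ℂ) (H : ℝ) : Prop :=
  ∀ z : Fin k → ℂ, (∀ j, 0 < (z j).im ∧ jj (z j) = α j ∧ ‖z j‖ ≤ H ∧ 1 ≤ H * (z j).im) →
    (∀ P : MvPolynomial (Fin k × Fin 4) ℤ, P.totalDegree ≤ d → (∀ e, |((P.coeff e : ℤ) : ℝ)| ≤ H) →
      (∃ w : Fin k × Fin 4 → ℂ, (∀ j, w (j, 1) = α j) ∧ MvPolynomial.aeval w P ≠ 0) →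
      1 ≤ H ^ B * ‖MvPolynomial.aeval (fun v : Fin k × Fin 4 => n4 (z v.1) v.2) P‖) ∧
    ∀ P : MvPolynomial ((Fin k × Fin 4) ⊕ Fin g) ℤ, P.totalDegree ≤ d → (∀ e, |((P.coeff e : ℤ) : ℝ)| ≤ H) →
      ∀ w : Fin k × Fin 4 → ℂ, (∀ j, w (j, 1) = α j) →
        ‖MvPolynomial.aeval (Sum.elim w ζ) P‖ ≤
          (H * max 1 ‖w‖) ^ B * ‖MvPolynomial.aeval (Sum.elim (fun v : Fin k × Fin 4 => n4 (z v.1) v.2) ζ) P‖

/-- the renaming of the variables -/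
def ro (g : ℕ) : (Fin k × Fin 4) → (Fin k × Fin 4) ⊕ Cs g k :=
  fun v => (![Sum.inl (v.1, 0), Sum.inr (Sum.inr v.1), Sum.inl (v.1, 1), Sum.inl (v.1, 2)] : Fin 4 → (Fin k × Fin 4) ⊕ Cs g k) v.2

lemma ro_inj : Function.Injective (ro (k := k) g) := by
  rintro ⟨i, a⟩ ⟨j, b⟩ h
  fin_cases a <;> fin_cases b <;> simp [ro] at h ⊢ <;> exact h

/-- the renaming with constants -/
def rc : (Fin k × Fin 4) ⊕ Fin g → (Fin k × Fin 4) ⊕ Cs g k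
  | Sum.inl v => ro g v
  | Sum.inr s => Sum.inr (Sum.inl s.succ)

lemma rc_inj : Function.Injective (rc (k := k) (g := g)) := by
  rintro (⟨i, a⟩ | s) (⟨j, b⟩ | t) h
  · exact congrArg Sum.inl (ro_inj h)
  · exfalso
    fin_cases a <;> simp [rc, ro] at h
  · exfalso
    fin_cases b <;> simp [rc, ro] at h
  · simp only [rc, Sum.inr.injEq, Sum.inl.injEq, Fin.succ_inj] at h
    rw [h]

/-- the point in the other coordinates -/
noncomputable def w3 (w : Fin k × Fin 4 → ℂ) (lam : Fin k → ℂ) : Fin k × Fin 4 → ℂ :=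
  fun v => (![w (v.1, 0), w (v.1, 2), w (v.1, 3), lam v.1] : Fin 4 → ℂ) v.2

lemma w3_norm (w : Fin k × Fin 4 → ℂ) : ‖w3 w fun _ => 0‖ ≤ ‖w‖ := by
  refine (pi_norm_le_iff_of_nonneg (norm_nonneg _)).2 ?_
  rintro ⟨j, i⟩
  fin_cases i
  · exact norm_le_pi_norm w (j, 0)
  · exact norm_le_pi_norm w (j, 2)
  · exact norm_le_pi_norm w (j, 3)
  · show ‖(0 : ℂ)‖ ≤ _
    rw [norm_zero]
    exact norm_nonneg _

lemma ro_comp {w : Fin k × Fin 4 → ℂ} {α : Fin k → ℂ} (hw : ∀ j, w (j, 1) = α j) (lam : Fin k → ℂ) (c : Fin (g + 1) → ℂ) :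
    (Sum.elim (w3 w lam) (Sum.elim c α)) ∘ ro g = w := by
  funext v
  obtain ⟨j, i⟩ := v
  fin_cases i
  · rfl
  · exact (hw j).symm
  · rfl
  · rfl

lemma rc_comp {w : Fin k × Fin 4 → ℂ} {α : Fin k → ℂ} (hw : ∀ j, w (j, 1) = α j) (lam : Fin k → ℂ) (ζ : Fin g → ℂ) :
    (Sum.elim (w3 w lam) (cv ζ α)) ∘ rc = Sum.elim w ζ := by
  funext v
  rcases v with v | s
  · exact congrFun (ro_comp hw lam (Fin.cons tpi ζ : Fin (g + 1) → ℂ)) v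
  · show (Fin.cons tpi ζ : Fin (g + 1) → ℂ) s.succ = ζ s
    rw [Fin.cons_succ]

lemma log_le {α : ℂ} {T H : ℝ} (h1 : 1 ≤ ‖α‖) (hT : ‖α‖ ≤ T) (hH : Real.log T + 4 ≤ H) : ‖Complex.log α‖ ≤ H := by
  refine (Complex.norm_le_abs_re_add_abs_im _).trans ?_
  rw [Complex.log_re, Complex.log_im, abs_of_nonneg (Real.log_nonneg h1)]
  have h2 := Real.log_le_log (by linarith) hT
  have h3 := Complex.abs_arg_le_pi α
  have h4 := Real.pi_le_four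
  linarith

/-- the identity matrices -/
def gI : Fin k → Fin 4 → ℤ := fun _ => ![1, 0, 0, 1]

lemma gI_le {H : ℝ} (hH : 1 ≤ H) (j : Fin k) (i : Fin 4) : |((gI (k := k) j i : ℤ) : ℝ)| ≤ H := by
  unfold gI
  fin_cases i <;> simp <;> linarith

/-- forgetting the constants -/
def rz (g : ℕ) : (Fin k × Fin 4) ⊕ Cs 0 k → (Fin k × Fin 4) ⊕ Cs g k
  | Sum.inl v => Sum.inl v
  | Sum.inr (Sum.inl _) => Sum.inr (Sum.inl 0)
  | Sum.inr (Sum.inr j) => Sum.inr (Sum.inr j)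

lemma rz_inj : Function.Injective (rz (k := k) g) := by
  rintro (v | i | j) (v' | i' | j') h
  · simpa [rz] using h
  · simp [rz] at h
  · simp [rz] at h
  · simp [rz] at h
  · congr 2
    exact Fin.ext (by have := i.2; have := i'.2; omega)
  · simp [rz] at h
  · simp [rz] at h
  · simp [rz] at h
  · simpa [rz] using h

lemma rz_comp (w : Fin k × Fin 4 → ℂ) (α : Fin k → ℂ) (ζ : Fin g → ℂ) (ζ₀ : Fin 0 → ℂ) :
    (Sum.elim w (cv ζ α)) ∘ rz g = Sum.elim w (cv ζ₀ α) := by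
  funext v
  rcases v with v | i | j
  · rfl
  · have h1 : i = 0 := Fin.ext (by have := i.2; simp only [Fin.val_zero]; omega)
    rw [h1]
    rfl
  · rfl

lemma NJ.zero {d B : ℕ} {ζ : Fin g → ℂ} {α : Fin k → ℂ} {H : ℝ} (h : NJ d B ζ α H) (ζ₀ : Fin 0 → ℂ) : NJ d B ζ₀ α H := by
  intro z hz hjz hzH hzi G hG hdet lam hlam hlamH x hx0 hx1 hx2 hx3 P hPd hPH w
  have h1 := h z hz hjz hzH hzi G hG hdet lam hlam hlamH x hx0 hx1 hx2 hx3 (MvPolynomial.rename (rz g) P)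
    ((MvPolynomial.totalDegree_rename_le _ _).trans hPd) (coeff_rename_le rz_inj P hPH) w
  rw [MvPolynomial.aeval_rename, MvPolynomial.aeval_rename, rz_comp w α ζ ζ₀, rz_comp x α ζ ζ₀] at h1
  exact h1

/-- from the transfer and the measure -/
theorem gd1_of {d B₁ B₂ B : ℕ} {T : ℝ} {ζ : Fin g → ℂ} {α : Fin k → ℂ} {H : ℝ} (hH1 : 1 ≤ H) (hHT : Real.log T + 4 ≤ H)
    (hα1 : ∀ j, 1 ≤ ‖α j‖) (hαT : ∀ j, ‖α j‖ ≤ T) (hB₁ : B₁ ≤ B) (hB₂ : B₂ ≤ B) (h1 : NJ d B₁ ζ α H) (h2 : MJ d B₂ α H) :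
    Gd1 d B ζ α H := by
  intro z hz
  have hlam : ∀ j, Complex.exp (Complex.log (α j)) = α j := fun j => Complex.exp_log (norm_pos_iff.1 (by linarith [hα1 j]))
  set nz : Fin k × Fin 4 → ℂ := fun v => n4 (z v.1) v.2 with hnz
  have hnw : ∀ j, nz (j, 1) = α j := fun j => (hz j).2.1
  set lam : Fin k → ℂ := fun j => Complex.log (α j) with hlamd
  have hlamH : ∀ j, ‖lam j‖ ≤ H := fun j => log_le (hα1 j) (hαT j) hHT
  have hdet : ∀ j, gI (k := k) j 0 * gI (k := k) j 3 - gI (k := k) j 1 * gI (k := k) j 2 ≠ 0 := fun j => by simp [gI]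
  have hx0 : ∀ j, ((gI (k := k) j 2 : ℂ) * z j + gI (k := k) j 3) * w3 nz lam (j, 0) = gI (k := k) j 0 * z j + gI (k := k) j 1 := by
    intro j
    have : w3 nz lam (j, 0) = z j := rfl
    rw [this]
    simp [gI]
  refine ⟨fun P hPd hPH hw => ?_, fun P hPd hPH w hw => ?_⟩
  · have h3 := h2 z (fun j => (hz j).1) (fun j => (hz j).2.1) (fun j => (hz j).2.2.1) (fun j => (hz j).2.2.2) gI (gI_le hH1) hdet
      lam hlam hlamH (w3 nz lam) hx0 (fun _ => rfl) (fun _ => rfl) (fun _ => rfl) (MvPolynomial.rename (ro 0) P)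
      ((MvPolynomial.totalDegree_rename_le _ _).trans hPd) (coeff_rename_le ro_inj P hPH) (by
        obtain ⟨w, hw1, hw2⟩ := hw
        refine ⟨w3 w fun _ => 0, 0, ?_⟩
        rw [MvPolynomial.aeval_rename, ro_comp hw1]
        exact hw2)
    rw [MvPolynomial.aeval_rename] at h3
    have h4 := ro_comp (g := 0) hnw lam (Fin.cons tpi (fun i => i.elim0) : Fin (0 + 1) → ℂ)
    unfold cv at h3
    rw [h4] at h3
    exact h3.trans (mul_le_mul_of_nonneg_right (pow_le_pow_right₀ hH1 hB₂) (norm_nonneg _))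
  · have h3 := h1 z (fun j => (hz j).1) (fun j => (hz j).2.1) (fun j => (hz j).2.2.1) (fun j => (hz j).2.2.2) gI (gI_le hH1) hdet
      lam hlam hlamH (w3 nz lam) hx0 (fun _ => rfl) (fun _ => rfl) (fun _ => rfl) (MvPolynomial.rename rc P)
      ((MvPolynomial.totalDegree_rename_le _ _).trans hPd) (coeff_rename_le rc_inj P hPH) (w3 w fun _ => 0)
    rw [MvPolynomial.aeval_rename, MvPolynomial.aeval_rename, rc_comp hw, rc_comp hnw] at h3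
    have hM : max 1 ‖w3 w fun _ => 0‖ ≤ max 1 ‖w‖ := max_le_max_left _ (w3_norm w)
    have hM1 : 1 ≤ H * max 1 ‖w‖ := by
      have := le_max_left 1 ‖w‖
      nlinarith
    refine h3.trans (mul_le_mul_of_nonneg_right ?_ (norm_nonneg _))
    refine (pow_le_pow_left₀ (by positivity) (mul_le_mul_of_nonneg_left hM (by linarith)) _).trans (pow_le_pow_right₀ hM1 hB₁)

lemma Gd1.mono {d B : ℕ} {ζ : Fin g → ℂ} {α : Fin k → ℂ} {H H' : ℝ} (h1 : 1 ≤ H) (h2 : H ≤ H') (h3 : H' ≤ H ^ 2)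
    (hg : Gd1 d B ζ α H') : Gd1 d (2 * B) ζ α H := by
  intro z hz
  obtain ⟨g1, g2⟩ := hg z fun j => ⟨(hz j).1, (hz j).2.1, (hz j).2.2.1.trans h2,
    (hz j).2.2.2.trans (mul_le_mul_of_nonneg_right h2 (hz j).1.le)⟩
  refine ⟨fun P hd hH hy => ?_, fun P hd hH w hw => ?_⟩
  · refine (g1 P hd (fun e => (hH e).trans h2) hy).trans ?_
    refine mul_le_mul_of_nonneg_right ?_ (norm_nonneg _)
    rw [pow_mul]
    exact pow_le_pow_left₀ (by linarith) h3 _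
  · refine (g2 P hd (fun e => (hH e).trans h2) w hw).trans ?_
    refine mul_le_mul_of_nonneg_right ?_ (norm_nonneg _)
    rw [pow_mul]
    have h4 : 1 ≤ max 1 ‖w‖ := le_max_left _ _
    refine pow_le_pow_left₀ (mul_nonneg (by linarith) (by positivity)) ?_ _
    calc H' * max 1 ‖w‖ ≤ H ^ 2 * max 1 ‖w‖ := mul_le_mul_of_nonneg_right h3 (by positivity)
      _ ≤ H ^ 2 * max 1 ‖w‖ ^ 2 := mul_le_mul_of_nonneg_left (le_self_pow₀ h4 (by norm_num)) (by positivity)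
      _ = _ := by ring

theorem out1 (k g d m : ℕ) (hm : 1 ≤ m) : ∃ (B : ℕ) (C c : ℝ), 0 < c ∧ ∀ T : ℕ, 1 ≤ T →
    (∃ H₀ : ℝ, ∀ H₁ : ℝ, H₀ ≤ H₁ → ∀ ζ : Fin g → ℂ,
      (({x : Fin k → ℂ | (∀ j, SInt m T (x j)) ∧ ¬ ∀ H : ℝ, H₁ ≤ H → H ≤ H₁ ^ Real.exp ((T : ℝ) ^ c) →
        Gd1 d B ζ x H}.ncard : ℕ) : ℝ) ≤ C * (T : ℝ) ^ (-c) * (({ξ : ℂ | SInt m T ξ}.ncard : ℕ) : ℝ) ^ k) ∧
    ∀ ζ : Fin g → ℂ, (({x : Fin k → ℂ | (∀ j, SInt m T (x j)) ∧ ¬ ∀ N₀ : ℕ, ∃ N, N₀ ≤ N ∧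
      (({j : ℕ | j < N ∧ ¬ ∀ H : ℝ, 2 ^ (2 ^ j) ≤ H → H ≤ 2 ^ (2 ^ (j + 1)) → Gd1 d B ζ x H}.ncard : ℕ) : ℝ) ≤
          (T : ℝ) ^ (-c) * N}.ncard : ℕ) : ℝ) ≤ C * (T : ℝ) ^ (-c) * (({ξ : ℂ | SInt m T ξ}.ncard : ℕ) : ℝ) ^ k := by
  classical
  obtain ⟨R, hR1, h⟩ := mainJ k g m d hm
  refine h (Fin g → ℂ) (fun ζ => ζ) (fun B ζ x H => Gd1 d B ζ x H) (fun B₀ => ?_) fun B ζ x H H' => Gd1.mono
  obtain ⟨B₁, hB₁⟩ := measJ (k := k) d m B₀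
  refine ⟨B₀ + B₁, fun T hT => ?_⟩
  obtain ⟨H₀, hH₀⟩ := hB₁ T hT
  refine ⟨max (max H₀ 1) (Real.log T + 4), fun ζ x H hH hx hxR hnj => ?_⟩
  have hH1 : 1 ≤ H := (le_max_right _ _).trans ((le_max_left _ _).trans hH)
  have hx1 : ∀ j, 1 ≤ ‖x j‖ := fun j => by
    have h1 : (1 : ℝ) ≤ R := by exact_mod_cast hR1
    linarith [hxR j]
  exact gd1_of (B₁ := B₀) (B₂ := B₁) hH1 ((le_max_right _ _).trans hH) hx1 (fun j => aint_norm (hx j)) (by omega) (by omega) hnj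
    (hH₀ (fun i => i.elim0) x H ((le_max_left _ _).trans ((le_max_left _ _).trans hH)) hx (hnj.zero _))

end Pool.Agent.Q189.JM
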