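import Pool.Agent.Q189.JM.Fin2
import Pool.Agent.Q189.JM.Out1

/-!
# The transfer and the measure over number fields together
-/

set_option autoImplicit false

open PowerSeries Pool.Agent.Y120.J Pool.Agent.Y120.K Pool.Agent.Y120.A
open Pool.Agent.Q246.NR Pool.Agent.Q246.NR2 Pool.Agent.Q189.MF Pool.Agent.Y916.Sl
open Pool.Agent.TH21.MS (jj)
open Pool.Agent.Q189.HC (coeff_rename_le)
open NumberField Module

namespace Pool.Agent.Q189.JM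

variable {k g : ℕ}

lemma NJ.deg {d d' B : ℕ} (hd : d ≤ d') {ζ : Fin g → ℂ} {α : Fin k → ℂ} {H : ℝ} (h : NJ d' B ζ α H) : NJ d B ζ α H :=
  fun z hz hjz hzH hzi G hG hdet lam hlam hlamH x hx0 hx1 hx2 hx3 P hPd hPH w =>
    h z hz hjz hzH hzi G hG hdet lam hlam hlamH x hx0 hx1 hx2 hx3 P (hPd.trans hd) hPH w

lemma NJ.pow {d B e : ℕ} (he : 1 ≤ e) {ζ : Fin g → ℂ} {α : Fin k → ℂ} {H : ℝ} (hH : 1 ≤ H) (h : NJ d B ζ α (H ^ e)) :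
    NJ d (e * B) ζ α H := by
  intro z hz hjz hzH hzi G hG hdet lam hlam hlamH x hx0 hx1 hx2 hx3 P hPd hPH w
  have h2 : H ≤ H ^ e := le_self_pow₀ hH (by omega)
  refine (h z hz hjz (fun j => (hzH j).trans h2) (fun j => (hzi j).trans (mul_le_mul_of_nonneg_right h2 (hz j).le)) G
    (fun j i => (hG j i).trans h2) hdet lam hlam (fun j => (hlamH j).trans h2) x hx0 hx1 hx2 hx3 P hPd
    (fun e => (hPH e).trans h2) w).trans ?_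
  refine mul_le_mul_of_nonneg_right ?_ (norm_nonneg _)
  have h4 : 1 ≤ max 1 ‖w‖ := le_max_left _ _
  rw [pow_mul]
  refine pow_le_pow_left₀ (by positivity) ?_ _
  rw [mul_pow]
  exact mul_le_mul_of_nonneg_left (le_self_pow₀ h4 (by omega)) (by positivity)

lemma MJ.pow {d B e : ℕ} (he : 1 ≤ e) {α : Fin k → ℂ} {H : ℝ} (hH : 1 ≤ H) (h : MJ d B α (H ^ e)) :
    MJ d (e * B) α H := by
  intro z hz hjz hzH hzi G hG hdet lam hlam hlamH x hx0 hx1 hx2 hx3 P hPd hPH hw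
  have h2 : H ≤ H ^ e := le_self_pow₀ hH (by omega)
  rw [pow_mul]
  exact h z hz hjz (fun j => (hzH j).trans h2) (fun j => (hzi j).trans (mul_le_mul_of_nonneg_right h2 (hz j).le)) G
    (fun j i => (hG j i).trans h2) hdet lam hlam (fun j => (hlamH j).trans h2) x hx0 hx1 hx2 hx3 P hPd
    (fun e => (hPH e).trans h2) hw

/-- the theorem on almost all tuples, for properties which follow from `NJ` and `MK` at a power of the height -/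
theorem mainK (k g mm d D e : ℕ) (hm : 1 ≤ mm) (he : 1 ≤ e) : ∃ R₀ : ℕ, 1 ≤ R₀ ∧
    ∀ R : ℕ, R₀ ≤ R → ∀ (Z : Type) (ζf : Z → Fin g → ℂ) (Gd : ℕ → Z → (Fin k → ℂ) → ℝ → Prop),
    (∀ B₀ : ℕ, ∃ B : ℕ, ∀ T : ℕ, 1 ≤ T → ∃ H₀ : ℝ, ∀ z x H, H₀ ≤ H → (∀ j, AInt mm T (x j)) →
      (∀ j, (R : ℝ) < ‖x j‖) → NJ d B₀ (ζf z) x (H ^ e) → MK d D B₀ x (H ^ e) → Gd B z x H) →
    (∀ B z x H H', 1 ≤ H → H ≤ H' → H' ≤ H ^ 2 → Gd B z x H' → Gd (2 * B) z x H) →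
    ∃ (B : ℕ) (C c : ℝ), 0 < c ∧ ∀ T : ℕ, 1 ≤ T →
    (∃ H₀ : ℝ, ∀ H₁ : ℝ, H₀ ≤ H₁ → ∀ z : Z,
      (({x : Fin k → ℂ | (∀ j, SInt mm T (x j)) ∧ ¬ ∀ H : ℝ, H₁ ≤ H → H ≤ H₁ ^ Real.exp ((T : ℝ) ^ c) →
        Gd B z x H}.ncard : ℕ) : ℝ) ≤ C * (T : ℝ) ^ (-c) * (({ξ : ℂ | SInt mm T ξ}.ncard : ℕ) : ℝ) ^ k) ∧
    ∀ z : Z, (({x : Fin k → ℂ | (∀ j, SInt mm T (x j)) ∧ ¬ ∀ N₀ : ℕ, ∃ N, N₀ ≤ N ∧
      (({j : ℕ | j < N ∧ ¬ ∀ H : ℝ, 2 ^ (2 ^ j) ≤ H → H ≤ 2 ^ (2 ^ (j + 1)) → Gd B z x H}.ncard : ℕ) : ℝ) ≤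
          (T : ℝ) ^ (-c) * N}.ncard : ℕ) : ℝ) ≤ C * (T : ℝ) ^ (-c) * (({ξ : ℂ | SInt mm T ξ}.ncard : ℕ) : ℝ) ^ k := by
  classical
  obtain ⟨d', e', R₁, he', hR₁, hK⟩ := measK k d D
  obtain ⟨R₀, hR₀, h⟩ := mainJe k g mm (max d d') (e * e') hm (Nat.mul_pos he he')
  refine ⟨max R₀ R₁, hR₀.trans (le_max_left _ _), fun R hR Z ζf Gd hGd hmono => ?_⟩
  refine h R ((le_max_left _ _).trans hR) Z ζf Gd (fun B₀ => ?_) hmono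
  obtain ⟨B₁, hB₁⟩ := measJ (k := k) (max d d') mm B₀
  obtain ⟨B₂, hB₂⟩ := hK B₁
  obtain ⟨B₃, hB₃⟩ := hGd (e' * B₀ + B₂)
  refine ⟨B₃, fun T hT => ?_⟩
  obtain ⟨H₁, hH₁⟩ := hB₁ T hT
  obtain ⟨H₂, hH₂⟩ := hB₂ T hT
  obtain ⟨H₃, hH₃⟩ := hB₃ T hT
  refine ⟨max (max H₁ 1) (max H₂ H₃), fun z x H hH hx hxR hnj => ?_⟩
  have hone : 1 ≤ H := (le_max_right _ _).trans ((le_max_left _ _).trans hH)
  have hHe : H ≤ H ^ e := le_self_pow₀ hone (by omega)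
  have hone' : 1 ≤ H ^ e := one_le_pow₀ hone
  have hHee : H ^ e ≤ (H ^ e) ^ e' := le_self_pow₀ hone' (by omega)
  rw [pow_mul] at hnj
  have hx1 : ∀ j, (R₁ : ℝ) < ‖x j‖ := fun j => lt_of_le_of_lt (by exact_mod_cast (le_max_right _ _).trans hR) (hxR j)
  have h1 := hH₁ (fun i => i.elim0) x ((H ^ e) ^ e') ((((le_max_left _ _).trans ((le_max_left _ _).trans hH)).trans hHe).trans hHee)
    hx (hnj.zero _)
  have h1' : MJ d' B₁ x ((H ^ e) ^ e') := by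
    intro z hz hjz hzH hzi G hG hdet lam hlam hlamH x' hx0 hx1 hx2 hx3 P hPd hPH hw
    exact h1 z hz hjz hzH hzi G hG hdet lam hlam hlamH x' hx0 hx1 hx2 hx3 P (hPd.trans (le_max_right _ _)) hPH hw
  have h2 := hH₂ x (H ^ e) (((le_max_left _ _).trans ((le_max_right _ _).trans hH)).trans hHe) (fun j => aint_norm (hx j)) hx1 h1'
  have h3 := (hnj.deg (le_max_left d d')).pow he' hone'
  refine hH₃ z x H ((le_max_right _ _).trans ((le_max_right _ _).trans hH)) hx hxR ?_ ?_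
  · intro z' hz hjz hzH hzi G hG hdet lam hlam hlamH x' hx0 hx1 hx2 hx3 P hPd hPH w
    refine (h3 z' hz hjz hzH hzi G hG hdet lam hlam hlamH x' hx0 hx1 hx2 hx3 P hPd hPH w).trans ?_
    refine mul_le_mul_of_nonneg_right (pow_le_pow_right₀ ?_ (by omega)) (norm_nonneg _)
    have h4 : 1 ≤ max 1 ‖w‖ := le_max_left _ _
    nlinarith
  · intro z' hz hjz hzH hzi G hG hdet lam hlam hlamH x' hx0 hx1 hx2 hx3 K _ hK P hP0 hPd hPH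
    exact (h2 z' hz hjz hzH hzi G hG hdet lam hlam hlamH x' hx0 hx1 hx2 hx3 K hK P hP0 hPd hPH).trans
      (mul_le_mul_of_nonneg_right (pow_le_pow_right₀ hone' (by omega)) (norm_nonneg _))

/-- the four numbers -/
noncomputable def n5 (z lam : Fin k → ℂ) : Fin k × Fin 4 → ℂ :=
  fun v => (![z v.1, deriv jj (z v.1), deriv (deriv jj) (z v.1), lam v.1] : Fin 4 → ℂ) v.2

/-- the property -/
def Gd2 (d D B : ℕ) (ζ : Fin g → ℂ) (α : Fin k → ℂ) (H : ℝ) : Prop :=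
  ∀ z : Fin k → ℂ, (∀ j, 0 < (z j).im ∧ jj (z j) = α j ∧ ‖z j‖ ≤ H ∧ 1 ≤ H * (z j).im) →
    ∀ lam : Fin k → ℂ, (∀ j, Complex.exp (lam j) = α j ∧ ‖lam j‖ ≤ H) →
    (∀ (K : IntermediateField ℚ ℂ) [FiniteDimensional ℚ K], finrank ℚ K ≤ D →
      ∀ P : MvPolynomial (Option (Fin k × Fin 4)) K, P ≠ 0 → P.totalDegree ≤ d → House K H P →
        1 ≤ H ^ B * ‖MvPolynomial.aeval (fun o : Option (Fin k × Fin 4) => o.elim tpi (n5 z lam)) P‖) ∧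
    ∀ P : MvPolynomial ((Fin k × Fin 4) ⊕ Cs g k) ℤ, P.totalDegree ≤ d → (∀ e, |((P.coeff e : ℤ) : ℝ)| ≤ H) →
      ∀ w : Fin k × Fin 4 → ℂ, ‖MvPolynomial.aeval (Sum.elim w (cv ζ α)) P‖ ≤
        (H * max 1 ‖w‖) ^ B * ‖MvPolynomial.aeval (Sum.elim (n5 z lam) (cv ζ α)) P‖

lemma Gd2.mono {d D B : ℕ} {ζ : Fin g → ℂ} {α : Fin k → ℂ} {H H' : ℝ} (h1 : 1 ≤ H) (h2 : H ≤ H') (h3 : H' ≤ H ^ 2)
    (hg : Gd2 d D B ζ α H') : Gd2 d D (2 * B) ζ α H := by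
  intro z hz lam hlam
  obtain ⟨g1, g2⟩ := hg z (fun j => ⟨(hz j).1, (hz j).2.1, (hz j).2.2.1.trans h2,
    (hz j).2.2.2.trans (mul_le_mul_of_nonneg_right h2 (hz j).1.le)⟩) lam fun j => ⟨(hlam j).1, (hlam j).2.trans h2⟩
  refine ⟨fun K _ hK P hP0 hPd hPH => ?_, fun P hd hH w => ?_⟩
  · refine (g1 K hK P hP0 hPd (hPH.mono h2)).trans ?_
    refine mul_le_mul_of_nonneg_right ?_ (norm_nonneg _)
    rw [pow_mul]
    exact pow_le_pow_left₀ (by linarith) h3 _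
  · refine (g2 P hd (fun e => (hH e).trans h2) w).trans ?_
    refine mul_le_mul_of_nonneg_right ?_ (norm_nonneg _)
    rw [pow_mul]
    have h4 : 1 ≤ max 1 ‖w‖ := le_max_left _ _
    refine pow_le_pow_left₀ (mul_nonneg (by linarith) (by positivity)) ?_ _
    calc H' * max 1 ‖w‖ ≤ H ^ 2 * max 1 ‖w‖ := mul_le_mul_of_nonneg_right h3 (by positivity)
      _ ≤ H ^ 2 * max 1 ‖w‖ ^ 2 := mul_le_mul_of_nonneg_left (le_self_pow₀ h4 (by norm_num)) (by positivity)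
      _ = _ := by ring

theorem out2 (k g d D m : ℕ) (hm : 1 ≤ m) : ∃ (B : ℕ) (C c : ℝ), 0 < c ∧ ∀ T : ℕ, 1 ≤ T →
    (∃ H₀ : ℝ, ∀ H₁ : ℝ, H₀ ≤ H₁ → ∀ ζ : Fin g → ℂ,
      (({x : Fin k → ℂ | (∀ j, SInt m T (x j)) ∧ ¬ ∀ H : ℝ, H₁ ≤ H → H ≤ H₁ ^ Real.exp ((T : ℝ) ^ c) →
        Gd2 d D B ζ x H}.ncard : ℕ) : ℝ) ≤ C * (T : ℝ) ^ (-c) * (({ξ : ℂ | SInt m T ξ}.ncard : ℕ) : ℝ) ^ k) ∧
    ∀ ζ : Fin g → ℂ, (({x : Fin k → ℂ | (∀ j, SInt m T (x j)) ∧ ¬ ∀ N₀ : ℕ, ∃ N, N₀ ≤ N ∧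
      (({j : ℕ | j < N ∧ ¬ ∀ H : ℝ, 2 ^ (2 ^ j) ≤ H → H ≤ 2 ^ (2 ^ (j + 1)) → Gd2 d D B ζ x H}.ncard : ℕ) : ℝ) ≤
          (T : ℝ) ^ (-c) * N}.ncard : ℕ) : ℝ) ≤ C * (T : ℝ) ^ (-c) * (({ξ : ℂ | SInt m T ξ}.ncard : ℕ) : ℝ) ^ k := by
  classical
  obtain ⟨R, hR1, h⟩ := mainK k g m d D 1 hm le_rfl
  refine h R le_rfl (Fin g → ℂ) (fun ζ => ζ) (fun B ζ x H => Gd2 d D B ζ x H) (fun B₀ => ⟨B₀, fun T hT => ⟨1,
    fun ζ x H hH hx hxR hnj hmk => ?_⟩⟩) fun B ζ x H H' => Gd2.mono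
  rw [pow_one] at hnj hmk
  intro z hz lam hlam
  have hdet : ∀ j, gI (k := k) j 0 * gI (k := k) j 3 - gI (k := k) j 1 * gI (k := k) j 2 ≠ 0 := fun j => by simp [gI]
  have hx0 : ∀ j, ((gI (k := k) j 2 : ℂ) * z j + gI (k := k) j 3) * n5 z lam (j, 0) = gI (k := k) j 0 * z j + gI (k := k) j 1 := by
    intro j
    have : n5 z lam (j, 0) = z j := rfl
    rw [this]
    simp [gI]
  refine ⟨fun K _ hK P hP0 hPd hPH => ?_, fun P hPd hPH w => ?_⟩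
  · exact hmk z (fun j => (hz j).1) (fun j => (hz j).2.1) (fun j => (hz j).2.2.1) (fun j => (hz j).2.2.2) gI (gI_le hH) hdet
      lam (fun j => (hlam j).1) (fun j => (hlam j).2) (n5 z lam) hx0 (fun _ => rfl) (fun _ => rfl) (fun _ => rfl) K hK P hP0 hPd hPH
  · exact hnj z (fun j => (hz j).1) (fun j => (hz j).2.1) (fun j => (hz j).2.2.1) (fun j => (hz j).2.2.2) gI (gI_le hH) hdet
      lam (fun j => (hlam j).1) (fun j => (hlam j).2) (n5 z lam) hx0 (fun _ => rfl) (fun _ => rfl) (fun _ => rfl) P hPd hPH w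

end Pool.Agent.Q189.JM
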