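import Pool.Agent.Q189.JM.Hou
import Pool.Agent.Q189.JM.Out2

/-!
# Points in the isogeny classes
-/

set_option autoImplicit false

open PowerSeries Pool.Agent.Y120.J Pool.Agent.Y120.K Pool.Agent.Y120.A
open Pool.Agent.Q246.NR Pool.Agent.Q246.NR2 Pool.Agent.Q189.MF Pool.Agent.Y916.Sl
open Pool.Agent.TH21.MS (jj)
open Pool.Agent.Q189.HC (coeff_rename_le)
open NumberField Module

namespace Pool.Agent.Q189.JM

variable {k g n : ℕ}

section poly
variable (S τ : Type) [CommRing S]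

/-- the numerators -/
noncomputable def NI (b : Fin n → Fin k) (G : Fin n → Fin 4 → ℤ) : Fin n ⊕ Fin k → MvPolynomial ((Fin k × Fin 4) ⊕ τ) S :=
  Sum.elim (fun l => MvPolynomial.C ((G l 0 : ℤ) : S) * MvPolynomial.X (Sum.inl (b l, 0)) + MvPolynomial.C ((G l 1 : ℤ) : S))
    fun i => MvPolynomial.X (Sum.inl (i, 3))

/-- the denominators -/
noncomputable def MI (b : Fin n → Fin k) (G : Fin n → Fin 4 → ℤ) : Fin n ⊕ Fin k → MvPolynomial ((Fin k × Fin 4) ⊕ τ) S :=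
  Sum.elim (fun l => MvPolynomial.C ((G l 2 : ℤ) : S) * MvPolynomial.X (Sum.inl (b l, 0)) + MvPolynomial.C ((G l 3 : ℤ) : S))
    fun _ => 1

end poly

lemma lin_deg {V S : Type} [CommRing S] [Nontrivial S] (a c : S) (v : V) :
    (MvPolynomial.C a * MvPolynomial.X v + MvPolynomial.C c : MvPolynomial V S).totalDegree ≤ 1 := by
  refine (MvPolynomial.totalDegree_add _ _).trans (max_le ?_ ?_)
  · refine (MvPolynomial.totalDegree_mul _ _).trans ?_
    rw [MvPolynomial.totalDegree_C, MvPolynomial.totalDegree_X]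
  · rw [MvPolynomial.totalDegree_C]
    omega

lemma lin_len {V : Type} (a c : ℂ) (v : V) (H : ℝ) (ha : ‖a‖ ≤ H) (hc : ‖c‖ ≤ H) :
    len (MvPolynomial.C a * MvPolynomial.X v + MvPolynomial.C c : MvPolynomial V ℂ) ≤ 2 * H := by
  refine (len_add _ _).trans ?_
  have h1 := len_mul (MvPolynomial.C a : MvPolynomial V ℂ) (MvPolynomial.X v)
  rw [len_C, len_X, mul_one] at h1
  rw [len_C]
  linarith

lemma lin_int {V : Type} (K : IntermediateField ℚ ℂ) (a c : ℤ) (v : V) (e : V →₀ ℕ) :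
    IsIntegral ℤ ((MvPolynomial.C (a : K) * MvPolynomial.X v + MvPolynomial.C (c : K) : MvPolynomial V K).coeff e) := by
  have h1 : (MvPolynomial.C (a : K) * MvPolynomial.X v + MvPolynomial.C (c : K) : MvPolynomial V K) =
      MvPolynomial.map (algebraMap ℤ K) (MvPolynomial.C a * MvPolynomial.X v + MvPolynomial.C c) := by
    simp
  rw [h1, MvPolynomial.coeff_map]
  exact isIntegral_algebraMap

lemma X_int {V : Type} (K : IntermediateField ℚ ℂ) (v : V) (e : V →₀ ℕ) :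
    IsIntegral ℤ ((MvPolynomial.X v : MvPolynomial V K).coeff e) := by
  have h1 : (MvPolynomial.X v : MvPolynomial V K) = MvPolynomial.map (algebraMap ℤ K) (MvPolynomial.X v) := by
    simp
  rw [h1, MvPolynomial.coeff_map]
  exact isIntegral_algebraMap

lemma one_int {V : Type} (K : IntermediateField ℚ ℂ) (e : V →₀ ℕ) :
    IsIntegral ℤ ((1 : MvPolynomial V K).coeff e) := by
  have h1 : (1 : MvPolynomial V K) = MvPolynomial.map (algebraMap ℤ K) 1 := by
    simp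
  rw [h1, MvPolynomial.coeff_map]
  exact isIntegral_algebraMap

section facts
variable {S τ : Type} [CommRing S]

lemma NI_deg [Nontrivial S] (b : Fin n → Fin k) (G : Fin n → Fin 4 → ℤ) (v : Fin n ⊕ Fin k) : (NI S τ b G v).totalDegree ≤ 1 := by
  rcases v with l | i
  · exact lin_deg _ _ _
  · show (MvPolynomial.X (Sum.inl (i, 3)) : MvPolynomial ((Fin k × Fin 4) ⊕ τ) S).totalDegree ≤ 1
    rw [MvPolynomial.totalDegree_X]

lemma MI_deg [Nontrivial S] (b : Fin n → Fin k) (G : Fin n → Fin 4 → ℤ) (v : Fin n ⊕ Fin k) : (MI S τ b G v).totalDegree ≤ 1 := by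
  rcases v with l | i
  · exact lin_deg _ _ _
  · show (1 : MvPolynomial ((Fin k × Fin 4) ⊕ τ) S).totalDegree ≤ 1
    rw [MvPolynomial.totalDegree_one]
    omega

lemma NI_map {S' : Type} [CommRing S'] (f : S →+* S') (b : Fin n → Fin k) (G : Fin n → Fin 4 → ℤ) (v : Fin n ⊕ Fin k) :
    MvPolynomial.map f (NI S τ b G v) = NI S' τ b G v := by
  rcases v with l | i
  · simp [NI]
  · simp [NI]

lemma MI_map {S' : Type} [CommRing S'] (f : S →+* S') (b : Fin n → Fin k) (G : Fin n → Fin 4 → ℤ) (v : Fin n ⊕ Fin k) :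
    MvPolynomial.map f (MI S τ b G v) = MI S' τ b G v := by
  rcases v with l | i
  · simp [MI]
  · simp [MI]

lemma lin_ev {V : Type} (f : S →+* ℂ) (x : V → ℂ) (a c : ℤ) (v : V) :
    MvPolynomial.eval₂ f x (MvPolynomial.C ((a : ℤ) : S) * MvPolynomial.X v + MvPolynomial.C ((c : ℤ) : S)) = a * x v + c := by
  rw [MvPolynomial.eval₂_add, MvPolynomial.eval₂_mul, MvPolynomial.eval₂_C, MvPolynomial.eval₂_X, MvPolynomial.eval₂_C,
    map_intCast, map_intCast]

/-- the equations -/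
lemma NI_eq (f : S →+* ℂ) {b : Fin n → Fin k} {G : Fin n → Fin 4 → ℤ} {x : Fin k → ℂ} {v : Fin n → ℂ}
    (hv : ∀ l, ((G l 2 : ℂ) * x (b l) + G l 3) * v l = G l 0 * x (b l) + G l 1) (lam : Fin k → ℂ) (w : Fin k × Fin 4 → ℂ)
    (hw0 : ∀ j, w (j, 0) = x j) (hw3 : ∀ j, w (j, 3) = lam j) (u : τ → ℂ) (q : Fin n ⊕ Fin k) :
    MvPolynomial.eval₂ f (Sum.elim w u) (MI S τ b G q) * Sum.elim v lam q = MvPolynomial.eval₂ f (Sum.elim w u) (NI S τ b G q) := by
  rcases q with l | i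
  · simp only [MI, NI, Sum.elim_inl, lin_ev, hw0]
    exact hv l
  · simp only [MI, NI, Sum.elim_inr, MvPolynomial.eval₂_one, MvPolynomial.eval₂_X, Sum.elim_inl, one_mul, hw3]

/-- the product of the denominators -/
lemma MI_prod (f : S →+* ℂ) (b : Fin n → Fin k) (G : Fin n → Fin 4 → ℤ) (w : Fin k × Fin 4 → ℂ) (u : τ → ℂ) (d : ℕ) :
    ∏ q, MvPolynomial.eval₂ f (Sum.elim w u) (MI S τ b G q) ^ d = ∏ l, ((G l 2 : ℂ) * w (b l, 0) + G l 3) ^ d := by
  rw [Fintype.prod_sum_type]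
  have h1 : ∀ i : Fin k, MvPolynomial.eval₂ f (Sum.elim w u) (MI S τ b G (Sum.inr i)) ^ d = 1 := fun i => by
    simp [MI]
  simp only [h1, Finset.prod_const_one, mul_one]
  refine Finset.prod_congr rfl fun l _ => ?_
  simp only [MI, Sum.elim_inl, lin_ev]

end facts

/-- the denominators do not vanish -/
lemma den_inv {G : Fin 4 → ℤ} (hdet : G 0 * G 3 - G 1 * G 2 ≠ 0) {x v : ℂ} (hv : ((G 2 : ℂ) * x + G 3) * v = G 0 * x + G 1)
    {H X : ℝ} (hG : ∀ i, |((G i : ℤ) : ℝ)| ≤ H) (hX : ‖v‖ ≤ X) : 1 ≤ (H * (1 + X)) * ‖(G 2 : ℂ) * x + G 3‖ := by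
  have h1 : ((G 2 : ℂ) * x + G 3) * (G 0 - G 2 * v) = ((G 0 * G 3 - G 1 * G 2 : ℤ) : ℂ) := by
    push_cast
    linear_combination (-(G 2 : ℂ)) * hv
  have h2 : (1 : ℝ) ≤ ‖((G 0 * G 3 - G 1 * G 2 : ℤ) : ℂ)‖ := by
    rw [Complex.norm_intCast]
    exact_mod_cast Int.one_le_abs hdet
  rw [← h1, norm_mul] at h2
  have hH0 : 0 ≤ H := (abs_nonneg _).trans (hG 0)
  have h3 : ‖(G 0 : ℂ) - G 2 * v‖ ≤ H * (1 + X) := by
    refine (norm_sub_le _ _).trans ?_
    rw [norm_mul, Complex.norm_intCast, Complex.norm_intCast]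
    have := mul_le_mul (hG 2) hX (norm_nonneg _) hH0
    linarith [hG 0]
  calc (1 : ℝ) ≤ _ := h2
    _ ≤ ‖(G 2 : ℂ) * x + G 3‖ * (H * (1 + X)) := mul_le_mul_of_nonneg_left h3 (norm_nonneg _)
    _ = _ := mul_comm _ _

/-- the renaming -/
def r1 {V : Type} : Option V → V ⊕ Fin 1 := fun o => o.elim (Sum.inr 0) Sum.inl

lemma r1_inj {V : Type} : Function.Injective (r1 (V := V)) := by
  rintro (_ | v) (_ | w) h
  · rfl
  · simp [r1] at h
  · simp [r1] at h
  · simp only [r1, Option.elim_some, Sum.inl.injEq] at h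
    rw [h]

lemma r1_comp {V : Type} (x : V → ℂ) (θ : ℂ) : (Sum.elim x (fun _ : Fin 1 => θ)) ∘ r1 = fun o : Option V => o.elim θ x := by
  funext o
  rcases o with _ | v <;> rfl

/-- the renaming -/
def r2 {V : Type} : V ⊕ Fin 1 → Option V := Sum.elim some fun _ => none

lemma r2_inj {V : Type} : Function.Injective (r2 (V := V)) := by
  rintro (v | i) (w | j) h
  · simp only [r2, Sum.elim_inl, Option.some.injEq] at h
    rw [h]
  · simp [r2] at h
  · simp [r2] at h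
  · rw [Subsingleton.elim i j]

lemma r2_comp {V : Type} (x : V → ℂ) (θ : ℂ) : (fun o : Option V => (o.elim θ x : ℂ)) ∘ r2 = Sum.elim x (fun _ : Fin 1 => θ) := by
  funext o
  rcases o with _ | v <;> rfl

/-- the property -/
def Gd3 (n d D B : ℕ) (ζ : Fin g → ℂ) (α : Fin k → ℂ) (H : ℝ) : Prop :=
  ∀ z : Fin k → ℂ, (∀ j, 0 < (z j).im ∧ jj (z j) = α j ∧ ‖z j‖ ≤ H ∧ 1 ≤ H * (z j).im) →
    ∀ lam : Fin k → ℂ, (∀ j, Complex.exp (lam j) = α j ∧ ‖lam j‖ ≤ H) →
    ∀ (b : Fin n → Fin k) (G : Fin n → Fin 4 → ℤ),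
    (∀ l, (∀ i, |((G l i : ℤ) : ℝ)| ≤ H) ∧ G l 0 * G l 3 - G l 1 * G l 2 ≠ 0) →
    ∀ u : Fin n → ℂ, (∀ l, ((G l 2 : ℂ) * z (b l) + G l 3) * u l = G l 0 * z (b l) + G l 1) →
    (∀ (K : IntermediateField ℚ ℂ) [FiniteDimensional ℚ K], finrank ℚ K ≤ D →
      ∀ P : MvPolynomial (Option (Fin n ⊕ Fin k)) K, P.totalDegree ≤ d → House K H P →
        (∃ (x : Fin k → ℂ) (v : Fin n → ℂ) (μ : Fin k → ℂ) (θ : ℂ),
          (∀ l, ((G l 2 : ℂ) * x (b l) + G l 3) * v l = G l 0 * x (b l) + G l 1) ∧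
          MvPolynomial.aeval (fun o : Option (Fin n ⊕ Fin k) => o.elim θ (Sum.elim v μ)) P ≠ 0) →
        1 ≤ H ^ B * ‖MvPolynomial.aeval (fun o : Option (Fin n ⊕ Fin k) => o.elim tpi (Sum.elim u lam)) P‖) ∧
    ∀ P : MvPolynomial ((Fin n ⊕ Fin k) ⊕ Cs g k) ℤ, P.totalDegree ≤ d → (∀ e, |((P.coeff e : ℤ) : ℝ)| ≤ H) →
      ∀ (x : Fin k → ℂ) (v : Fin n → ℂ) (μ : Fin k → ℂ),
        (∀ l, ((G l 2 : ℂ) * x (b l) + G l 3) * v l = G l 0 * x (b l) + G l 1) →
        ‖MvPolynomial.aeval (Sum.elim (Sum.elim v μ) (cv ζ α)) P‖ ≤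
          (H * max 1 ‖(x, v, μ)‖) ^ B * ‖MvPolynomial.aeval (Sum.elim (Sum.elim u lam) (cv ζ α)) P‖

lemma Gd3.mono {n d D B : ℕ} {ζ : Fin g → ℂ} {α : Fin k → ℂ} {H H' : ℝ} (h1 : 1 ≤ H) (h2 : H ≤ H') (h3 : H' ≤ H ^ 2)
    (hg : Gd3 n d D B ζ α H') : Gd3 n d D (2 * B) ζ α H := by
  intro z hz lam hlam b G hG u hu
  obtain ⟨g1, g2⟩ := hg z (fun j => ⟨(hz j).1, (hz j).2.1, (hz j).2.2.1.trans h2,
    (hz j).2.2.2.trans (mul_le_mul_of_nonneg_right h2 (hz j).1.le)⟩) lam (fun j => ⟨(hlam j).1, (hlam j).2.trans h2⟩) b G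
    (fun l => ⟨fun i => ((hG l).1 i).trans h2, (hG l).2⟩) u hu
  refine ⟨fun K _ hK P hPd hPH hw => ?_, fun P hd hH x v μ hv => ?_⟩
  · refine (g1 K hK P hPd (hPH.mono h2) hw).trans ?_
    refine mul_le_mul_of_nonneg_right ?_ (norm_nonneg _)
    rw [pow_mul]
    exact pow_le_pow_left₀ (by linarith) h3 _
  · refine (g2 P hd (fun e => (hH e).trans h2) x v μ hv).trans ?_
    refine mul_le_mul_of_nonneg_right ?_ (norm_nonneg _)
    rw [pow_mul]
    have h4 : 1 ≤ max 1 ‖(x, v, μ)‖ := le_max_left _ _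
    refine pow_le_pow_left₀ (mul_nonneg (by linarith) (by positivity)) ?_ _
    calc H' * max 1 ‖(x, v, μ)‖ ≤ H ^ 2 * max 1 ‖(x, v, μ)‖ := mul_le_mul_of_nonneg_right h3 (by positivity)
      _ ≤ H ^ 2 * max 1 ‖(x, v, μ)‖ ^ 2 := mul_le_mul_of_nonneg_left (le_self_pow₀ h4 (by norm_num)) (by positivity)
      _ = _ := by ring

theorem out3 (k g n d D m : ℕ) (hm : 1 ≤ m) : ∃ (B : ℕ) (C c : ℝ), 0 < c ∧ ∀ T : ℕ, 1 ≤ T →
    (∃ H₀ : ℝ, ∀ H₁ : ℝ, H₀ ≤ H₁ → ∀ ζ : Fin g → ℂ,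
      (({x : Fin k → ℂ | (∀ j, SInt m T (x j)) ∧ ¬ ∀ H : ℝ, H₁ ≤ H → H ≤ H₁ ^ Real.exp ((T : ℝ) ^ c) →
        Gd3 n d D B ζ x H}.ncard : ℕ) : ℝ) ≤ C * (T : ℝ) ^ (-c) * (({ξ : ℂ | SInt m T ξ}.ncard : ℕ) : ℝ) ^ k) ∧
    ∀ ζ : Fin g → ℂ, (({x : Fin k → ℂ | (∀ j, SInt m T (x j)) ∧ ¬ ∀ N₀ : ℕ, ∃ N, N₀ ≤ N ∧
      (({j : ℕ | j < N ∧ ¬ ∀ H : ℝ, 2 ^ (2 ^ j) ≤ H → H ≤ 2 ^ (2 ^ (j + 1)) → Gd3 n d D B ζ x H}.ncard : ℕ) : ℝ) ≤
          (T : ℝ) ^ (-c) * N}.ncard : ℕ) : ℝ) ≤ C * (T : ℝ) ^ (-c) * (({ξ : ℂ | SInt m T ξ}.ncard : ℕ) : ℝ) ^ k := by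
  classical
  set q : ℕ := Fintype.card (Fin n ⊕ Fin k) with hq
  set d₁ : ℕ := q * (d * 1) + Fintype.card (Cs g k) * d with hd₁
  set e : ℕ := 2 + 2 * (d * q) with he
  obtain ⟨R, hR1, h⟩ := mainK k g m d₁ D e hm (by omega)
  refine h R le_rfl (Fin g → ℂ) (fun ζ => ζ) (fun B ζ x H => Gd3 n d D B ζ x H) (fun B₀ => ?_) fun B ζ x H H' => Gd3.mono
  refine ⟨e * B₀ + 5 * (d * n), fun T hT => ⟨max 2 (((d : ℝ) + 1) ^ (q + Fintype.card (Cs g k))), ?_⟩⟩
  intro ζ α H hH hx hxR hnj hmk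
  have hH2 : 2 ≤ H := (le_max_left _ _).trans hH
  have hHd : ((d : ℝ) + 1) ^ (q + Fintype.card (Cs g k)) ≤ H := (le_max_right _ _).trans hH
  have hH1 : 1 ≤ H := by linarith
  have hH0 : 0 < H := by linarith
  have hHe : H ≤ H ^ e := le_self_pow₀ hH1 (by omega)
  have hdd : (0 : ℝ) ≤ d := Nat.cast_nonneg _
  have hcard1 : 1 ≤ Fintype.card (Cs g k) := by
    rw [Fintype.card_sum, Fintype.card_fin, Fintype.card_fin]
    omega
  -- the heights
  have hht : ∀ c : ℕ, c ≤ Fintype.card (Cs g k) → ((d : ℝ) + 1) ^ (q + c) * (H * (2 * H) ^ (d * q)) ≤ H ^ e := by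
    intro c hc
    calc _ ≤ H * (H * (H * H) ^ (d * q)) := by
          refine mul_le_mul ((pow_le_pow_right₀ (by linarith) (by omega)).trans hHd) ?_ (by positivity) hH0.le
          exact mul_le_mul_of_nonneg_left (pow_le_pow_left₀ (by positivity) (mul_le_mul_of_nonneg_right hH2 hH0.le) _) hH0.le
      _ = H ^ e := by
          rw [he, pow_add, pow_mul]
          ring_nf
  intro z hz lam hlam b G hG u hu
  have hdetI : ∀ j, gI (k := k) j 0 * gI (k := k) j 3 - gI (k := k) j 1 * gI (k := k) j 2 ≠ 0 := fun j => by simp [gI]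
  have hx0 : ∀ j, ((gI (k := k) j 2 : ℂ) * z j + gI (k := k) j 3) * n5 z lam (j, 0) = gI (k := k) j 0 * z j + gI (k := k) j 1 := by
    intro j
    have : n5 z lam (j, 0) = z j := rfl
    rw [this]
    simp [gI]
  have hmob := fun l => mob_bd hH2 (hz (b l)).1 (hz (b l)).2.2.1 (hz (b l)).2.2.2 (hG l).1 (hG l).2 (hu l)
  have hden : ‖∏ l, ((G l 2 : ℂ) * n5 z lam (b l, 0) + G l 3) ^ d‖ ≤ H ^ (3 * (d * n)) := by
    rw [norm_prod]
    calc _ ≤ ∏ _l : Fin n, (H ^ 3) ^ d := by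
          refine Finset.prod_le_prod (fun _ _ => norm_nonneg _) fun l _ => ?_
          rw [norm_pow]
          exact pow_le_pow_left₀ (norm_nonneg _) (hmob l).2.1 _
      _ = _ := by
          rw [Finset.prod_const, Finset.card_univ, Fintype.card_fin, ← pow_mul, ← pow_mul]
  refine ⟨fun K _ hK P hPd hPH hw => ?_, fun P hPd hPH x v μ hv => ?_⟩
  · -- the measure
    set Q : MvPolynomial ((Fin k × Fin 4) ⊕ Fin 1) K := clr d (NI K (Fin 1) b G) (MI K (Fin 1) b G) (MvPolynomial.rename r1 P) with hQ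
    have hPr : (MvPolynomial.rename r1 P).totalDegree ≤ d := (MvPolynomial.totalDegree_rename_le _ _).trans hPd
    have hQe : ∀ (x : Fin k → ℂ) (v : Fin n → ℂ) (μ : Fin k → ℂ) (θ : ℂ) (w : Fin k × Fin 4 → ℂ),
        (∀ l, ((G l 2 : ℂ) * x (b l) + G l 3) * v l = G l 0 * x (b l) + G l 1) → (∀ j, w (j, 0) = x j) → (∀ j, w (j, 3) = μ j) →
        MvPolynomial.aeval (Sum.elim w (fun _ : Fin 1 => θ)) Q = (∏ l, ((G l 2 : ℂ) * w (b l, 0) + G l 3) ^ d) *
          MvPolynomial.aeval (fun o : Option (Fin n ⊕ Fin k) => o.elim θ (Sum.elim v μ)) P := by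
      intro x v μ θ w hv hw0 hw3
      rw [← r1_comp, ← MvPolynomial.aeval_rename, MvPolynomial.aeval_def, MvPolynomial.aeval_def, ← MI_prod (algebraMap K ℂ) b G w
        (fun _ : Fin 1 => θ) d]
      exact clr_eval (algebraMap K ℂ) hPr w (fun _ => θ) (Sum.elim v μ) (NI_eq (algebraMap K ℂ) hv μ w hw0 hw3 _)
    have hQ0 : Q ≠ 0 := by
      obtain ⟨x, v, μ, θ, hv, hne⟩ := hw
      intro h0
      have h1 := hQe x v μ θ (fun p => (![x p.1, 0, 0, μ p.1] : Fin 4 → ℂ) p.2) hv (fun _ => rfl) fun _ => rfl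
      rw [h0, map_zero] at h1
      rcases mul_eq_zero.1 h1.symm with h2 | h2
      · obtain ⟨l, -, hl⟩ := Finset.prod_eq_zero_iff.1 h2
        have h3 := den_inv (hG l).2 (hv l) (hG l).1 (X := ‖v l‖) le_rfl
        have h4 : (G l 2 : ℂ) * x (b l) + G l 3 = 0 := eq_zero_of_pow_eq_zero hl
        rw [h4, norm_zero, mul_zero] at h3
        linarith
      · exact hne h2
    have hQH : House K (H ^ e) Q := by
      have h1 := clr_house K d (NI K (Fin 1) b G) (MI K (Fin 1) b G) (by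
        rintro (l | i) e
        · exact lin_int K _ _ _ e
        · exact X_int K _ e) (by
        rintro (l | i) e
        · exact lin_int K _ _ _ e
        · exact one_int K e) (Λ := 2 * H) (by linarith) (fun σ v => by
        rw [NI_map]
        rcases v with l | i
        · exact lin_len _ _ _ _ (by rw [Complex.norm_intCast]; exact (hG l).1 0) (by rw [Complex.norm_intCast]; exact (hG l).1 1)
        · show len (MvPolynomial.X (Sum.inl (i, 3)) : MvPolynomial ((Fin k × Fin 4) ⊕ Fin 1) ℂ) ≤ _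
          rw [len_X]
          linarith) (fun σ v => by
        rw [MI_map]
        rcases v with l | i
        · exact lin_len _ _ _ _ (by rw [Complex.norm_intCast]; exact (hG l).1 2) (by rw [Complex.norm_intCast]; exact (hG l).1 3)
        · show len (1 : MvPolynomial ((Fin k × Fin 4) ⊕ Fin 1) ℂ) ≤ _
          rw [len_one]
          linarith) (MvPolynomial.rename r1 P) (hPH.rename r1_inj)
      refine h1.mono ?_
      have h2 := hht (Fintype.card (Fin 1)) (by rw [Fintype.card_fin]; exact hcard1)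
      rw [← hq]
      exact h2
    have h2 := hmk z (fun j => (hz j).1) (fun j => (hz j).2.1) (fun j => (hz j).2.2.1.trans hHe)
      (fun j => (hz j).2.2.2.trans (mul_le_mul_of_nonneg_right hHe (hz j).1.le)) gI (fun j i => gI_le (hH1.trans hHe) j i) hdetI
      lam (fun j => (hlam j).1) (fun j => (hlam j).2.trans hHe) (n5 z lam) hx0 (fun _ => rfl) (fun _ => rfl) (fun _ => rfl) K hK
      (MvPolynomial.rename r2 Q) (fun h0 => hQ0 ((MvPolynomial.rename_injective _ r2_inj) (h0.trans (map_zero _).symm)))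
      ((MvPolynomial.totalDegree_rename_le _ _).trans ((clr_deg (NI_deg b G) (MI_deg b G)).trans (by
        rw [hd₁, ← hq, Fintype.card_fin]
        have := Nat.mul_le_mul_right d hcard1
        omega))) (hQH.rename r2_inj)
    rw [MvPolynomial.aeval_rename, r2_comp, hQe z u lam tpi (n5 z lam) hu (fun _ => rfl) (fun _ => rfl), norm_mul] at h2
    refine h2.trans ?_
    rw [← pow_mul, ← mul_assoc]
    refine mul_le_mul_of_nonneg_right ?_ (norm_nonneg _)
    refine (mul_le_mul_of_nonneg_left hden (by positivity)).trans ?_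
    rw [← pow_add]
    exact pow_le_pow_right₀ hH1 (by omega)
  · -- the transfer
    set Q : MvPolynomial ((Fin k × Fin 4) ⊕ Cs g k) ℤ := clr d (NI ℤ (Cs g k) b G) (MI ℤ (Cs g k) b G) P with hQ
    have hQe : ∀ (x : Fin k → ℂ) (v : Fin n → ℂ) (μ : Fin k → ℂ) (w : Fin k × Fin 4 → ℂ),
        (∀ l, ((G l 2 : ℂ) * x (b l) + G l 3) * v l = G l 0 * x (b l) + G l 1) → (∀ j, w (j, 0) = x j) → (∀ j, w (j, 3) = μ j) →
        MvPolynomial.aeval (Sum.elim w (cv ζ α)) Q = (∏ l, ((G l 2 : ℂ) * w (b l, 0) + G l 3) ^ d) *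
          MvPolynomial.aeval (Sum.elim (Sum.elim v μ) (cv ζ α)) P := by
      intro x v μ w hv hw0 hw3
      rw [MvPolynomial.aeval_def, MvPolynomial.aeval_def, ← MI_prod (algebraMap ℤ ℂ) b G w (cv ζ α) d]
      exact clr_eval (algebraMap ℤ ℂ) hPd w (cv ζ α) (Sum.elim v μ) (NI_eq (algebraMap ℤ ℂ) hv μ w hw0 hw3 _)
    have hQH : ∀ e', |((Q.coeff e' : ℤ) : ℝ)| ≤ H ^ e := by
      intro e'
      have h1 : |((Q.coeff e' : ℤ) : ℝ)| = ‖(MvPolynomial.map (Int.castRingHom ℂ) Q).coeff e'‖ := by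
        rw [MvPolynomial.coeff_map]
        show _ = ‖((Q.coeff e' : ℤ) : ℂ)‖
        rw [Complex.norm_intCast]
      rw [h1, hQ, clr_map]
      refine (norm_coeff_le_len _ _).trans ((clr_len (Λ := 2 * H) (by linarith) (fun v => ?_) (fun v => ?_) (H := H) fun e' => ?_).trans
        (hht _ le_rfl))
      · rw [NI_map]
        rcases v with l | i
        · exact lin_len _ _ _ _ (by rw [Complex.norm_intCast]; exact (hG l).1 0) (by rw [Complex.norm_intCast]; exact (hG l).1 1)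
        · show len (MvPolynomial.X (Sum.inl (i, 3)) : MvPolynomial ((Fin k × Fin 4) ⊕ Cs g k) ℂ) ≤ _
          rw [len_X]
          linarith
      · rw [MI_map]
        rcases v with l | i
        · exact lin_len _ _ _ _ (by rw [Complex.norm_intCast]; exact (hG l).1 2) (by rw [Complex.norm_intCast]; exact (hG l).1 3)
        · show len (1 : MvPolynomial ((Fin k × Fin 4) ⊕ Cs g k) ℂ) ≤ _
          rw [len_one]
          linarith
      · rw [MvPolynomial.coeff_map]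
        show ‖((P.coeff e' : ℤ) : ℂ)‖ ≤ H
        rw [Complex.norm_intCast]
        exact hPH e'
    obtain ⟨X, hX⟩ : ∃ X : ℝ, X = max 1 ‖(x, v, μ)‖ := ⟨_, rfl⟩
    have hX1 : 1 ≤ X := hX ▸ le_max_left _ _
    have hXn : ‖(x, v, μ)‖ ≤ X := hX ▸ le_max_right _ _
    have hxX : ∀ j, ‖x j‖ ≤ X := fun j => (norm_le_pi_norm x j).trans ((norm_fst_le _).trans hXn)
    have hvX : ∀ l, ‖v l‖ ≤ X := fun l => (norm_le_pi_norm v l).trans ((norm_fst_le (v, μ)).trans ((norm_snd_le _).trans hXn))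
    have hμX : ∀ j, ‖μ j‖ ≤ X := fun j => (norm_le_pi_norm μ j).trans ((norm_snd_le (v, μ)).trans ((norm_snd_le _).trans hXn))
    set w : Fin k × Fin 4 → ℂ := fun p => (![x p.1, 0, 0, μ p.1] : Fin 4 → ℂ) p.2 with hw
    have hwX : max 1 ‖w‖ ≤ X := by
      refine max_le hX1 ((pi_norm_le_iff_of_nonneg (by linarith)).2 ?_)
      rintro ⟨j, i⟩
      fin_cases i
      · exact hxX j
      · show ‖(0 : ℂ)‖ ≤ _
        rw [norm_zero]
        linarith
      · show ‖(0 : ℂ)‖ ≤ _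
        rw [norm_zero]
        linarith
      · exact hμX j
    have h2 := hnj z (fun j => (hz j).1) (fun j => (hz j).2.1) (fun j => (hz j).2.2.1.trans hHe)
      (fun j => (hz j).2.2.2.trans (mul_le_mul_of_nonneg_right hHe (hz j).1.le)) gI (fun j i => gI_le (hH1.trans hHe) j i) hdetI
      lam (fun j => (hlam j).1) (fun j => (hlam j).2.trans hHe) (n5 z lam) hx0 (fun _ => rfl) (fun _ => rfl) (fun _ => rfl)
      Q ((clr_deg (NI_deg b G) (MI_deg b G)).trans (by rw [hd₁, ← hq])) hQH w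
    rw [hQe z u lam (n5 z lam) hu (fun _ => rfl) (fun _ => rfl), hQe x v μ w hv (fun _ => rfl) (fun _ => rfl), norm_mul,
      norm_mul] at h2
    have h3 : (1 : ℝ) ≤ (H * X) ^ (2 * (d * n)) * ‖∏ l, ((G l 2 : ℂ) * w (b l, 0) + G l 3) ^ d‖ := by
      rw [norm_prod]
      calc (1 : ℝ) = ∏ _l : Fin n, (1 : ℝ) := by simp
        _ ≤ ∏ l : Fin n, ((H * X) ^ (2 * d) * ‖((G l 2 : ℂ) * w (b l, 0) + G l 3) ^ d‖) := by
            refine Finset.prod_le_prod (fun _ _ => zero_le_one) fun l _ => ?_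
            have h4 := den_inv (hG l).2 (hv l) (hG l).1 (hvX l)
            have h5 : H * (1 + X) ≤ (H * X) ^ 2 := by
              have h6 : 1 + X ≤ 2 * X := by linarith
              have h7 : H * (1 + X) ≤ H * (2 * X) := mul_le_mul_of_nonneg_left h6 hH0.le
              have h8 : H * (2 * X) ≤ H * (H * X) := mul_le_mul_of_nonneg_left (mul_le_mul_of_nonneg_right hH2 (by linarith)) hH0.le
              have h9 : H * (H * X) ≤ X * (H * (H * X)) := le_mul_of_one_le_left (by positivity) hX1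
              calc _ ≤ X * (H * (H * X)) := h7.trans (h8.trans h9)
                _ = _ := by ring
            rw [norm_pow, pow_mul, ← mul_pow]
            refine one_le_pow₀ (h4.trans (mul_le_mul_of_nonneg_right h5 (norm_nonneg _)))
        _ = _ := by
            rw [Finset.prod_mul_distrib, Finset.prod_const, Finset.card_univ, Fintype.card_fin, ← pow_mul]
            congr 2
            ring
    rw [← hX]
    obtain ⟨Y, hY⟩ : ∃ Y : ℝ, Y = ‖MvPolynomial.aeval (Sum.elim (Sum.elim u lam) (cv ζ α)) P‖ := ⟨_, rfl⟩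
    have hY0 : 0 ≤ Y := hY ▸ norm_nonneg _
    rw [← hY] at h2 ⊢
    have hHX : 1 ≤ H * X := by nlinarith
    calc ‖MvPolynomial.aeval (Sum.elim (Sum.elim v μ) (cv ζ α)) P‖
        ≤ ((H * X) ^ (2 * (d * n)) * ‖∏ l, ((G l 2 : ℂ) * w (b l, 0) + G l 3) ^ d‖) *
          ‖MvPolynomial.aeval (Sum.elim (Sum.elim v μ) (cv ζ α)) P‖ := le_mul_of_one_le_left (norm_nonneg _) h3
      _ = (H * X) ^ (2 * (d * n)) * (‖∏ l, ((G l 2 : ℂ) * w (b l, 0) + G l 3) ^ d‖ *
          ‖MvPolynomial.aeval (Sum.elim (Sum.elim v μ) (cv ζ α)) P‖) := by ring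
      _ ≤ (H * X) ^ (2 * (d * n)) * ((H ^ e * max 1 ‖w‖) ^ B₀ * (‖∏ l, ((G l 2 : ℂ) * n5 z lam (b l, 0) + G l 3) ^ d‖ * Y)) :=
          mul_le_mul_of_nonneg_left h2 (by positivity)
      _ ≤ (H * X) ^ (2 * (d * n)) * (((H * X) ^ e) ^ B₀ * ((H * X) ^ (3 * (d * n)) * Y)) := by
          refine mul_le_mul_of_nonneg_left (mul_le_mul ?_ ?_ (by positivity) (by positivity)) (by positivity)
          · refine pow_le_pow_left₀ (by positivity) ?_ _
            rw [mul_pow]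
            refine mul_le_mul_of_nonneg_left (hwX.trans (le_self_pow₀ hX1 (by omega))) (by positivity)
          · refine mul_le_mul_of_nonneg_right (hden.trans (pow_le_pow_left₀ hH0.le ?_ _)) hY0
            exact le_mul_of_one_le_right hH0.le hX1
      _ = (H * X) ^ (e * B₀ + 5 * (d * n)) * Y := by
          rw [← pow_mul, show e * B₀ + 5 * (d * n) = 2 * (d * n) + (e * B₀ + 3 * (d * n)) by ring, pow_add, pow_add]
          ring

end Pool.Agent.Q189.JM
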