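import Pool.Agent.Q189.JM.Trn

/-!
# The jets of the modular invariant
-/

set_option autoImplicit false

open PowerSeries Pool.Agent.Y120.J Pool.Agent.Y120.K Pool.Agent.Y120.A
open Pool.Agent.Q246.NR Pool.Agent.Q246.NR2 Pool.Agent.Q189.MF
open Pool.Agent.TH21.MS (jj)

namespace Pool.Agent.Q189.JM

theorem FF0 : coeff 0 FF = 1 := by
  unfold FF
  rw [coeff_zero_eq_constantCoeff_apply, map_mul, ← coeff_zero_eq_constantCoeff_apply, ← coeff_zero_eq_constantCoeff_apply,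
    coeff_mk, coeff_mk]
  simp [fu, fa]

/-- the first function is not small -/
theorem evc_F : ∃ R : ℕ, ∀ α : ℂ, (R : ℝ) < ‖α‖ → 1 / 2 ≤ ‖Pool.Agent.Y916.Al.evc (1 / α) FF‖ := by
  obtain ⟨C, hC, h⟩ := sizeJ1
  obtain ⟨R, hR⟩ := exists_nat_ge (4 * C ^ 2)
  refine ⟨R, fun α hα => ?_⟩
  have hC2 : C ≤ C ^ 2 := le_self_pow₀ hC (by norm_num)
  have hα1 : 4 * C ^ 2 ≤ ‖α‖ := by linarith
  have hα0 : 0 < ‖α‖ := by nlinarith
  obtain ⟨q, hq⟩ : ∃ q : ℝ, q = 1 / ‖α‖ := ⟨_, rfl⟩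
  have hq0 : 0 ≤ q := by rw [hq]; positivity
  have hq1 : C * q ≤ 1 / 2 := by
    rw [hq, mul_one_div, div_le_div_iff₀ hα0 (by norm_num)]
    linarith
  have hq2 : C * (C * q) ≤ 1 / 4 := by
    rw [hq, ← mul_assoc, mul_one_div, div_le_div_iff₀ hα0 (by norm_num)]
    nlinarith
  have hnx : ‖1 / α‖ = q := by rw [norm_div, norm_one, hq]
  have hb : ∀ m, ‖((coeff m FF : ℚ) : ℂ) * (1 / α) ^ m‖ ≤ C * (1 / 2) ^ m := by
    intro m
    rw [norm_mul, norm_pow, hnx, Complex.norm_ratCast]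
    calc _ ≤ C ^ (m + 1) * q ^ m := mul_le_mul_of_nonneg_right (h 0 m) (by positivity)
      _ = C * (C * q) ^ m := by rw [pow_succ, mul_pow]; ring
      _ ≤ _ := mul_le_mul_of_nonneg_left (pow_le_pow_left₀ (by positivity) hq1 m) (by linarith)
  have hsum : Summable fun m => ((coeff m FF : ℚ) : ℂ) * (1 / α) ^ m :=
    Summable.of_norm_bounded (g := fun m => C * (1 / 2) ^ m) (summable_geometric_two.mul_left C) hb
  have h1 : Pool.Agent.Y916.Al.evc (1 / α) FF = 1 + ∑' m : ℕ, ((coeff (m + 1) FF : ℚ) : ℂ) * (1 / α) ^ (m + 1) := by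
    unfold Pool.Agent.Y916.Al.evc
    rw [hsum.tsum_eq_zero_add, FF0, pow_zero, Rat.cast_one, mul_one]
  have h2 : ‖∑' m : ℕ, ((coeff (m + 1) FF : ℚ) : ℂ) * (1 / α) ^ (m + 1)‖ ≤ 1 / 4 * 2 := by
    refine tsum_of_norm_bounded (hasSum_geometric_two.mul_left (1 / 4)) fun m => ?_
    rw [norm_mul, norm_pow, hnx, Complex.norm_ratCast]
    calc _ ≤ C ^ (m + 1 + 1) * q ^ (m + 1) := mul_le_mul_of_nonneg_right (h 0 (m + 1)) (by positivity)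
      _ = (C * (C * q)) * (C * q) ^ m := by
          rw [pow_succ, pow_succ, pow_succ, mul_pow]
          ring
      _ ≤ 1 / 4 * (1 / 2) ^ m := mul_le_mul hq2 (pow_le_pow_left₀ (by positivity) hq1 m) (by positivity) (by norm_num)
  rw [h1]
  have h3 := norm_sub_norm_le (1 : ℂ) (-∑' m : ℕ, ((coeff (m + 1) FF : ℚ) : ℂ) * (1 / α) ^ (m + 1))
  rw [sub_neg_eq_add, norm_neg, norm_one] at h3
  linarith

/-- the points with a large invariant are equivalent to points in the fundamental domain with a large imaginary part -/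
theorem fdz (Y : ℝ) : ∃ B : ℝ, ∀ z : UpperHalfPlane, B ≤ ‖jj z‖ →
    ∃ (γ : Matrix.SpecialLinearGroup (Fin 2) ℤ) (w : UpperHalfPlane), Y ≤ w.im ∧ |w.re| ≤ 1 / 2 ∧ z = γ • w ∧ jj w = jj z := by
  obtain ⟨B, hB⟩ := Pool.Agent.Y988.J.bound (max Y 1)
  refine ⟨B + 1, fun z hz => ?_⟩
  obtain ⟨γ, hγ⟩ := ModularGroup.exists_smul_mem_fd z
  obtain ⟨w, hw⟩ : ∃ w : UpperHalfPlane, w = γ • z := ⟨_, rfl⟩
  rw [← hw] at hγ
  have hjw : jj w = jj z := by rw [hw, Pool.Agent.Y988.J.jj_inv]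
  have him : 1 / 2 ≤ w.im := by
    have h1 := ModularGroup.three_le_four_mul_im_sq_of_mem_fd hγ
    have h2 := w.im_pos
    nlinarith
  have hre : |w.re| ≤ 1 / 2 := hγ.2
  have hwY : max Y 1 < w.im := by
    by_contra hcon
    push Not at hcon
    have h1 := hB (w : ℂ) hre him hcon
    rw [hjw] at h1
    linarith
  exact ⟨γ⁻¹, w, (le_max_left _ _).trans hwY.le, hre, by rw [hw, inv_smul_smul], hjw⟩

variable {k : ℕ}

/-- near relations between the numbers at the points, in terms of the points -/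
def NJ {g : ℕ} (d B : ℕ) (ζ : Fin g → ℂ) (α : Fin k → ℂ) (H : ℝ) : Prop :=
  ∀ z : Fin k → ℂ, (∀ j, 0 < (z j).im) → (∀ j, jj (z j) = α j) → (∀ j, ‖z j‖ ≤ H) → (∀ j, 1 ≤ H * (z j).im) →
    ∀ G : Fin k → Fin 4 → ℤ, (∀ j i, |((G j i : ℤ) : ℝ)| ≤ H) → (∀ j, G j 0 * G j 3 - G j 1 * G j 2 ≠ 0) →
    ∀ lam : Fin k → ℂ, (∀ j, Complex.exp (lam j) = α j) → (∀ j, ‖lam j‖ ≤ H) →
    ∀ x : Fin k × Fin 4 → ℂ, (∀ j, ((G j 2 : ℂ) * z j + G j 3) * x (j, 0) = G j 0 * z j + G j 1) →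
    (∀ j, x (j, 1) = deriv jj (z j)) → (∀ j, x (j, 2) = deriv (deriv jj) (z j)) → (∀ j, x (j, 3) = lam j) →
    ∀ P : MvPolynomial ((Fin k × Fin 4) ⊕ Cs g k) ℤ, P.totalDegree ≤ d → (∀ e, |((P.coeff e : ℤ) : ℝ)| ≤ H) →
    ∀ w : Fin k × Fin 4 → ℂ, ‖MvPolynomial.aeval (Sum.elim w (cv ζ α)) P‖ ≤
      (H * max 1 ‖w‖) ^ B * ‖MvPolynomial.aeval (Sum.elim x (cv ζ α)) P‖

/-- the data of one point -/
theorem one_pt : ∃ R : ℕ, 1 ≤ R ∧ ∀ T : ℕ, 1 ≤ T → ∃ H₀ : ℝ, ∀ (α : ℂ) (H : ℝ), H₀ ≤ H → ‖α‖ ≤ T → (R : ℝ) < ‖α‖ →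
    ∀ z : ℂ, 0 < z.im → jj z = α → ‖z‖ ≤ H → 1 ≤ H * z.im → ∀ G : Fin 4 → ℤ, (∀ i, |((G i : ℤ) : ℝ)| ≤ H) →
    G 0 * G 3 - G 1 * G 2 ≠ 0 → ∀ lam : ℂ, Complex.exp lam = α → ‖lam‖ ≤ H →
    ∀ x : Fin 4 → ℂ, ((G 2 : ℂ) * z + G 3) * x 0 = G 0 * z + G 1 → x 1 = deriv jj z → x 2 = deriv (deriv jj) z → x 3 = lam →
    ∃ (D : Fin 7 → ℤ) (ℓ : ℂ), (∀ i, |((D i : ℤ) : ℝ)| ≤ H ^ 5) ∧ D 0 * D 3 - D 1 * D 2 ≠ 0 ∧ (D 4 ≠ 0 ∨ D 5 ≠ 0) ∧
      Complex.exp ℓ = α ∧ ‖ℓ‖ ≤ H ∧ ∀ i, mvv D (Zw fun o => o.elim ℓ fun i => Pool.Agent.Y916.Al.evc (1 / α) (hJ i)) i * x i =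
        nvv α D (Zw fun o => o.elim ℓ fun i => Pool.Agent.Y916.Al.evc (1 / α) (hJ i)) ℓ i := by
  obtain ⟨Y, hY1, hY⟩ := hanc
  obtain ⟨B₀, hB₀⟩ := fdz Y
  obtain ⟨R₁, C₀, hC₀, hR₁, hval⟩ := evc_bd
  obtain ⟨R₂, hF⟩ := evc_F
  obtain ⟨R₃, hR₃⟩ := exists_nat_ge B₀
  refine ⟨max (max R₁ R₂) R₃, hR₁.trans ((le_max_left _ _).trans (le_max_left _ _)), fun T hT => ?_⟩
  have hTR : (1 : ℝ) ≤ T := by exact_mod_cast hT
  have hlT : 0 ≤ Real.log T := Real.log_nonneg hTR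
  obtain ⟨CT, hCT⟩ : ∃ CT : ℝ, CT = Real.log T + 2 * C₀ + 1 := ⟨_, rfl⟩
  have hCT1 : 1 ≤ CT := by rw [hCT]; linarith
  refine ⟨10 * CT + 10, fun α H hH hαT hαR z hz hjz hzH hzi G hG hdet lam hlam hlamH x hx0 hx1 hx2 hx3 => ?_⟩
  have hα1 : (R₁ : ℝ) < ‖α‖ := lt_of_le_of_lt (by exact_mod_cast (le_max_left _ _).trans (le_max_left _ _)) hαR
  have hα2 : (R₂ : ℝ) < ‖α‖ := lt_of_le_of_lt (by exact_mod_cast (le_max_right _ _).trans (le_max_left _ _)) hαR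
  have hα3 : B₀ ≤ ‖α‖ := hR₃.trans ((by exact_mod_cast le_max_right _ _ : (R₃ : ℝ) ≤ ((max (max R₁ R₂) R₃ : ℕ) : ℝ)).trans hαR.le)
  have hH20 : 20 ≤ H := by linarith
  have hH1 : 1 ≤ H := by linarith
  have hH0 : 0 < H := by linarith
  have hCTH : 10 * CT ≤ H := by linarith
  obtain ⟨γ, w, hwY, hwre, hzw, hjw⟩ := hB₀ ⟨z, hz⟩ (by
    show B₀ ≤ ‖jj z‖
    rw [hjz]
    exact hα3)
  have hjw' : jj w = α := by
    rw [hjw]
    exact hjz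
  obtain ⟨-, -, hF0, hd1, hd2, hexp⟩ := hY w hwY
  rw [hjw'] at hF0 hd1 hd2 hexp
  -- the values
  obtain ⟨F, hFd⟩ : ∃ F : ℂ, F = evc FF (1 / α) := ⟨_, rfl⟩
  obtain ⟨Gv, hGd⟩ : ∃ Gv : ℂ, Gv = evc GG (1 / α) := ⟨_, rfl⟩
  obtain ⟨F', hF'd⟩ : ∃ F' : ℂ, F' = evc F1 (1 / α) := ⟨_, rfl⟩
  rw [← hFd] at hF0 hd1 hd2 hexp
  rw [← hGd] at hexp
  rw [← hF'd] at hd2
  have hFn : 1 / 2 ≤ ‖F‖ := by rw [hFd]; exact hF α hα2
  have hGn : ‖Gv‖ ≤ C₀ := by rw [hGd]; exact hval α hα1 1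
  have hGF : ‖Gv / F‖ ≤ 2 * C₀ := by
    rw [norm_div, div_le_iff₀ (by linarith)]
    nlinarith
  obtain ⟨ℓ, hℓ⟩ : ∃ ℓ : ℂ, ℓ = Gv / F - tpi * (w : ℂ) := ⟨_, rfl⟩
  have hexpℓ : Complex.exp ℓ = α := by
    have h2 : ℓ = -(tpi * (w : ℂ) - Gv / F) := by
      rw [hℓ]
      ring
    rw [h2, Complex.exp_neg, hexp, one_div, inv_inv]
  -- the imaginary part of `w`
  have hw0 := w.im_pos
  have hwim : (w : ℂ).im = w.im := rfl
  have hwre' : (w : ℂ).re = w.re := rfl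
  have hre : ℓ.re = (Gv / F).re + 2 * Real.pi * w.im := by
    have h3 : (tpi * (w : ℂ)).re = -(2 * Real.pi * w.im) := by
      have h4 : tpi = 2 * (Real.pi : ℂ) * Complex.I := rfl
      rw [h4]
      simp
    rw [hℓ, Complex.sub_re, h3]
    ring
  have hlog : ℓ.re = Real.log ‖α‖ := by
    rw [← hexpℓ, Complex.norm_exp, Real.log_exp]
  have hαp : 0 < ‖α‖ := by
    have : (1 : ℝ) ≤ R₁ := by exact_mod_cast hR₁
    linarith
  have hlogT : Real.log ‖α‖ ≤ Real.log T := Real.log_le_log hαp hαT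
  have hreGF : |(Gv / F).re| ≤ 2 * C₀ := (Complex.abs_re_le_norm _).trans hGF
  have hpi := Real.pi_gt_three
  have hwCT : w.im ≤ CT := by
    have h5 : 2 * Real.pi * w.im ≤ Real.log T + 2 * C₀ := by
      have := neg_abs_le (Gv / F).re
      linarith
    have h6 : w.im ≤ 2 * Real.pi * w.im := by nlinarith
    rw [hCT]
    linarith
  have hwn : ‖(w : ℂ)‖ ≤ CT + 1 := by
    refine (Complex.norm_le_abs_re_add_abs_im _).trans ?_
    rw [hwre', hwim, abs_of_pos hw0]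
    linarith
  have hℓH : ‖ℓ‖ ≤ H := by
    rw [hℓ]
    refine (norm_sub_le _ _).trans ?_
    have h7 : ‖tpi * (w : ℂ)‖ ≤ 7 * (CT + 1) := by
      rw [norm_mul]
      exact mul_le_mul tpi_le hwn (norm_nonneg _) (by norm_num)
    have h8 : 2 * C₀ ≤ CT := by rw [hCT]; linarith
    linarith
  -- the shift
  obtain ⟨n, hn⟩ := Complex.exp_eq_exp_iff_exists_int.1 (hlam.trans hexpℓ.symm)
  have hnH : |((n : ℤ) : ℝ)| ≤ H := by
    have h9 : (n : ℂ) * tpi = lam - ℓ := by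
      rw [hn]
      show (n : ℂ) * (2 * (Real.pi : ℂ) * Complex.I) = _
      ring
    have h10 : |((n : ℤ) : ℝ)| * ‖(tpi : ℂ)‖ ≤ H + H := by
      rw [← Complex.norm_intCast, ← norm_mul, h9]
      exact (norm_sub_le _ _).trans (add_le_add hlamH hℓH)
    rw [tpi_norm] at h10
    have h11 : 2 * |((n : ℤ) : ℝ)| ≤ |((n : ℤ) : ℝ)| * (2 * Real.pi) := by
      have := abs_nonneg ((n : ℤ) : ℝ)
      nlinarith
    linarith
  -- the matrix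
  obtain ⟨ga, hga⟩ : ∃ a : ℤ, a = γ 0 0 := ⟨_, rfl⟩
  obtain ⟨gb, hgb⟩ : ∃ a : ℤ, a = γ 0 1 := ⟨_, rfl⟩
  obtain ⟨gc, hgc⟩ : ∃ a : ℤ, a = γ 1 0 := ⟨_, rfl⟩
  obtain ⟨gd, hgd⟩ : ∃ a : ℤ, a = γ 1 1 := ⟨_, rfl⟩
  have hγdet : ga * gd - gb * gc = 1 := by
    have h1 := γ.det_coe
    rw [Matrix.det_fin_two] at h1
    rw [hga, hgb, hgc, hgd]
    exact h1
  have hzc := Pool.Agent.Y508.J.coe_smul_eq γ w
  have hne := Pool.Agent.Y508.J.den_ne γ w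
  rw [← hzw, ← hga, ← hgb, ← hgc, ← hgd] at hzc
  rw [← hgc, ← hgd] at hne
  have hzc' : z = ((ga : ℂ) * w + gb) / ((gc : ℂ) * w + gd) := hzc
  have himz : z.im = w.im / Complex.normSq ((gc : ℂ) * w + gd) := by
    have h1 := ModularGroup.im_smul_eq_div_normSq γ w
    rw [← hzw, ModularGroup.denom_apply, ← hgc, ← hgd] at h1
    exact h1
  obtain ⟨U, hU⟩ : ∃ U : ℂ, U = (gc : ℂ) * w + gd := ⟨_, rfl⟩
  rw [← hU] at hzc' himz hne
  have hUn0 : 0 < ‖U‖ := norm_pos_iff.2 hne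
  have hUn : ‖U‖ ≤ H := by
    have h1 : ‖U‖ ^ 2 ≤ H ^ 2 := by
      rw [Complex.normSq_eq_norm_sq] at himz
      have h2 : z.im * ‖U‖ ^ 2 = w.im := by
        rw [himz]
        field_simp
      have h3 : ‖U‖ ^ 2 ≤ H * (z.im * ‖U‖ ^ 2) := by
        have : 0 ≤ ‖U‖ ^ 2 := by positivity
        nlinarith
      rw [h2] at h3
      nlinarith
    exact (pow_le_pow_iff_left₀ (norm_nonneg _) hH0.le (by norm_num)).1 h1
  obtain ⟨V, hV⟩ : ∃ V : ℂ, V = (ga : ℂ) * w + gb := ⟨_, rfl⟩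
  rw [← hV] at hzc'
  have hVn : ‖V‖ ≤ H ^ 2 := by
    have h1 : V = z * U := by
      rw [hzc']
      field_simp
    rw [h1, norm_mul, pow_two]
    exact mul_le_mul hzH hUn (norm_nonneg _) hH0.le
  have hw1 : 1 ≤ w.im := hY1.trans hwY
  have himU : U.im = gc * w.im := by
    rw [hU]
    simp
  have himV : V.im = ga * w.im := by
    rw [hV]
    simp
  have hgcH : |((gc : ℤ) : ℝ)| ≤ H := by
    have h1 : |(gc : ℝ)| * w.im ≤ H := by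
      rw [← abs_of_pos hw0, ← abs_mul, ← himU]
      exact (Complex.abs_im_le_norm _).trans hUn
    have := abs_nonneg (gc : ℝ)
    nlinarith
  have hgaH : |((ga : ℤ) : ℝ)| ≤ H ^ 2 := by
    have h1 : |(ga : ℝ)| * w.im ≤ H ^ 2 := by
      rw [← abs_of_pos hw0, ← abs_mul, ← himV]
      exact (Complex.abs_im_le_norm _).trans hVn
    have := abs_nonneg (ga : ℝ)
    nlinarith
  have hH3 : H ^ 3 = H * H * H := by ring
  have hHH : 20 * H ≤ H * H := by nlinarith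
  have hHHH : 20 * (H * H) ≤ H * H * H := by nlinarith
  have hgdH : |((gd : ℤ) : ℝ)| ≤ H ^ 3 := by
    have h1 : (gd : ℂ) = U - gc * w := by
      rw [hU]
      ring
    rw [← Complex.norm_intCast, h1]
    refine (norm_sub_le _ _).trans ?_
    rw [norm_mul, Complex.norm_intCast]
    have h2 : |((gc : ℤ) : ℝ)| * ‖(w : ℂ)‖ ≤ H * H := mul_le_mul hgcH (hwn.trans (by linarith)) (norm_nonneg _) hH0.le
    rw [hH3]
    nlinarith
  have hgbH : |((gb : ℤ) : ℝ)| ≤ H ^ 3 := by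
    have h1 : (gb : ℂ) = V - ga * w := by
      rw [hV]
      ring
    rw [← Complex.norm_intCast, h1]
    refine (norm_sub_le _ _).trans ?_
    rw [norm_mul, Complex.norm_intCast]
    have h2 : |((ga : ℤ) : ℝ)| * ‖(w : ℂ)‖ ≤ H ^ 2 * (H / 2) := mul_le_mul hgaH (hwn.trans (by linarith)) (norm_nonneg _) (by positivity)
    have h3 : H ^ 2 * (H / 2) = H ^ 3 / 2 := by ring
    have h4 : H ^ 2 = H * H := by ring
    have h5 : H ^ 2 ≤ H ^ 3 / 2 := by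
      rw [h4, hH3]
      linarith
    linarith
  have hgc3 : |((gc : ℤ) : ℝ)| ≤ H ^ 3 := hgcH.trans (le_self_pow₀ hH1 (by norm_num))
  have hga3 : |((ga : ℤ) : ℝ)| ≤ H ^ 3 := hgaH.trans (pow_le_pow_right₀ hH1 (by norm_num))
  have hcomb : ∀ (p q r s : ℤ), |(p : ℝ)| ≤ H → |(q : ℝ)| ≤ H ^ 3 → |(r : ℝ)| ≤ H → |(s : ℝ)| ≤ H ^ 3 →
      |((p * q + r * s : ℤ) : ℝ)| ≤ H ^ 5 := by
    intro p q r s hp hq hr hs
    push_cast
    have h1 : |(p : ℝ) * q| ≤ H * H ^ 3 := by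
      rw [abs_mul]
      exact mul_le_mul hp hq (abs_nonneg _) hH0.le
    have h2 : |(r : ℝ) * s| ≤ H * H ^ 3 := by
      rw [abs_mul]
      exact mul_le_mul hr hs (abs_nonneg _) hH0.le
    calc _ ≤ H * H ^ 3 + H * H ^ 3 := (abs_add_le _ _).trans (add_le_add h1 h2)
      _ = 2 * (H * H ^ 3) := by ring
      _ ≤ H * (H * H ^ 3) := mul_le_mul_of_nonneg_right (by linarith) (by positivity)
      _ = _ := by ring
  have h5 : H ^ 3 ≤ H ^ 5 := pow_le_pow_right₀ hH1 (by norm_num)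
  have h15 : H ≤ H ^ 5 := le_self_pow₀ hH1 (by norm_num)
  -- the period functions
  set v : Option (Fin 4) → ℂ := fun o => o.elim ℓ fun i => Pool.Agent.Y916.Al.evc (1 / α) (hJ i) with hv
  have hZ : Zw v = ![tpi * F ^ 2, F * (Gv - ℓ * F), tpi * (F * F')] := by
    funext i
    rw [hFd, hGd, hF'd]
    fin_cases i <;> rfl
  have hZ0 : Zw v 0 ≠ 0 := by
    rw [hZ]
    exact mul_ne_zero Pool.Agent.Y120.K.tpi_ne (pow_ne_zero 2 hF0)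
  have hwZ : (w : ℂ) * Zw v 0 = Zw v 1 := by
    rw [hZ]
    show (w : ℂ) * (tpi * F ^ 2) = F * (Gv - ℓ * F)
    rw [hℓ]
    field_simp
    ring
  obtain ⟨hM, hpts⟩ := ptsC (Z := Zw v) (w := w) (t := α) hZ0 hwZ (by
    rw [hZ]
    show deriv jj w = -α * (tpi * F ^ 2)
    rw [hd1]
    ring) (by
    rw [hZ]
    show deriv (deriv jj) w = α * ((tpi * F ^ 2) ^ 2 - 2 * (tpi * F ^ 2) * (tpi * (F * F')))
    rw [hd2]
    ring) γ hzw
  rw [← hgc, ← hgd] at hM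
  rw [← hga, ← hgb, ← hgc, ← hgd] at hpts
  have hdetM : (G 0 * ga + G 1 * gc) * (G 2 * gb + G 3 * gd) - (G 0 * gb + G 1 * gd) * (G 2 * ga + G 3 * gc) =
      G 0 * G 3 - G 1 * G 2 := by
    linear_combination (G 0 * G 3 - G 1 * G 2) * hγdet
  refine ⟨![G 0 * ga + G 1 * gc, G 0 * gb + G 1 * gd, G 2 * ga + G 3 * gc, G 2 * gb + G 3 * gd, gc, gd, n], ℓ, ?_, ?_, ?_, hexpℓ,
    hℓH, ?_⟩
  · intro i
    fin_cases i
    · exact hcomb _ _ _ _ (hG 0) hga3 (hG 1) hgc3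
    · exact hcomb _ _ _ _ (hG 0) hgbH (hG 1) hgdH
    · exact hcomb _ _ _ _ (hG 2) hga3 (hG 3) hgc3
    · exact hcomb _ _ _ _ (hG 2) hgbH (hG 3) hgdH
    · exact hgc3.trans h5
    · exact hgdH.trans h5
    · exact hnH.trans h15
  · show (G 0 * ga + G 1 * gc) * (G 2 * gb + G 3 * gd) - (G 0 * gb + G 1 * gd) * (G 2 * ga + G 3 * gc) ≠ 0
    rw [hdetM]
    exact hdet
  · show gc ≠ 0 ∨ gd ≠ 0
    by_contra hcon
    push Not at hcon
    rw [hcon.1, hcon.2] at hγdet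
    simp at hγdet
  · intro i
    fin_cases i
    · show (((G 2 * ga + G 3 * gc : ℤ) : ℂ) * Zw v 1 + ((G 2 * gb + G 3 * gd : ℤ) : ℂ) * Zw v 0) * x 0 =
        ((G 0 * ga + G 1 * gc : ℤ) : ℂ) * Zw v 1 + ((G 0 * gb + G 1 * gd : ℤ) : ℂ) * Zw v 0
      have hzZ : z * U = V := by
        rw [hzc']
        field_simp
      rw [← hwZ]
      push_cast
      have e1 : ((G 2 : ℂ) * ga + G 3 * gc) * (w * Zw v 0) + ((G 2 : ℂ) * gb + G 3 * gd) * Zw v 0 =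
          (G 2 * V + G 3 * U) * Zw v 0 := by
        rw [hV, hU]
        ring
      have e2 : ((G 0 : ℂ) * ga + G 1 * gc) * (w * Zw v 0) + ((G 0 : ℂ) * gb + G 1 * gd) * Zw v 0 =
          (G 0 * V + G 1 * U) * Zw v 0 := by
        rw [hV, hU]
        ring
      rw [e1, e2, ← hzZ]
      linear_combination (U * Zw v 0) * hx0
    · show Zw v 0 * x 1 = -α * ((gc : ℂ) * Zw v 1 + gd * Zw v 0) ^ 2
      have h1 := hpts 1
      have h2 : jt z 1 = deriv jj z := rfl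
      have h3 : jt ((⟨z, hz⟩ : UpperHalfPlane) : ℂ) 1 = jt z 1 := rfl
      have h4 := hM 1
      rw [h3, h2, ← hx1, eq_div_iff h4] at h1
      rw [mul_comm]
      exact h1
    · show Zw v 0 ^ 3 * x 2 = α * ((gc : ℂ) * Zw v 1 + gd * Zw v 0) ^ 3 * (((gc : ℂ) * Zw v 1 + gd * Zw v 0) *
        (Zw v 0 - 2 * Zw v 2) - 2 * (gc : ℂ) * Zw v 0)
      have h1 := hpts 2
      have h2 : jt z 2 = deriv (deriv jj) z := rfl
      have h3 : jt ((⟨z, hz⟩ : UpperHalfPlane) : ℂ) 2 = jt z 2 := rfl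
      have h4 := hM 2
      rw [h3, h2, ← hx2, eq_div_iff h4] at h1
      rw [mul_comm]
      exact h1
    · show 1 * x 3 = ℓ + (n : ℂ) * tpi
      rw [hx3, hn, one_mul]
      rfl

/-- near relations for the points -/
theorem jet : ∃ R : ℕ, 1 ≤ R ∧ ∀ T : ℕ, 1 ≤ T → ∃ H₀ : ℝ, ∀ (α : Fin k → ℂ) (H : ℝ), H₀ ≤ H → (∀ j, ‖α j‖ ≤ T) →
    (∀ j, (R : ℝ) < ‖α j‖) → ∀ (g d B : ℕ) (ζ : Fin g → ℂ), TJ d B ζ α H → NJ d B ζ α H := by
  obtain ⟨R, hR1, h⟩ := one_pt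
  refine ⟨R, hR1, fun T hT => ?_⟩
  obtain ⟨H₀, hH₀⟩ := h T hT
  refine ⟨H₀, fun α H hH hαT hαR g d B ζ htj z hz hjz hzH hzi G hG hdet lam hlam hlamH x hx0 hx1 hx2 hx3 P hPd hPH w => ?_⟩
  choose D ℓ h1 h2 h3 h4 h5 h6 using fun j => hH₀ (α j) H hH (hαT j) (hαR j) (z j) (hz j) (hjz j) (hzH j) (hzi j) (G j) (hG j)
    (hdet j) (lam j) (hlam j) (hlamH j) (fun i => x (j, i)) (hx0 j) (hx1 j) (hx2 j) (hx3 j)
  exact htj D h1 h2 h3 ℓ h4 h5 x (fun b => h6 b.1 b.2) P hPd hPH w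

end Pool.Agent.Q189.JM
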