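import Pool.Agent.Q189.JM.Fam
import Pool.Agent.Q189.JM.Clr
import Pool.Agent.Q189.MF.TorD

/-!
# The numbers as fractions, with bounds
-/

set_option autoImplicit false

open PowerSeries Pool.Agent.Y120.J Pool.Agent.Y120.K Pool.Agent.Y120.A
open Pool.Agent.Q246.NR Pool.Agent.Q246.NR2

namespace Pool.Agent.Q189.JM

/-- the ranks -/
abbrev rr (k : ℕ) : Fin k → ℕ := fun _ => 4

/-- the families -/
noncomputable def hh (k : ℕ) : ∀ j : Fin k, Fin (rr k j) → ℚ⟦X⟧ := fun _ => hJ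

/-- the variables -/
abbrev Ys (k : ℕ) : Type := Σ j : Fin k, Option (Fin (rr k j))

/-- the constants -/
abbrev Cs (g k : ℕ) : Type := Fin (g + 1) ⊕ Fin k

/-- the values of the constants -/
noncomputable def cv {g k : ℕ} (ζ : Fin g → ℂ) (α : Fin k → ℂ) : Cs g k → ℂ :=
  Sum.elim (Fin.cons tpi ζ : Fin (g + 1) → ℂ) α

/-- the numerators -/
noncomputable def nvv (t : ℂ) (D : Fin 7 → ℤ) (Z : Fin 3 → ℂ) (l : ℂ) : Fin 4 → ℂ :=
  ![D 0 * Z 1 + D 1 * Z 0, -t * (D 4 * Z 1 + D 5 * Z 0) ^ 2,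
    t * (D 4 * Z 1 + D 5 * Z 0) ^ 3 * ((D 4 * Z 1 + D 5 * Z 0) * (Z 0 - 2 * Z 2) - 2 * D 4 * Z 0), l + D 6 * tpi]

/-- the denominators -/
noncomputable def mvv (D : Fin 7 → ℤ) (Z : Fin 3 → ℂ) : Fin 4 → ℂ := ![D 2 * Z 1 + D 3 * Z 0, Z 0, Z 0 ^ 3, 1]

section poly
variable {k g : ℕ}

/-- the variables of a point -/
noncomputable def Yv (g : ℕ) (j : Fin k) (o : Option (Fin 4)) : MvPolynomial (Ys k ⊕ Cs g k) ℤ := MvPolynomial.X (Sum.inl ⟨j, o⟩)

/-- the period -/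
noncomputable def Tt (g k : ℕ) : MvPolynomial (Ys k ⊕ Cs g k) ℤ := MvPolynomial.X (Sum.inr (Sum.inl 0))

/-- the invariant -/
noncomputable def Av (g : ℕ) (j : Fin k) : MvPolynomial (Ys k ⊕ Cs g k) ℤ := MvPolynomial.X (Sum.inr (Sum.inr j))

/-- the period functions -/
noncomputable def Zp (g : ℕ) (j : Fin k) : Fin 3 → MvPolynomial (Ys k ⊕ Cs g k) ℤ :=
  ![Tt g k * Yv g j (some 0) ^ 2, Yv g j (some 0) * (Yv g j (some 1) - Yv g j none * Yv g j (some 0)),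
    Tt g k * (Yv g j (some 0) * Yv g j (some 2))]

/-- linear combinations -/
noncomputable def Lp (g : ℕ) (a b : ℤ) (j : Fin k) : MvPolynomial (Ys k ⊕ Cs g k) ℤ :=
  MvPolynomial.C a * Zp g j 1 + MvPolynomial.C b * Zp g j 0

/-- the numerators -/
noncomputable def Np (g : ℕ) (D : Fin k → Fin 7 → ℤ) (b : Fin k × Fin 4) : MvPolynomial (Ys k ⊕ Cs g k) ℤ :=
  (![Lp g (D b.1 0) (D b.1 1) b.1, -Av g b.1 * Lp g (D b.1 4) (D b.1 5) b.1 ^ 2,
    Av g b.1 * Lp g (D b.1 4) (D b.1 5) b.1 ^ 3 * (Lp g (D b.1 4) (D b.1 5) b.1 * (Zp g b.1 0 - MvPolynomial.C 2 * Zp g b.1 2) -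
      MvPolynomial.C (2 * D b.1 4) * Zp g b.1 0),
    Yv g b.1 none + MvPolynomial.C (D b.1 6) * Tt g k] : Fin 4 → MvPolynomial (Ys k ⊕ Cs g k) ℤ) b.2

/-- the denominators -/
noncomputable def Mp (g : ℕ) (D : Fin k → Fin 7 → ℤ) (b : Fin k × Fin 4) : MvPolynomial (Ys k ⊕ Cs g k) ℤ :=
  (![Lp g (D b.1 2) (D b.1 3) b.1, Zp g b.1 0, Zp g b.1 0 ^ 3, 1] : Fin 4 → MvPolynomial (Ys k ⊕ Cs g k) ℤ) b.2

section deg

lemma dX' {σ : Type} (s : σ) : (MvPolynomial.X s : MvPolynomial σ ℤ).totalDegree ≤ 1 := by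
  rw [MvPolynomial.totalDegree_X]

lemma Zp_deg (j : Fin k) (i : Fin 3) : (Zp g j i).totalDegree ≤ 3 := by
  fin_cases i
  · exact dmul (a := 1) (b := 2) (dX' _) (dpow (dX' _) 2)
  · exact dmul (a := 1) (b := 2) (dX' _) (dsub ((dX' _).trans (by norm_num)) (dmul (a := 1) (b := 1) (dX' _) (dX' _)))
  · exact dmul (a := 1) (b := 2) (dX' _) (dmul (a := 1) (b := 1) (dX' _) (dX' _))

lemma Lp_deg (a b : ℤ) (j : Fin k) : (Lp g a b j).totalDegree ≤ 3 :=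
  dadd (dmul (a := 0) (b := 3) (dC _) (Zp_deg j 1)) (dmul (a := 0) (b := 3) (dC _) (Zp_deg j 0))

lemma Np_deg (D : Fin k → Fin 7 → ℤ) (b : Fin k × Fin 4) : (Np g D b).totalDegree ≤ 16 := by
  obtain ⟨j, i⟩ := b
  have h1 := Lp_deg (g := g) (D j 4) (D j 5) j
  have hA : (Av g j).totalDegree ≤ 1 := dX' _
  fin_cases i
  · exact (Lp_deg (g := g) (D j 0) (D j 1) j).trans (by norm_num)
  · refine (dmul (a := 1) (b := 6) ?_ (dpow h1 2)).trans (by norm_num)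
    rw [MvPolynomial.totalDegree_neg]
    exact hA
  · refine dmul (a := 10) (b := 6) (dmul (a := 1) (b := 9) hA (dpow h1 3)) (dsub ?_ ?_)
    · exact dmul (a := 3) (b := 3) h1 (dsub (Zp_deg j 0) (dmul (a := 0) (b := 3) (dC _) (Zp_deg j 2)))
    · exact (dmul (a := 0) (b := 3) (dC _) (Zp_deg j 0)).trans (by norm_num)
  · exact (dadd (dX' _) (dmul (a := 0) (b := 1) (dC _) (dX' _))).trans (by norm_num)

lemma Mp_deg (D : Fin k → Fin 7 → ℤ) (b : Fin k × Fin 4) : (Mp g D b).totalDegree ≤ 16 := by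
  obtain ⟨j, i⟩ := b
  fin_cases i
  · exact (Lp_deg (g := g) (D j 2) (D j 3) j).trans (by norm_num)
  · exact (Zp_deg j 0).trans (by norm_num)
  · exact (dpow (Zp_deg j 0) 3).trans (by norm_num)
  · show (1 : MvPolynomial (Ys k ⊕ Cs g k) ℤ).totalDegree ≤ 16
    rw [MvPolynomial.totalDegree_one]
    norm_num

end deg

section len

lemma Zp_len (j : Fin k) (i : Fin 3) : len (Zp g j i) ≤ 2 := by
  have hT : len (Tt g k) = 1 := len_X _
  have hY : ∀ o, len (Yv g j o) = 1 := fun o => len_X _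
  fin_cases i
  · show len (Tt g k * Yv g j (some 0) ^ 2) ≤ 2
    refine (len_mul _ _).trans ?_
    have h1 := len_pow (Yv g j (some 0)) 2
    rw [hY, one_pow] at h1
    rw [hT]
    linarith
  · show len (Yv g j (some 0) * (Yv g j (some 1) - Yv g j none * Yv g j (some 0))) ≤ 2
    refine (len_mul _ _).trans ?_
    have h1 := len_sub (Yv g j (some 1)) (Yv g j none * Yv g j (some 0))
    have h2 := len_mul (Yv g j none) (Yv g j (some 0))
    rw [hY, hY] at h2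
    rw [hY] at h1
    rw [hY]
    linarith
  · show len (Tt g k * (Yv g j (some 0) * Yv g j (some 2))) ≤ 2
    refine (len_mul _ _).trans ?_
    have h1 := len_mul (Yv g j (some 0)) (Yv g j (some 2))
    rw [hY, hY] at h1
    rw [hT]
    linarith

lemma Lp_len {Γ : ℝ} {a b : ℤ} (ha : |(a : ℝ)| ≤ Γ) (hb : |(b : ℝ)| ≤ Γ) (j : Fin k) : len (Lp g a b j) ≤ 4 * Γ := by
  unfold Lp
  refine (len_add _ _).trans ?_
  have h1 := (len_mul (MvPolynomial.C a) (Zp g j 1)).trans (mul_le_mul_of_nonneg_left (Zp_len j 1) (len_nonneg _))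
  have h2 := (len_mul (MvPolynomial.C b) (Zp g j 0)).trans (mul_le_mul_of_nonneg_left (Zp_len j 0) (len_nonneg _))
  rw [len_C, Int.norm_eq_abs] at h1 h2
  linarith

lemma Np_len {Γ : ℝ} (hΓ : 1 ≤ Γ) {D : Fin k → Fin 7 → ℤ} (hD : ∀ j i, |((D j i : ℤ) : ℝ)| ≤ Γ) (b : Fin k × Fin 4) :
    len (Np g D b) ≤ 1792 * Γ ^ 4 := by
  obtain ⟨j, i⟩ := b
  have hΓ2 : Γ ≤ Γ ^ 4 := le_self_pow₀ hΓ (by norm_num)
  have hΓ3 : Γ ^ 2 ≤ Γ ^ 4 := pow_le_pow_right₀ hΓ (by norm_num)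
  have hA : len (Av g j) = 1 := len_X _
  have hT : len (Tt g k) = 1 := len_X _
  have hY : ∀ o, len (Yv g j o) = 1 := fun o => len_X _
  have hL := Lp_len (g := g) (hD j 4) (hD j 5) j
  have hL0 := len_nonneg (Lp g (D j 4) (D j 5) j)
  fin_cases i
  · show len (Lp g (D j 0) (D j 1) j) ≤ _
    have := Lp_len (g := g) (hD j 0) (hD j 1) j
    linarith
  · show len (-Av g j * Lp g (D j 4) (D j 5) j ^ 2) ≤ _
    refine (len_mul _ _).trans ?_
    rw [len_neg, hA, one_mul]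
    refine (len_pow _ _).trans ((pow_le_pow_left₀ hL0 hL 2).trans ?_)
    nlinarith
  · show len (Av g j * Lp g (D j 4) (D j 5) j ^ 3 * (Lp g (D j 4) (D j 5) j * (Zp g j 0 - MvPolynomial.C 2 * Zp g j 2) -
      MvPolynomial.C (2 * D j 4) * Zp g j 0)) ≤ _
    have h1 : len (Av g j * Lp g (D j 4) (D j 5) j ^ 3) ≤ (4 * Γ) ^ 3 := by
      refine (len_mul _ _).trans ?_
      rw [hA, one_mul]
      exact (len_pow _ _).trans (pow_le_pow_left₀ hL0 hL 3)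
    have h2 : len (Zp g j 0 - MvPolynomial.C 2 * Zp g j 2) ≤ 6 := by
      refine (len_sub _ _).trans ?_
      have h3 := (len_mul (MvPolynomial.C 2) (Zp g j 2)).trans (mul_le_mul_of_nonneg_left (Zp_len j 2) (len_nonneg _))
      rw [len_C] at h3
      have h4 : ‖(2 : ℤ)‖ = 2 := by
        rw [Int.norm_eq_abs]
        norm_num
      rw [h4] at h3
      have := Zp_len (g := g) j 0
      linarith
    have h3 : len (Lp g (D j 4) (D j 5) j * (Zp g j 0 - MvPolynomial.C 2 * Zp g j 2) -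
        MvPolynomial.C (2 * D j 4) * Zp g j 0) ≤ 28 * Γ := by
      refine (len_sub _ _).trans ?_
      have h4 : len (Lp g (D j 4) (D j 5) j * (Zp g j 0 - MvPolynomial.C 2 * Zp g j 2)) ≤ 4 * Γ * 6 :=
        (len_mul _ _).trans (mul_le_mul hL h2 (len_nonneg _) (by positivity))
      have h5 : len (MvPolynomial.C (2 * D j 4) * Zp g j 0) ≤ 2 * Γ * 2 := by
        refine (len_mul _ _).trans (mul_le_mul ?_ (Zp_len j 0) (len_nonneg _) (by positivity))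
        rw [len_C, Int.norm_eq_abs]
        push_cast
        rw [abs_mul]
        have := hD j 4
        have h6 : |(2 : ℝ)| = 2 := by norm_num
        rw [h6]
        linarith
      linarith
    calc _ ≤ (4 * Γ) ^ 3 * (28 * Γ) := (len_mul _ _).trans (mul_le_mul h1 h3 (len_nonneg _) (by positivity))
      _ = _ := by ring
  · show len (Yv g j none + MvPolynomial.C (D j 6) * Tt g k) ≤ _
    refine (len_add _ _).trans ?_
    have h1 := len_mul (MvPolynomial.C (D j 6)) (Tt g k)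
    rw [hT, mul_one, len_C, Int.norm_eq_abs] at h1
    rw [hY]
    have := hD j 6
    linarith

lemma Mp_len {Γ : ℝ} (hΓ : 1 ≤ Γ) {D : Fin k → Fin 7 → ℤ} (hD : ∀ j i, |((D j i : ℤ) : ℝ)| ≤ Γ) (b : Fin k × Fin 4) :
    len (Mp g D b) ≤ 1792 * Γ ^ 4 := by
  obtain ⟨j, i⟩ := b
  have hΓ2 : Γ ≤ Γ ^ 4 := le_self_pow₀ hΓ (by norm_num)
  have hZ := Zp_len (g := g) j 0
  fin_cases i
  · show len (Lp g (D j 2) (D j 3) j) ≤ _
    have := Lp_len (g := g) (hD j 2) (hD j 3) j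
    linarith
  · show len (Zp g j 0) ≤ _
    linarith
  · show len (Zp g j 0 ^ 3) ≤ _
    refine (len_pow _ _).trans ((pow_le_pow_left₀ (len_nonneg _) hZ 3).trans ?_)
    linarith
  · show len (1 : MvPolynomial (Ys k ⊕ Cs g k) ℤ) ≤ _
    rw [len_one]
    linarith

end len

section eval
variable (ζ : Fin g → ℂ) (α : Fin k → ℂ) (y : Ys k → ℂ)

lemma Yv_eval (j : Fin k) (o : Option (Fin 4)) : MvPolynomial.aeval (Sum.elim y (cv ζ α)) (Yv g j o) = y ⟨j, o⟩ := by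
  unfold Yv
  rw [MvPolynomial.aeval_X]
  rfl

lemma Tt_eval : MvPolynomial.aeval (Sum.elim y (cv ζ α)) (Tt g k) = tpi := by
  unfold Tt
  rw [MvPolynomial.aeval_X]
  rfl

lemma Av_eval (j : Fin k) : MvPolynomial.aeval (Sum.elim y (cv ζ α)) (Av g j) = α j := by
  unfold Av
  rw [MvPolynomial.aeval_X]
  rfl

lemma Zp_eval (j : Fin k) (i : Fin 3) : MvPolynomial.aeval (Sum.elim y (cv ζ α)) (Zp g j i) = Zw (fun o => y ⟨j, o⟩) i := by
  fin_cases i
  · show MvPolynomial.aeval (Sum.elim y (cv ζ α)) (Tt g k * Yv g j (some 0) ^ 2) = tpi * y ⟨j, some 0⟩ ^ 2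
    rw [map_mul, map_pow, Tt_eval, Yv_eval]
  · show MvPolynomial.aeval (Sum.elim y (cv ζ α)) (Yv g j (some 0) * (Yv g j (some 1) - Yv g j none * Yv g j (some 0))) =
      y ⟨j, some 0⟩ * (y ⟨j, some 1⟩ - y ⟨j, none⟩ * y ⟨j, some 0⟩)
    rw [map_mul, map_sub, map_mul, Yv_eval, Yv_eval, Yv_eval]
  · show MvPolynomial.aeval (Sum.elim y (cv ζ α)) (Tt g k * (Yv g j (some 0) * Yv g j (some 2))) =
      tpi * (y ⟨j, some 0⟩ * y ⟨j, some 2⟩)
    rw [map_mul, map_mul, Tt_eval, Yv_eval, Yv_eval]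

lemma Lp_eval (a b : ℤ) (j : Fin k) : MvPolynomial.aeval (Sum.elim y (cv ζ α)) (Lp g a b j) =
    a * Zw (fun o => y ⟨j, o⟩) 1 + b * Zw (fun o => y ⟨j, o⟩) 0 := by
  unfold Lp
  rw [map_add, map_mul, map_mul, MvPolynomial.aeval_C, MvPolynomial.aeval_C, Zp_eval, Zp_eval, eq_intCast, eq_intCast]

lemma Np_eval (D : Fin k → Fin 7 → ℤ) (b : Fin k × Fin 4) : MvPolynomial.aeval (Sum.elim y (cv ζ α)) (Np g D b) =
    nvv (α b.1) (D b.1) (Zw fun o => y ⟨b.1, o⟩) (y ⟨b.1, none⟩) b.2 := by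
  obtain ⟨j, i⟩ := b
  have h1 := Lp_eval ζ α y (D j 4) (D j 5) j
  fin_cases i
  · exact Lp_eval ζ α y _ _ j
  · show MvPolynomial.aeval (Sum.elim y (cv ζ α)) (-Av g j * Lp g (D j 4) (D j 5) j ^ 2) = -(α j) * _ ^ 2
    rw [map_mul, map_pow, map_neg, h1, Av_eval]
  · show MvPolynomial.aeval (Sum.elim y (cv ζ α)) (Av g j * Lp g (D j 4) (D j 5) j ^ 3 * (Lp g (D j 4) (D j 5) j *
      (Zp g j 0 - MvPolynomial.C 2 * Zp g j 2) - MvPolynomial.C (2 * D j 4) * Zp g j 0)) = α j * _ ^ 3 * _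
    rw [map_mul, map_mul, map_pow, map_sub, map_mul, map_sub, map_mul, map_mul, h1, MvPolynomial.aeval_C,
      MvPolynomial.aeval_C, Zp_eval, Zp_eval, Av_eval]
    simp only [eq_intCast, Int.cast_mul, Int.cast_ofNat]
  · show MvPolynomial.aeval (Sum.elim y (cv ζ α)) (Yv g j none + MvPolynomial.C (D j 6) * Tt g k) = y ⟨j, none⟩ + D j 6 * tpi
    rw [map_add, map_mul, MvPolynomial.aeval_C, Yv_eval, Tt_eval, eq_intCast]

lemma Mp_eval (D : Fin k → Fin 7 → ℤ) (b : Fin k × Fin 4) : MvPolynomial.aeval (Sum.elim y (cv ζ α)) (Mp g D b) =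
    mvv (D b.1) (Zw fun o => y ⟨b.1, o⟩) b.2 := by
  obtain ⟨j, i⟩ := b
  fin_cases i
  · exact Lp_eval ζ α y _ _ j
  · exact Zp_eval ζ α y j 0
  · show MvPolynomial.aeval (Sum.elim y (cv ζ α)) (Zp g j 0 ^ 3) = _ ^ 3
    rw [map_pow, Zp_eval]
  · show MvPolynomial.aeval (Sum.elim y (cv ζ α)) (1 : MvPolynomial (Ys k ⊕ Cs g k) ℤ) = 1
    rw [map_one]

end eval

end poly

end Pool.Agent.Q189.JM
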