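import Pool.Agent.Q189.JM.Inv

/-!
# The transfer of near relations
-/

set_option autoImplicit false

open PowerSeries Pool.Agent.Y120.J Pool.Agent.Y120.K Pool.Agent.Y120.A
open Pool.Agent.Q246.NR Pool.Agent.Q246.NR2 Pool.Agent.Q189.MF

namespace Pool.Agent.Q189.JM

/-- bounds for the values -/
theorem evc_bd : ∃ (R : ℕ) (C₀ : ℝ), 1 ≤ C₀ ∧ 1 ≤ R ∧ ∀ α : ℂ, (R : ℝ) < ‖α‖ → ∀ i, ‖Pool.Agent.Y916.Al.evc (1 / α) (hJ i)‖ ≤ C₀ := by
  obtain ⟨C, hC, h⟩ := sizeJ1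
  obtain ⟨R, hR⟩ := exists_nat_ge (2 * C)
  have hR1 : 1 ≤ R := by
    have : (1 : ℝ) ≤ R := by linarith
    exact_mod_cast this
  refine ⟨R, C * 2, by linarith, hR1, fun α hα i => ?_⟩
  have hα0 : 0 < ‖α‖ := by
    have : (0 : ℝ) ≤ R := Nat.cast_nonneg _
    linarith
  unfold Pool.Agent.Y916.Al.evc
  refine tsum_of_norm_bounded (hasSum_geometric_two.mul_left C) fun m => ?_
  rw [norm_mul, norm_pow, norm_div, norm_one]
  have h1 : ‖(((coeff m (hJ i) : ℚ)) : ℂ)‖ ≤ C ^ (m + 1) := by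
    rw [Complex.norm_ratCast]
    exact h i m
  have h2 : C * (1 / ‖α‖) ≤ 1 / 2 := by
    rw [mul_one_div, div_le_div_iff₀ hα0 (by norm_num)]
    linarith
  calc _ ≤ C ^ (m + 1) * (1 / ‖α‖) ^ m := mul_le_mul_of_nonneg_right h1 (by positivity)
    _ = C * (C * (1 / ‖α‖)) ^ m := by rw [pow_succ, mul_pow]; ring
    _ ≤ C * (1 / 2) ^ m := by
        refine mul_le_mul_of_nonneg_left (pow_le_pow_left₀ (by positivity) h2 m) (by linarith)

/-- a linear equation has at most one solution -/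
lemma lin_one {a b : ℤ} (h : a ≠ 0 ∨ b ≠ 0) : ∃ s₁ : ℤ, ∀ s : ℤ, a + b * s = 0 → s = s₁ := by
  by_cases hs : ∃ s₁ : ℤ, a + b * s₁ = 0
  · obtain ⟨s₁, hs₁⟩ := hs
    refine ⟨s₁, fun s hs => ?_⟩
    have hb : b ≠ 0 := by
      rintro rfl
      rcases h with h | h
      · apply h
        simpa using hs₁
      · exact h rfl
    have h1 : b * (s - s₁) = 0 := by linear_combination hs - hs₁
    have h2 := (mul_eq_zero.1 h1).resolve_left hb
    linarith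
  · push Not at hs
    exact ⟨0, fun s h1 => absurd h1 (hs s)⟩

/-- nodes -/
lemma nodes (δ : ℕ) (s₁ s₂ : ℤ) : ∃ x : Fin (δ + 1) → ℤ, Function.Injective x ∧ ∀ i, 0 ≤ x i ∧ x i ≤ δ + 2 ∧ x i ≠ s₁ ∧ x i ≠ s₂ := by
  classical
  set S : Finset ℤ := ((Finset.Icc (0 : ℤ) (δ + 2)).erase s₁).erase s₂ with hS
  have hcard : δ + 1 ≤ S.card := by
    have h1 : (Finset.Icc (0 : ℤ) (δ + 2)).card = δ + 3 := by
      rw [Int.card_Icc]
      omega
    have h2 := Finset.pred_card_le_card_erase (s := Finset.Icc (0 : ℤ) (δ + 2)) (a := s₁)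
    have h3 : ((Finset.Icc (0 : ℤ) (δ + 2)).erase s₁).card - 1 ≤ S.card :=
      Finset.pred_card_le_card_erase (s := (Finset.Icc (0 : ℤ) (δ + 2)).erase s₁) (a := s₂)
    rw [h1] at h2
    omega
  obtain ⟨S', hS', hc⟩ := Finset.exists_subset_card_eq hcard
  refine ⟨fun i => S'.orderEmbOfFin hc i, (S'.orderEmbOfFin hc).injective, fun i => ?_⟩
  have h1 := hS' (S'.orderEmbOfFin_mem hc i)
  rw [hS, Finset.mem_erase, Finset.mem_erase, Finset.mem_Icc] at h1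
  exact ⟨h1.2.2.1, h1.2.2.2, h1.2.1, h1.1⟩

variable {k : ℕ}

/-- near relations between the numbers are near relations everywhere -/
def TJ {g : ℕ} (d B : ℕ) (ζ : Fin g → ℂ) (α : Fin k → ℂ) (H : ℝ) : Prop :=
  ∀ D : Fin k → Fin 7 → ℤ, (∀ j i, |((D j i : ℤ) : ℝ)| ≤ H ^ 5) → (∀ j, D j 0 * D j 3 - D j 1 * D j 2 ≠ 0) →
    (∀ j, D j 4 ≠ 0 ∨ D j 5 ≠ 0) → ∀ ℓ : Fin k → ℂ, (∀ j, Complex.exp (ℓ j) = α j) → (∀ j, ‖ℓ j‖ ≤ H) →
    ∀ x : Fin k × Fin 4 → ℂ, (∀ b : Fin k × Fin 4, mvv (D b.1) (Zw fun o => ptD (hh k) α ℓ ⟨b.1, o⟩) b.2 * x b =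
      nvv (α b.1) (D b.1) (Zw fun o => ptD (hh k) α ℓ ⟨b.1, o⟩) (ℓ b.1) b.2) →
    ∀ P : MvPolynomial ((Fin k × Fin 4) ⊕ Cs g k) ℤ, P.totalDegree ≤ d → (∀ e, |((P.coeff e : ℤ) : ℝ)| ≤ H) →
    ∀ w : Fin k × Fin 4 → ℂ, ‖MvPolynomial.aeval (Sum.elim w (cv ζ α)) P‖ ≤
      (H * max 1 ‖w‖) ^ B * ‖MvPolynomial.aeval (Sum.elim x (cv ζ α)) P‖

/-- the exponent of the height -/
def ee (k d : ℕ) : ℕ := 2 + 84 * (k * d)

/-- the degree -/
def DD (g k d : ℕ) : ℕ := Fintype.card (Fin k × Fin 4) * (d * 16) + Fintype.card (Cs g k) * d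

theorem trans (g d : ℕ) : ∃ R : ℕ, 1 ≤ R ∧ ∀ B₀ : ℕ, ∃ B : ℕ, ∀ T : ℕ, 1 ≤ T → ∃ H₀ : ℝ, ∀ (ζ : Fin g → ℂ) (α : Fin k → ℂ) (H : ℝ),
    H₀ ≤ H → (∀ j, ‖α j‖ ≤ T) → (∀ j, (R : ℝ) < ‖α j‖) →
    GdD (hh k) (DD g k d) B₀ (Fin.cons tpi ζ : Fin (g + 1) → ℂ) α (H ^ ee k d) → TJ d B ζ α H := by
  classical
  obtain ⟨R, C₀, hC₀, hR1, hval⟩ := evc_bd
  refine ⟨R, hR1, fun B₀ => ⟨(d + 2) * (4 * k) + (396 * (k * d) + ((ee k d + 264) * B₀ + 28 * (k * d))), fun T hT => ?_⟩⟩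
  set nn : ℕ := Fintype.card (Fin k × Fin 4) + Fintype.card (Cs g k) with hnn
  refine ⟨max (max 1792 (343 * C₀ ^ 6)) (max (4 * ((d : ℝ) + 3) * T) (((d : ℝ) + 1) ^ nn)), fun ζ α H hH hαT hαR hgd => ?_⟩
  have hH1792 : 1792 ≤ H := (le_max_left _ _).trans ((le_max_left _ _).trans hH)
  have hHC : 343 * C₀ ^ 6 ≤ H := (le_max_right _ _).trans ((le_max_left _ _).trans hH)
  have hHT : 4 * ((d : ℝ) + 3) * T ≤ H := (le_max_left _ _).trans ((le_max_right _ _).trans hH)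
  have hHn : ((d : ℝ) + 1) ^ nn ≤ H := (le_max_right _ _).trans ((le_max_right _ _).trans hH)
  have hH1 : 1 ≤ H := by linarith
  have hH0 : 0 < H := by linarith
  have hTR : (1 : ℝ) ≤ T := by exact_mod_cast hT
  have hd0 : (0 : ℝ) ≤ d := Nat.cast_nonneg _
  have hHd : (d : ℝ) + 4 ≤ H := by nlinarith
  have hα1 : ∀ j, 1 ≤ ‖α j‖ := fun j => by
    have h1 : (1 : ℝ) ≤ R := by exact_mod_cast hR1
    linarith [hαR j]
  have pw : ∀ {a b : ℕ}, a ≤ b → H ^ a ≤ H ^ b := fun h => pow_le_pow_right₀ hH1 h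
  have hC6 : C₀ ^ 2 ≤ C₀ ^ 6 := pow_le_pow_right₀ hC₀ (by norm_num)
  have hC61 : 1 ≤ C₀ ^ 6 := one_le_pow₀ hC₀
  intro D hD hdet hpq ℓ hℓ hℓH x hx P hPd hPH w
  have hcard4 : Fintype.card (Fin k × Fin 4) = 4 * k := by
    rw [Fintype.card_prod, Fintype.card_fin, Fintype.card_fin, mul_comm]
  -- the relation
  set Q := clz d (Np g D) (Mp g D) P with hQ
  have hQd : Q.totalDegree ≤ DD g k d := clz_deg (Np_deg D) (Mp_deg D)
  have hΓ1 : (1 : ℝ) ≤ H ^ 5 := one_le_pow₀ hH1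
  have hQl : len Q ≤ H ^ ee k d := by
    have h1 := clz_len (N := Np g D) (M := Mp g D) (δ := d) (P := P) (Λ := 1792 * (H ^ 5) ^ 4) (H := H) (by
      have : (1 : ℝ) ≤ (H ^ 5) ^ 4 := one_le_pow₀ hΓ1
      linarith) (Np_len hΓ1 hD) (Mp_len hΓ1 hD) hPH
    refine h1.trans ?_
    rw [hcard4]
    calc _ ≤ H * (H * (H ^ 21) ^ (d * (4 * k))) := by
          refine mul_le_mul ?_ ?_ (by positivity) hH0.le
          · rw [← hcard4]
            exact hHn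
          · refine mul_le_mul_of_nonneg_left (pow_le_pow_left₀ (by positivity) ?_ _) hH0.le
            calc 1792 * (H ^ 5) ^ 4 ≤ H * (H ^ 5) ^ 4 := mul_le_mul_of_nonneg_right hH1792 (by positivity)
              _ = H ^ 21 := by ring
      _ = H ^ (2 + 84 * (k * d)) := by
          rw [← pow_mul, ← pow_succ', ← pow_succ']
          congr 1
          ring
      _ = _ := rfl
  have hQH : ∀ e, |((Q.coeff e : ℤ) : ℝ)| ≤ H ^ ee k d := fun e => by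
    have h1 := norm_coeff_le_len Q e
    rw [Int.norm_eq_abs] at h1
    exact h1.trans hQl
  obtain ⟨-, hg2⟩ := hgd ℓ hℓ fun j => (hℓH j).trans (le_self_pow₀ hH1 (by unfold ee; omega))
  -- the value at the point
  set pt := ptD (hh k) α ℓ with hpt
  have hptn : ∀ j, pt ⟨j, none⟩ = ℓ j := fun _ => rfl
  have hpts : ∀ j (i : Fin 4), pt ⟨j, some i⟩ = Pool.Agent.Y916.Al.evc (1 / α j) (hJ i) := fun _ _ => rfl
  have hev : MvPolynomial.aeval (Sum.elim pt (cv ζ α)) Q = (∏ b, MvPolynomial.aeval (Sum.elim pt (cv ζ α)) (Mp g D b) ^ d) *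
      MvPolynomial.aeval (Sum.elim x (cv ζ α)) P := by
    refine clz_eval hPd pt (cv ζ α) x fun b => ?_
    rw [Mp_eval, Np_eval]
    exact hx b
  have hMup : ∀ b, ‖MvPolynomial.aeval (Sum.elim pt (cv ζ α)) (Mp g D b)‖ ≤ H ^ 7 := by
    intro b
    rw [Mp_eval]
    obtain ⟨j, i⟩ := b
    set v : Option (Fin 4) → ℂ := fun o => pt ⟨j, o⟩ with hv
    have hvs : ∀ i : Fin 4, ‖v (some i)‖ ≤ C₀ := fun i => hval (α j) (hαR j) i
    have hvn : ‖v none‖ ≤ H := hℓH j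
    have hZ0 : ‖Zw v 0‖ ≤ 7 * C₀ ^ 2 := by
      show ‖tpi * v (some 0) ^ 2‖ ≤ _
      rw [norm_mul, norm_pow]
      exact mul_le_mul tpi_le (pow_le_pow_left₀ (norm_nonneg _) (hvs 0) 2) (by positivity) (by norm_num)
    have hZ1 : ‖Zw v 1‖ ≤ 2 * C₀ ^ 2 * H := by
      show ‖v (some 0) * (v (some 1) - v none * v (some 0))‖ ≤ _
      rw [norm_mul]
      have h1 : ‖v (some 1) - v none * v (some 0)‖ ≤ C₀ + H * C₀ := by
        refine (norm_sub_le _ _).trans (add_le_add (hvs 1) ?_)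
        rw [norm_mul]
        exact mul_le_mul hvn (hvs 0) (norm_nonneg _) hH0.le
      calc _ ≤ C₀ * (C₀ + H * C₀) := mul_le_mul (hvs 0) h1 (norm_nonneg _) (by linarith)
        _ = C₀ ^ 2 * (1 + H) := by ring
        _ ≤ C₀ ^ 2 * (2 * H) := mul_le_mul_of_nonneg_left (by linarith) (by positivity)
        _ = _ := by ring
    have hcD : ∀ i, ‖((D j i : ℤ) : ℂ)‖ ≤ H ^ 5 := fun i => by rw [Complex.norm_intCast]; exact hD j i
    have hH7 : H ^ 2 ≤ H ^ 7 := pw (by norm_num)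
    have hH17 : H ≤ H ^ 7 := le_self_pow₀ hH1 (by norm_num)
    fin_cases i
    · show ‖(D j 2 : ℂ) * Zw v 1 + D j 3 * Zw v 0‖ ≤ _
      have h1 : ‖(D j 2 : ℂ) * Zw v 1‖ ≤ H ^ 5 * (2 * C₀ ^ 2 * H) := by
        rw [norm_mul]
        exact mul_le_mul (hcD 2) hZ1 (norm_nonneg _) (by positivity)
      have h2 : ‖(D j 3 : ℂ) * Zw v 0‖ ≤ H ^ 5 * (7 * C₀ ^ 2 * H) := by
        rw [norm_mul]
        refine mul_le_mul (hcD 3) (hZ0.trans ?_) (norm_nonneg _) (by positivity)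
        exact le_mul_of_one_le_right (by positivity) hH1
      calc _ ≤ H ^ 5 * (2 * C₀ ^ 2 * H) + H ^ 5 * (7 * C₀ ^ 2 * H) := (norm_add_le _ _).trans (add_le_add h1 h2)
        _ = H ^ 5 * H * (9 * C₀ ^ 2) := by ring
        _ ≤ H ^ 5 * H * H := mul_le_mul_of_nonneg_left (by linarith) (by positivity)
        _ = _ := by ring
    · show ‖Zw v 0‖ ≤ _
      linarith
    · show ‖Zw v 0 ^ 3‖ ≤ _
      rw [norm_pow]
      calc _ ≤ (7 * C₀ ^ 2) ^ 3 := pow_le_pow_left₀ (norm_nonneg _) hZ0 3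
        _ = 343 * C₀ ^ 6 := by ring
        _ ≤ _ := hHC.trans hH17
    · show ‖(1 : ℂ)‖ ≤ _
      rw [norm_one]
      exact one_le_pow₀ hH1
  have hprodup : ‖∏ b, MvPolynomial.aeval (Sum.elim pt (cv ζ α)) (Mp g D b) ^ d‖ ≤ H ^ (28 * (k * d)) := by
    rw [norm_prod]
    calc _ ≤ ∏ _b : Fin k × Fin 4, (H ^ 7) ^ d := Finset.prod_le_prod (fun _ _ => norm_nonneg _) fun b _ => by
            rw [norm_pow]
            exact pow_le_pow_left₀ (norm_nonneg _) (hMup b) _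
      _ = _ := by
            rw [Finset.prod_const, Finset.card_univ, hcard4, ← pow_mul, ← pow_mul]
            congr 1
            ring
  have hQpt : ‖MvPolynomial.aeval (Sum.elim pt (cv ζ α)) Q‖ ≤ H ^ (28 * (k * d)) * ‖MvPolynomial.aeval (Sum.elim x (cv ζ α)) P‖ := by
    rw [hev, norm_mul]
    exact mul_le_mul_of_nonneg_right hprodup (norm_nonneg _)
  -- the grid
  have hbad : ∀ j, ∃ s₁ s₂ : ℤ, (∀ s : ℤ, D j 0 - D j 2 * s = 0 → s = s₁) ∧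
      ∀ s : ℤ, (D j 4 * D j 3 - D j 5 * D j 2) * s + (D j 5 * D j 0 - D j 4 * D j 1) = 0 → s = s₂ := by
    intro j
    obtain ⟨s₁, h1⟩ := lin_one (a := D j 0) (b := -D j 2) (by
      by_contra hcon
      push Not at hcon
      apply hdet j
      rw [hcon.1, neg_eq_zero.1 hcon.2]
      ring)
    obtain ⟨s₂, h2⟩ := lin_one (a := D j 5 * D j 0 - D j 4 * D j 1) (b := D j 4 * D j 3 - D j 5 * D j 2) (by
      by_contra hcon
      push Not at hcon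
      obtain ⟨c1, c2⟩ := hcon
      have e1 : D j 4 * (D j 0 * D j 3 - D j 1 * D j 2) = 0 := by linear_combination D j 2 * c1 + D j 0 * c2
      have e2 : D j 5 * (D j 0 * D j 3 - D j 1 * D j 2) = 0 := by linear_combination D j 3 * c1 + D j 1 * c2
      rcases hpq j with h | h
      · exact h ((mul_eq_zero.1 e1).resolve_right (hdet j))
      · exact h ((mul_eq_zero.1 e2).resolve_right (hdet j)))
    refine ⟨s₁, s₂, fun s hs => h1 s ?_, fun s hs => h2 s ?_⟩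
    · linear_combination hs
    · linear_combination hs
  choose s₁ s₂ hs₁ hs₂ using hbad
  choose x0 hx0i hx0 using fun j => nodes d (s₁ j) (s₂ j)
  set X : Fin k × Fin 4 → Fin (d + 1) → ℤ := fun b => ![x0 b.1, fun i => (i : ℤ) + 1, fun i => (i : ℤ), fun i => (i : ℤ)] b.2 with hX
  have hX0 : ∀ j i, X (j, 0) i = x0 j i := fun _ _ => rfl
  have hX1 : ∀ j i, X (j, 1) i = ((i : ℕ) : ℤ) + 1 := fun _ _ => rfl
  have hX2 : ∀ j i, X (j, 2) i = ((i : ℕ) : ℤ) := fun _ _ => rfl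
  have hX3 : ∀ j i, X (j, 3) i = ((i : ℕ) : ℤ) := fun _ _ => rfl
  have hXi : ∀ b, Function.Injective (X b) := by
    rintro ⟨j, i⟩
    fin_cases i
    · exact hx0i j
    · intro a b hab
      have h1 : ((a : ℕ) : ℤ) + 1 = ((b : ℕ) : ℤ) + 1 := hab
      exact Fin.ext (by omega)
    · intro a b hab
      have h1 : ((a : ℕ) : ℤ) = ((b : ℕ) : ℤ) := hab
      exact Fin.ext (by omega)
    · intro a b hab
      have h1 : ((a : ℕ) : ℤ) = ((b : ℕ) : ℤ) := hab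
      exact Fin.ext (by omega)
  have hXb : ∀ b i, 0 ≤ X b i ∧ X b i ≤ d + 2 := by
    rintro ⟨j, i⟩ a
    have ha := a.2
    fin_cases i
    · exact ⟨(hx0 j a).1, (hx0 j a).2.1⟩
    · show 0 ≤ ((a : ℕ) : ℤ) + 1 ∧ ((a : ℕ) : ℤ) + 1 ≤ d + 2
      omega
    · show 0 ≤ ((a : ℕ) : ℤ) ∧ ((a : ℕ) : ℤ) ≤ d + 2
      omega
    · show 0 ≤ ((a : ℕ) : ℤ) ∧ ((a : ℕ) : ℤ) ≤ d + 2
      omega
  have hXU : ∀ b i, |((X b i : ℤ) : ℝ)| ≤ (d : ℝ) + 3 := by
    intro b i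
    obtain ⟨h1, h2⟩ := hXb b i
    rw [abs_of_nonneg (by exact_mod_cast h1)]
    have h3 : ((X b i : ℤ) : ℝ) ≤ (((d : ℤ) + 2 : ℤ) : ℝ) := by exact_mod_cast h2
    push_cast at h3
    linarith
  -- the bound on the grid
  have hK : 4 * (H ^ 5) ^ 2 * ((d : ℝ) + 3) * T ≤ H ^ 11 := by
    calc _ = H ^ 10 * (4 * ((d : ℝ) + 3) * T) := by ring
      _ ≤ H ^ 10 * H := mul_le_mul_of_nonneg_left hHT (by positivity)
      _ = _ := by ring
  have hK0 : 0 < 4 * (H ^ 5) ^ 2 * ((d : ℝ) + 3) * T := by positivity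
  set B₁ : ℕ := 396 * (k * d) + ((ee k d + 264) * B₀ + 28 * (k * d)) with hB₁
  have hgrid : ∀ G : Fin k × Fin 4 → Fin (d + 1), ‖MvPolynomial.aeval (Sum.elim (fun b => (X b (G b) : ℂ)) (cv ζ α)) P‖ ≤
      H ^ B₁ * ‖MvPolynomial.aeval (Sum.elim x (cv ζ α)) P‖ := by
    intro G
    have hex : ∀ j, ∃ v : Option (Fin 4) → ℂ, (fun i => v (some i)) ∈ S2 ∧
        (∀ o, ‖v o‖ ≤ (4 * (H ^ 5) ^ 2 * ((d : ℝ) + 3) * T) ^ 24) ∧
        (∀ i, mvv (D j) (Zw v) i * (X (j, i) (G (j, i)) : ℤ) = nvv (α j) (D j) (Zw v) (v none) i) ∧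
        ∀ i, ((4 * (H ^ 5) ^ 2 * ((d : ℝ) + 3) * T) ^ 9)⁻¹ ≤ ‖mvv (D j) (Zw v) i‖ := by
      intro j
      refine exists_pt (t := α j) (D := D j) (u := fun i => X (j, i) (G (j, i))) hΓ1 (by linarith) hTR (hD j)
        (fun i => hXU (j, i) _) (hα1 j) (hαT j) ?_ ?_ ?_ (hdet j)
      · rw [hX1]
        omega
      · intro h0
        rw [hX0] at h0
        exact (hx0 j _).2.2.1 (hs₁ j _ h0)
      · intro h0
        rw [hX0] at h0
        exact (hx0 j _).2.2.2 (hs₂ j _ h0)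
    choose v hv1 hv2 hv3 hv4 using hex
    set y : Ys k → ℂ := fun s => v s.1 s.2 with hy
    have hyF : y ∈ FibD (hh k) fun j => 1 / α j := fun j => S2_sub (hv1 j) _
    have hyn : ‖y‖ ≤ H ^ 264 := by
      refine (pi_norm_le_iff_of_nonneg (by positivity)).2 fun s => (hv2 s.1 s.2).trans ?_
      calc _ ≤ (H ^ 11) ^ 24 := pow_le_pow_left₀ hK0.le hK 24
        _ = _ := by rw [← pow_mul]
    have h1 := hg2 Q hQd hQH y hyF
    have hevy : MvPolynomial.aeval (Sum.elim y (cv ζ α)) Q = (∏ b, MvPolynomial.aeval (Sum.elim y (cv ζ α)) (Mp g D b) ^ d) *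
        MvPolynomial.aeval (Sum.elim (fun b => (X b (G b) : ℂ)) (cv ζ α)) P := by
      refine clz_eval hPd y (cv ζ α) _ fun b => ?_
      rw [Mp_eval, Np_eval]
      exact hv3 b.1 b.2
    have hlow : (H ^ (396 * (k * d)))⁻¹ ≤ ‖∏ b, MvPolynomial.aeval (Sum.elim y (cv ζ α)) (Mp g D b) ^ d‖ := by
      rw [norm_prod]
      calc (H ^ (396 * (k * d)))⁻¹ = ∏ _b : Fin k × Fin 4, ((H ^ 99)⁻¹) ^ d := by
            rw [Finset.prod_const, Finset.card_univ, hcard4, ← pow_mul, inv_pow, ← pow_mul]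
            congr 2
            ring
        _ ≤ _ := Finset.prod_le_prod (fun _ _ => by positivity) fun b _ => by
            rw [norm_pow]
            refine pow_le_pow_left₀ (by positivity) ?_ _
            rw [Mp_eval]
            refine le_trans ?_ (hv4 b.1 b.2)
            refine inv_anti₀ (by positivity) ?_
            calc _ ≤ (H ^ 11) ^ 9 := pow_le_pow_left₀ hK0.le hK 9
              _ = _ := by rw [← pow_mul]
    have h2 : ‖MvPolynomial.aeval (Sum.elim y (cv ζ α)) Q‖ ≤ (H ^ ee k d * max 1 ‖y‖) ^ B₀ *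
        ‖MvPolynomial.aeval (Sum.elim pt (cv ζ α)) Q‖ := h1
    rw [hevy, norm_mul] at h2
    have h3 : H ^ ee k d * max 1 ‖y‖ ≤ H ^ (ee k d + 264) := by
      rw [pow_add]
      exact mul_le_mul_of_nonneg_left (max_le (one_le_pow₀ hH1) hyn) (by positivity)
    set V := ‖MvPolynomial.aeval (Sum.elim (fun b => (X b (G b) : ℂ)) (cv ζ α)) P‖ with hV
    set A := ‖MvPolynomial.aeval (Sum.elim x (cv ζ α)) P‖ with hA
    have h4 : (H ^ (396 * (k * d)))⁻¹ * V ≤ H ^ ((ee k d + 264) * B₀) * (H ^ (28 * (k * d)) * A) := by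
      calc _ ≤ _ := mul_le_mul_of_nonneg_right hlow (norm_nonneg _)
        _ ≤ _ := h2
        _ ≤ (H ^ (ee k d + 264)) ^ B₀ * (H ^ (28 * (k * d)) * A) :=
            mul_le_mul (pow_le_pow_left₀ (by positivity) h3 _) hQpt (norm_nonneg _) (by positivity)
        _ = _ := by rw [← pow_mul]
    rw [inv_mul_le_iff₀ (by positivity)] at h4
    refine h4.trans (le_of_eq ?_)
    rw [hB₁, pow_add, pow_add]
    ring
  -- all points
  have h5 := interp X hXi ((d : ℝ) + 3) hXU (by linarith) P hPd (cv ζ α) _ hgrid w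
  refine h5.trans ?_
  have hM1 : 1 ≤ max 1 ‖w‖ := le_max_left _ _
  have hHM : H ≤ H * max 1 ‖w‖ := le_mul_of_one_le_right hH0.le hM1
  have h6 : max 1 ‖w‖ + ((d : ℝ) + 3) ≤ H * max 1 ‖w‖ := by nlinarith
  have h7 : ((d : ℝ) + 1) * (max 1 ‖w‖ + ((d : ℝ) + 3)) ^ (d + 1) ≤ (H * max 1 ‖w‖) ^ (d + 2) := by
    rw [pow_succ' _ (d + 1)]
    refine mul_le_mul (by linarith) (pow_le_pow_left₀ (by positivity) h6 _) (by positivity) (by positivity)
  calc _ ≤ ((H * max 1 ‖w‖) ^ (d + 2)) ^ Fintype.card (Fin k × Fin 4) *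
        ((H * max 1 ‖w‖) ^ B₁ * ‖MvPolynomial.aeval (Sum.elim x (cv ζ α)) P‖) := by
        refine mul_le_mul (pow_le_pow_left₀ (by positivity) h7 _) ?_ (by positivity) (by positivity)
        exact mul_le_mul_of_nonneg_right (pow_le_pow_left₀ hH0.le hHM _) (norm_nonneg _)
    _ = _ := by
        rw [hcard4, ← pow_mul, ← mul_assoc, ← pow_add]

end Pool.Agent.Q189.JM
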